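import Mathlib
import Pool.Graph.R_seed8.Helper617.RM.Defs

/-!
The language of second-order arithmetic, `ACA₀`, `ATR₀`, coded models and reflection,
following Simpson, Subsystems of second order arithmetic.
A structure for the language (`L2Structure`) consists of a set `M` of numbers with
`0, 1, +, ·, <` and of a collection `Sets` of subsets of `M` over which the set variables range.
-/

namespace Pool.Agent.Helper60.RR

open Pool.Agent.Helper617.RM (L2Structure cons)

universe u

/-- Number terms; `var i` is the number variable with de Bruijn index `i`. -/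
inductive NTerm : Type
  | var (i : ℕ) : NTerm
  | zero : NTerm
  | one : NTerm
  | add (s t : NTerm) : NTerm
  | mul (s t : NTerm) : NTerm

/-- Formulas of second-order arithmetic. Number variables and set variables are de Bruijn
indices, counted separately: `all φ` is `∀ x, φ` where `x` is the number variable `0` of `φ`, and
`allSet φ` is `∀ X, φ` where `X` is the set variable `0` of `φ`; `mem t i` is `t ∈ X_i`. -/
inductive Fml : Type
  | eq (s t : NTerm) : Fml
  | lt (s t : NTerm) : Fml
  | mem (t : NTerm) (i : ℕ) : Fml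
  | neg (φ : Fml) : Fml
  | and (φ ψ : Fml) : Fml
  | all (φ : Fml) : Fml
  | allSet (φ : Fml) : Fml

/-- `∃ X, φ` -/
def Fml.exSet (φ : Fml) : Fml := .neg (.allSet (.neg φ))

/-- The value of a term under the assignment `e` of the number variables. -/
def NTerm.val (N : L2Structure.{u}) : NTerm → (ℕ → N.M) → N.M
  | .var i, e => e i
  | .zero, _ => N.zero
  | .one, _ => N.one
  | .add s t, e => N.add (s.val N e) (t.val N e)
  | .mul s t, e => N.mul (s.val N e) (t.val N e)

/-- Truth of a formula in the structure `N` under the assignments `e` of the number variables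
and `E` of the set variables. The set quantifier ranges over `N.Sets`. -/
def Sat (N : L2Structure.{u}) : Fml → (ℕ → N.M) → (ℕ → Set N.M) → Prop
  | .eq s t, e, _ => s.val N e = t.val N e
  | .lt s t, e, _ => N.lt (s.val N e) (t.val N e)
  | .mem t i, e, E => t.val N e ∈ E i
  | .neg φ, e, E => ¬ Sat N φ e E
  | .and φ ψ, e, E => Sat N φ e E ∧ Sat N ψ e E
  | .all φ, e, E => ∀ a, Sat N φ (cons a e) E
  | .allSet φ, e, E => ∀ X ∈ N.Sets, Sat N φ e (cons X E)

/-- Arithmetical formulas: no set quantifiers (free set variables are allowed). -/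
def Fml.Arith : Fml → Prop
  | .eq _ _ => True
  | .lt _ _ => True
  | .mem _ _ => True
  | .neg φ => φ.Arith
  | .and φ ψ => φ.Arith ∧ ψ.Arith
  | .all φ => φ.Arith
  | .allSet _ => False

/-- all variables of the term are below `n` -/
def NTerm.Below : NTerm → ℕ → Prop
  | .var i, n => i < n
  | .zero, _ => True
  | .one, _ => True
  | .add s t, n => s.Below n ∧ t.Below n
  | .mul s t, n => s.Below n ∧ t.Below n

/-- all free number variables are below `n` and all free set variables are below `m` -/
def Fml.Below : Fml → ℕ → ℕ → Prop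
  | .eq s t, n, _ => s.Below n ∧ t.Below n
  | .lt s t, n, _ => s.Below n ∧ t.Below n
  | .mem t i, n, m => t.Below n ∧ i < m
  | .neg φ, n, m => φ.Below n m
  | .and φ ψ, n, m => φ.Below n m ∧ ψ.Below n m
  | .all φ, n, m => φ.Below (n + 1) m
  | .allSet φ, n, m => φ.Below n (m + 1)

/-- A sentence: a formula without free variables. -/
def Fml.IsSentence (φ : Fml) : Prop := φ.Below 0 0

/-- `Σ¹₃` formulas: `∃ X ∀ Y ∃ Z θ` with `θ` arithmetical. -/
def Fml.IsSigma13 (φ : Fml) : Prop :=
  ∃ θ : Fml, θ.Arith ∧ φ = .exSet (.allSet (.exSet θ))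

/-- The sentence `φ` is true in `N`. -/
def Holds (N : L2Structure.{u}) (φ : Fml) : Prop :=
  Sat N φ (fun _ => N.zero) (fun _ => ∅)

/-- Simpson's pairing function `(x + y)² + x`. -/
def pair (N : L2Structure.{u}) (x y : N.M) : N.M :=
  N.add (N.mul (N.add x y) (N.add x y)) x

/-- `N` is a model of `ACA₀`: there is a set, the basic axioms, the induction axiom, and
comprehension for arithmetical formulas with parameters. -/
structure IsACA0 (N : L2Structure.{u}) : Prop where
  nonempty : ∃ X, X ∈ N.Sets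
  succ_ne_zero : ∀ n, N.add n N.one ≠ N.zero
  succ_inj : ∀ m n, N.add m N.one = N.add n N.one → m = n
  add_zero : ∀ m, N.add m N.zero = m
  add_succ : ∀ m n, N.add m (N.add n N.one) = N.add (N.add m n) N.one
  mul_zero : ∀ m, N.mul m N.zero = N.zero
  mul_succ : ∀ m n, N.mul m (N.add n N.one) = N.add (N.mul m n) m
  not_lt_zero : ∀ m, ¬ N.lt m N.zero
  lt_succ : ∀ m n, N.lt m (N.add n N.one) ↔ (N.lt m n ∨ m = n)
  induction : ∀ X ∈ N.Sets, N.zero ∈ X → (∀ n, n ∈ X → N.add n N.one ∈ X) → ∀ n, n ∈ X
  comprehension : ∀ φ : Fml, φ.Arith → ∀ (e : ℕ → N.M) (E : ℕ → Set N.M),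
    (∀ i, E i ∈ N.Sets) → {n | Sat N φ (cons n e) E} ∈ N.Sets

/-- The set `R` codes, in the sense of `N`, a well-ordering of its field
`{i | (i, i) ∈ R}`: `i ≤ j` iff `(i, j) ∈ R`. -/
structure IsWO (N : L2Structure.{u}) (R : Set N.M) : Prop where
  refl : ∀ i j, pair N i j ∈ R → pair N i i ∈ R ∧ pair N j j ∈ R
  antisymm : ∀ i j, pair N i j ∈ R → pair N j i ∈ R → i = j
  trans : ∀ i j k, pair N i j ∈ R → pair N j k ∈ R → pair N i k ∈ R
  total : ∀ i j, pair N i i ∈ R → pair N j j ∈ R → pair N i j ∈ R ∨ pair N j i ∈ R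
  least : ∀ S ∈ N.Sets, (∃ i ∈ S, pair N i i ∈ R) →
    ∃ i ∈ S, pair N i i ∈ R ∧ ∀ j ∈ S, pair N j j ∈ R → pair N i j ∈ R

/-- `Y^j = {(m, i) ∈ Y | i < j}`, where `<` is the strict part of the order coded by `R` -/
def restrict (N : L2Structure.{u}) (R : Set N.M) (j : N.M) (Y : Set N.M) : Set N.M :=
  {p | ∃ m i, p = pair N m i ∧ (pair N i j ∈ R ∧ i ≠ j) ∧ p ∈ Y}

/-- `N` is a model of `ATR₀`: `ACA₀` together with arithmetical transfinite recursion, that is,
for every arithmetical formula `θ(n, X)` with parameters and every well-ordering coded by `R`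
there is `Y` with `Y = {(n, j) | j ∈ field R and θ(n, Y^j)}`. -/
structure IsATR0 (N : L2Structure.{u}) : Prop extends IsACA0 N where
  recursion : ∀ θ : Fml, θ.Arith → ∀ (e : ℕ → N.M) (E : ℕ → Set N.M),
    (∀ i, E i ∈ N.Sets) → ∀ R ∈ N.Sets, IsWO N R → ∃ Y ∈ N.Sets,
      Y = {p | ∃ n j, p = pair N n j ∧ pair N j j ∈ R ∧
        Sat N θ (cons n e) (cons (restrict N R j Y) E)}

/-- The structure coded by the set `W` in `N`: the numbers are those of `N` and the sets are
the `W_k = {n | (n, k) ∈ W}` for numbers `k` of `N`. -/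
def coded (N : L2Structure.{u}) (W : Set N.M) : L2Structure.{u} :=
  { N with Sets := {S | ∃ k, S = {n | pair N n k ∈ W}} }

/-- `Rfn(σ)` is true in `N`: every set `X` of `N` is an element of a coded `ω`-model `W` in `N`
which satisfies the sentence `σ` and `ACA₀`. -/
def Rfn (N : L2Structure.{u}) (σ : Fml) : Prop :=
  ∀ X ∈ N.Sets, ∃ W ∈ N.Sets, X ∈ (coded N W).Sets ∧ Holds (coded N W) σ ∧ IsACA0 (coded N W)

end Pool.Agent.Helper60.RR
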