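import Mathlib
import Pool.Agent.Helper60.RR.Defs
import Pool.Graph.R_seed8.Helper617.RM.ACATools

namespace Pool.Agent.Helper60.RR

open Pool.Agent.Helper617 Pool.Agent.Helper617.RM

universe u

set_option linter.unusedSectionVars false
set_option linter.unusedVariables false

/-! ### `ACA₀` in terms of parameter formulas -/

def lift (ρ : ℕ → ℕ) : ℕ → ℕ
  | 0 => 0
  | i + 1 => ρ i + 1

section ren

variable {N : L2Structure.{u}}

theorem ren_term (τ : NTerm) (ρ : ℕ → ℕ) : ∃ τ' : NTerm, ∀ (N : L2Structure.{u}) (e : ℕ → N.M),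
    τ'.val N e = τ.val N (fun i => e (ρ i)) := by
  induction τ with
  | var i => exact ⟨.var (ρ i), fun _ _ => rfl⟩
  | zero => exact ⟨.zero, fun _ _ => rfl⟩
  | one => exact ⟨.one, fun _ _ => rfl⟩
  | add s t hs ht =>
    obtain ⟨s', hs⟩ := hs
    obtain ⟨t', ht⟩ := ht
    exact ⟨.add s' t', fun N e => by simp only [NTerm.val, hs, ht]⟩
  | mul s t hs ht =>
    obtain ⟨s', hs⟩ := hs
    obtain ⟨t', ht⟩ := ht
    exact ⟨.mul s' t', fun N e => by simp only [NTerm.val, hs, ht]⟩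

theorem ren_fml (φ : Fml) : φ.Arith → ∀ (ρ τ : ℕ → ℕ), ∃ φ' : Fml, φ'.Arith ∧
    ∀ (N : L2Structure.{u}) (e : ℕ → N.M) (E : ℕ → Set N.M),
      Sat N φ' e E ↔ Sat N φ (fun i => e (ρ i)) (fun j => E (τ j)) := by
  induction φ with
  | eq s t =>
    intro _ ρ τ
    obtain ⟨s', hs⟩ := ren_term.{u} s ρ
    obtain ⟨t', ht⟩ := ren_term.{u} t ρ
    exact ⟨.eq s' t', trivial, fun N e E => by simp only [Sat, hs, ht]⟩
  | lt s t =>
    intro _ ρ τ
    obtain ⟨s', hs⟩ := ren_term.{u} s ρ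
    obtain ⟨t', ht⟩ := ren_term.{u} t ρ
    exact ⟨.lt s' t', trivial, fun N e E => by simp only [Sat, hs, ht]⟩
  | mem t i =>
    intro _ ρ τ
    obtain ⟨t', ht⟩ := ren_term.{u} t ρ
    exact ⟨.mem t' (τ i), trivial, fun N e E => by simp only [Sat, ht]⟩
  | neg φ ih =>
    intro h ρ τ
    obtain ⟨φ', h1, h2⟩ := ih h ρ τ
    exact ⟨.neg φ', h1, fun N e E => not_congr (h2 N e E)⟩
  | and φ ψ ih1 ih2 =>
    intro h ρ τ
    obtain ⟨φ', h1, h2⟩ := ih1 h.1 ρ τ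
    obtain ⟨ψ', h3, h4⟩ := ih2 h.2 ρ τ
    exact ⟨.and φ' ψ', ⟨h1, h3⟩, fun N e E => and_congr (h2 N e E) (h4 N e E)⟩
  | all φ ih =>
    intro h ρ τ
    obtain ⟨φ', h1, h2⟩ := ih h (lift ρ) τ
    refine ⟨.all φ', h1, fun N e E => forall_congr' fun a => ?_⟩
    rw [h2]
    have : (fun i => cons a e (lift ρ i)) = cons a (fun i => e (ρ i)) := by
      funext i
      cases i <;> rfl
    rw [this]
  | allSet φ ih => intro h; exact absurd h id

end ren

def app {α : Type u} (K : ℕ) (v e : ℕ → α) : ℕ → α := fun i => if i < K then v i else e (i - K)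

def mix {α : Type u} (e e' : ℕ → α) : ℕ → α := fun i => if i % 2 = 0 then e (i / 2) else e' (i / 2)

theorem app_mix_left {α : Type u} (K : ℕ) (v e e' : ℕ → α) :
    app K v e = fun i => app K v (mix e e') (if i < K then i else K + 2 * (i - K)) := by
  funext i
  unfold app mix
  by_cases h : i < K
  · simp [h]
  · have h1 : ¬ K + 2 * (i - K) < K := by omega
    have h2 : K + 2 * (i - K) - K = 2 * (i - K) := by omega
    simp [h, h2]

theorem app_mix_right {α : Type u} (K : ℕ) (v e e' : ℕ → α) :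
    app K v e' = fun i => app K v (mix e e') (if i < K then i else K + (2 * (i - K) + 1)) := by
  funext i
  unfold app mix
  by_cases h : i < K
  · simp [h]
  · have h1 : ¬ K + (2 * (i - K) + 1) < K := by omega
    have h2 : K + (2 * (i - K) + 1) - K = 2 * (i - K) + 1 := by omega
    have h3 : (2 * (i - K) + 1) / 2 = i - K := by omega
    have h4 : (2 * (i - K) + 1) % 2 = 1 := by omega
    simp only [h, if_false, h1, h2, h3, h4]
    simp

theorem mix_even {α : Type u} (e e' : ℕ → α) : (fun i => mix e e' (2 * i)) = e := by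
  funext i
  unfold mix
  simp

theorem mix_odd {α : Type u} (e e' : ℕ → α) : (fun i => mix e e' (2 * i + 1)) = e' := by
  funext i
  unfold mix
  have h3 : (2 * i + 1) / 2 = i := by omega
  have h4 : (2 * i + 1) % 2 = 1 := by omega
  simp [h3, h4]

section pd

variable (N : L2Structure.{u})

/-- relations that are arithmetical in parameters from `N` -/
def PD (R : (ℕ → N.M) → Prop) : Prop :=
  ∃ K₀ : ℕ, ∀ K ≥ K₀, ∃ φ : Fml, φ.Arith ∧ ∃ (e : ℕ → N.M) (E : ℕ → Set N.M),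
    (∀ i, E i ∈ N.Sets) ∧ ∀ v, R v ↔ Sat N φ (app K v e) E

def PT (t : (ℕ → N.M) → N.M) : Prop :=
  ∃ K₀ : ℕ, ∀ K ≥ K₀, ∃ (τ : NTerm) (e : ℕ → N.M), ∀ v, t v = τ.val N (app K v e)

variable {N}

theorem PT.two {s t : (ℕ → N.M) → N.M} (hs : PT N s) (ht : PT N t) : ∃ K₀ : ℕ, ∀ K ≥ K₀,
    ∃ (σ τ : NTerm) (e : ℕ → N.M), (∀ v, s v = σ.val N (app K v e)) ∧
      ∀ v, t v = τ.val N (app K v e) := by
  obtain ⟨K₁, h1⟩ := hs
  obtain ⟨K₂, h2⟩ := ht
  refine ⟨max K₁ K₂, fun K hK => ?_⟩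
  obtain ⟨σ, e₁, h1⟩ := h1 K ((le_max_left _ _).trans hK)
  obtain ⟨τ, e₂, h2⟩ := h2 K ((le_max_right _ _).trans hK)
  obtain ⟨σ', hσ⟩ := ren_term.{u} σ (fun i => if i < K then i else K + 2 * (i - K))
  obtain ⟨τ', hτ⟩ := ren_term.{u} τ (fun i => if i < K then i else K + (2 * (i - K) + 1))
  refine ⟨σ', τ', mix e₁ e₂, fun v => ?_, fun v => ?_⟩
  · rw [hσ, h1, ← app_mix_left]
  · rw [hτ, h2, ← app_mix_right]

theorem PD.two {R S : (ℕ → N.M) → Prop} (hR : PD N R) (hS : PD N S) : ∃ K₀ : ℕ, ∀ K ≥ K₀,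
    ∃ φ ψ : Fml, φ.Arith ∧ ψ.Arith ∧ ∃ (e : ℕ → N.M) (E : ℕ → Set N.M), (∀ i, E i ∈ N.Sets) ∧
      (∀ v, R v ↔ Sat N φ (app K v e) E) ∧ ∀ v, S v ↔ Sat N ψ (app K v e) E := by
  obtain ⟨K₁, h1⟩ := hR
  obtain ⟨K₂, h2⟩ := hS
  refine ⟨max K₁ K₂, fun K hK => ?_⟩
  obtain ⟨φ, hφ, e₁, E₁, hE₁, h1⟩ := h1 K ((le_max_left _ _).trans hK)
  obtain ⟨ψ, hψ, e₂, E₂, hE₂, h2⟩ := h2 K ((le_max_right _ _).trans hK)
  obtain ⟨φ', hφ1, hφ2⟩ := ren_fml.{u} φ hφ (fun i => if i < K then i else K + 2 * (i - K))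
    (fun i => 2 * i)
  obtain ⟨ψ', hψ1, hψ2⟩ := ren_fml.{u} ψ hψ (fun i => if i < K then i else K + (2 * (i - K) + 1))
    (fun i => 2 * i + 1)
  refine ⟨φ', ψ', hφ1, hψ1, mix e₁ e₂, mix E₁ E₂, fun i => ?_, fun v => ?_, fun v => ?_⟩
  · unfold mix
    split
    · exact hE₁ _
    · exact hE₂ _
  · rw [hφ2, h1, ← app_mix_left, mix_even]
  · rw [hψ2, h2, ← app_mix_right, mix_odd]

theorem PT.var (i : ℕ) : PT N (fun v => v i) := by
  refine ⟨i + 1, fun K hK => ⟨.var i, fun _ => N.zero, fun v => ?_⟩⟩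
  have : i < K := hK
  simp [NTerm.val, app, this]

theorem PT.const (a : N.M) : PT N (fun _ => a) := by
  refine ⟨0, fun K hK => ⟨.var K, fun _ => a, fun v => ?_⟩⟩
  simp [NTerm.val, app]

theorem PT.zero : PT N (fun _ => N.zero) := ⟨0, fun K _ => ⟨.zero, fun _ => N.zero, fun _ => rfl⟩⟩
theorem PT.one : PT N (fun _ => N.one) := ⟨0, fun K _ => ⟨.one, fun _ => N.zero, fun _ => rfl⟩⟩

theorem PT.add {s t : (ℕ → N.M) → N.M} (hs : PT N s) (ht : PT N t) :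
    PT N (fun v => N.add (s v) (t v)) := by
  obtain ⟨K₀, h⟩ := hs.two ht
  refine ⟨K₀, fun K hK => ?_⟩
  obtain ⟨σ, τ, e, h1, h2⟩ := h K hK
  exact ⟨.add σ τ, e, fun v => by simp only [NTerm.val, h1, h2]⟩

theorem PT.mul {s t : (ℕ → N.M) → N.M} (hs : PT N s) (ht : PT N t) :
    PT N (fun v => N.mul (s v) (t v)) := by
  obtain ⟨K₀, h⟩ := hs.two ht
  refine ⟨K₀, fun K hK => ?_⟩
  obtain ⟨σ, τ, e, h1, h2⟩ := h K hK
  exact ⟨.mul σ τ, e, fun v => by simp only [NTerm.val, h1, h2]⟩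

theorem PT.tail {t : (ℕ → N.M) → N.M} (ht : PT N t) : PT N (fun v => t (fun i => v (i + 1))) := by
  obtain ⟨K₀, h⟩ := ht
  refine ⟨K₀ + 1, fun K hK => ?_⟩
  obtain ⟨K, rfl⟩ : ∃ L, K = L + 1 := ⟨K - 1, by omega⟩
  obtain ⟨τ, e, h1⟩ := h K (by omega)
  obtain ⟨τ', hτ⟩ := ren_term.{u} τ (fun i => i + 1)
  refine ⟨τ', e, fun v => ?_⟩
  rw [hτ]
  refine (h1 _).trans ?_
  congr 1
  funext i
  unfold app
  by_cases hi : i < K
  · simp [hi]
  · have : ¬ i + 1 < K + 1 := by omega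
    simp [hi]

variable (hne : ∃ X, X ∈ N.Sets)

include hne

theorem PD.eq {s t : (ℕ → N.M) → N.M} (hs : PT N s) (ht : PT N t) :
    PD N (fun v => s v = t v) := by
  obtain ⟨X, hX⟩ := hne
  obtain ⟨K₀, h⟩ := hs.two ht
  refine ⟨K₀, fun K hK => ?_⟩
  obtain ⟨σ, τ, e, h1, h2⟩ := h K hK
  exact ⟨.eq σ τ, trivial, e, fun _ => X, fun _ => hX, fun v => by simp only [Sat, h1, h2]⟩

theorem PD.lt {s t : (ℕ → N.M) → N.M} (hs : PT N s) (ht : PT N t) :
    PD N (fun v => N.lt (s v) (t v)) := by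
  obtain ⟨X, hX⟩ := hne
  obtain ⟨K₀, h⟩ := hs.two ht
  refine ⟨K₀, fun K hK => ?_⟩
  obtain ⟨σ, τ, e, h1, h2⟩ := h K hK
  exact ⟨.lt σ τ, trivial, e, fun _ => X, fun _ => hX, fun v => by simp only [Sat, h1, h2]⟩

omit hne

theorem PD.mem {t : (ℕ → N.M) → N.M} (ht : PT N t) {X : Set N.M} (hX : X ∈ N.Sets) :
    PD N (fun v => t v ∈ X) := by
  obtain ⟨K₀, h⟩ := ht
  refine ⟨K₀, fun K hK => ?_⟩
  obtain ⟨τ, e, h1⟩ := h K hK
  exact ⟨.mem τ 0, trivial, e, fun _ => X, fun _ => hX, fun v => by simp only [Sat, h1]⟩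

theorem PD.not {R : (ℕ → N.M) → Prop} (hR : PD N R) : PD N (fun v => ¬ R v) := by
  obtain ⟨K₀, h⟩ := hR
  refine ⟨K₀, fun K hK => ?_⟩
  obtain ⟨φ, h1, e, E, hE, h2⟩ := h K hK
  exact ⟨.neg φ, h1, e, E, hE, fun v => not_congr (h2 v)⟩

theorem PD.and {R S : (ℕ → N.M) → Prop} (hR : PD N R) (hS : PD N S) :
    PD N (fun v => R v ∧ S v) := by
  obtain ⟨K₀, h⟩ := hR.two hS
  refine ⟨K₀, fun K hK => ?_⟩
  obtain ⟨φ, ψ, h1, h2, e, E, hE, h3, h4⟩ := h K hK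
  exact ⟨.and φ ψ, ⟨h1, h2⟩, e, E, hE, fun v => and_congr (h3 v) (h4 v)⟩

theorem app_succ {α : Type u} (K : ℕ) (a : α) (v e : ℕ → α) :
    app (K + 1) (cons a v) e = cons a (app K v e) := by
  funext i
  cases i with
  | zero => simp [app, cons]
  | succ i =>
    unfold app
    by_cases h : i < K
    · simp [h, cons]
    · simp [h, cons]

theorem PD.all {R : (ℕ → N.M) → Prop} (hR : PD N R) :
    PD N (fun v => ∀ a, R (cons a v)) := by
  obtain ⟨K₀, h⟩ := hR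
  refine ⟨K₀, fun K hK => ?_⟩
  obtain ⟨φ, h1, e, E, hE, h2⟩ := h (K + 1) (by omega)
  refine ⟨.all φ, h1, e, E, hE, fun v => forall_congr' fun a => ?_⟩
  rw [h2, app_succ]

theorem Term.pt (t : Term N) : PT N (fun v => t.val v) := by
  induction t with
  | var i => exact PT.var i
  | const a => exact PT.const a
  | zero => exact PT.zero
  | one => exact PT.one
  | add s t hs ht => exact hs.add ht
  | mul s t hs ht => exact hs.mul ht

theorem Delta0.pd (hne : ∃ X, X ∈ N.Sets) (θ : Delta0 N) : PD N (fun v => θ.Holds v) := by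
  induction θ with
  | eq s t => exact PD.eq hne (Term.pt s) (Term.pt t)
  | lt s t => exact PD.lt hne (Term.pt s) (Term.pt t)
  | mem t X => exact PD.mem (Term.pt t) X.2
  | neg φ ih => exact ih.not
  | and φ ψ ih1 ih2 => exact ih1.and ih2
  | ball t φ ih =>
    have h := PD.all ((PD.lt hne (PT.var 0) (Term.pt t).tail).and ih.not).not
    obtain ⟨K₀, h⟩ := h
    refine ⟨K₀, fun K hK => ?_⟩
    obtain ⟨φ', h1, e, E, hE, h2⟩ := h K hK
    refine ⟨φ', h1, e, E, hE, fun v => ?_⟩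
    rw [← h2]
    simp only [Delta0.Holds]
    refine forall_congr' fun a => ?_
    rw [not_and, not_not]
    rfl

theorem IsACA0.sigma_comp (h : IsACA0 N) (θ : Delta0 N) (v : ℕ → N.M) :
    {n | ∃ k, θ.Holds (cons k (cons n v))} ∈ N.Sets := by
  obtain ⟨K₀, hK⟩ := Delta0.pd h.nonempty θ
  obtain ⟨φ, h1, e, E, hE, h2⟩ := hK (K₀ + 2) (by omega)
  have := h.comprehension (.neg (.all (.neg φ))) h1 (app K₀ v e) E hE
  convert this using 1
  ext n
  simp only [Sat, Set.mem_ofPred_eq, not_forall, not_not]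
  refine exists_congr fun k => (h2 _).trans ?_
  rw [app_succ, app_succ]

theorem IsACA0.rca0 (h : IsACA0 N) : IsModelRCA0 N where
  ax_succ_ne_zero := h.succ_ne_zero
  ax_succ_inj := h.succ_inj
  ax_add_zero := h.add_zero
  ax_add_succ := h.add_succ
  ax_mul_zero := h.mul_zero
  ax_mul_succ := h.mul_succ
  ax_not_lt_zero := h.not_lt_zero
  ax_lt_succ := h.lt_succ
  sigma1_induction := fun θ v h0 hs n =>
    h.induction _ (h.sigma_comp θ v) h0 hs n
  delta1_comprehension := fun θ ψ v _ => h.sigma_comp θ v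

theorem IsACA0.sig1 (h : IsACA0 N) : @Sig1 N h.rca0 := by
  have := h.rca0
  refine ⟨fun P hP => ?_⟩
  obtain ⟨Q, ⟨φ, hφ⟩, hPQ⟩ := hP
  convert h.sigma_comp φ (fun _ => 0) using 1
  ext n
  simp only [Set.mem_ofPred_eq, hφ]
  exact hPQ (cons n fun _ => 0)

end pd

end Pool.Agent.Helper60.RR
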