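import Mathlib
import Pool.Graph.R_seed8.Helper617.RM.ACATools
import Pool.Graph.R_seed8.Helper617.RM.FinCodes
import Pool.Agent.Helper60.RR.Defs

namespace Pool.Agent.Helper60.RR

open Pool.Agent.Helper617.RM

universe u

set_option linter.unusedSectionVars false
set_option linter.unusedVariables false

/-- set contexts -/
abbrev SC (N : L2Structure.{u}) : Type u := ℕ → Set N.M

/-- uniform relations -/
abbrev Rel := ∀ (N : L2Structure.{u}) [IsModelRCA0 N], Ctx N → SC N → Prop

/-- uniform set expressions -/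
abbrev SRel := ∀ (N : L2Structure.{u}) [IsModelRCA0 N], Ctx N → SC N → Set N.M

/-- uniform number expressions -/
abbrev TRel := ∀ (N : L2Structure.{u}) [IsModelRCA0 N], Ctx N → N.M

/-- uniformly arithmetical relations -/
def UA (P : Rel.{u}) : Prop :=
  ∃ φ : Fml, φ.Arith ∧ ∀ (N : L2Structure.{u}) [IsModelRCA0 N] (e : Ctx N) (E : SC N),
    Sat N φ e E ↔ P N e E

def UT (t : TRel.{u}) : Prop :=
  ∃ τ : NTerm, ∀ (N : L2Structure.{u}) [IsModelRCA0 N] (e : Ctx N), τ.val N e = t N e

def US (S : SRel.{u}) : Prop := UA (fun N _ e E => e 0 ∈ S N (tail e) E)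

theorem UA.congr {P Q : Rel.{u}} (hP : UA P)
    (h : ∀ (N : L2Structure.{u}) [IsModelRCA0 N] (e : Ctx N) (E : SC N), P N e E ↔ Q N e E) :
    UA Q := by
  obtain ⟨φ, h1, h2⟩ := hP
  exact ⟨φ, h1, fun N _ e E => (h2 N e E).trans (h N e E)⟩

theorem UA.not {P : Rel.{u}} (hP : UA P) : UA (fun N _ e E => ¬ P N e E) := by
  obtain ⟨φ, h1, h2⟩ := hP
  exact ⟨.neg φ, h1, fun N _ e E => not_congr (h2 N e E)⟩

theorem UA.and {P Q : Rel.{u}} (hP : UA P) (hQ : UA Q) :
    UA (fun N _ e E => P N e E ∧ Q N e E) := by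
  obtain ⟨φ, h1, h2⟩ := hP
  obtain ⟨ψ, h3, h4⟩ := hQ
  exact ⟨.and φ ψ, ⟨h1, h3⟩, fun N _ e E => and_congr (h2 N e E) (h4 N e E)⟩

theorem UA.or {P Q : Rel.{u}} (hP : UA P) (hQ : UA Q) :
    UA (fun N _ e E => P N e E ∨ Q N e E) :=
  (hP.not.and hQ.not).not.congr fun N _ e E => by tauto

theorem UA.imp {P Q : Rel.{u}} (hP : UA P) (hQ : UA Q) :
    UA (fun N _ e E => P N e E → Q N e E) :=
  (hP.and hQ.not).not.congr fun N _ e E => by tauto

theorem UA.iff {P Q : Rel.{u}} (hP : UA P) (hQ : UA Q) :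
    UA (fun N _ e E => (P N e E ↔ Q N e E)) :=
  ((hP.imp hQ).and (hQ.imp hP)).congr fun N _ e E => by tauto

theorem UA.true : UA.{u} (fun _ _ _ _ => True) :=
  ⟨.eq .zero .zero, trivial, fun _ _ _ _ => by simp [Sat]⟩

theorem UA.false : UA.{u} (fun _ _ _ _ => False) :=
  UA.true.not.congr fun _ _ _ _ => by simp

theorem UA.all {P : ∀ (N : L2Structure.{u}) [IsModelRCA0 N], Ctx N → SC N → N.M → Prop}
    (hP : UA (fun N _ e E => P N (tail e) E (e 0))) :
    UA (fun N _ e E => ∀ x, P N e E x) := by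
  obtain ⟨φ, h1, h2⟩ := hP
  exact ⟨.all φ, h1, fun N _ e E => forall_congr' fun a => h2 N (cons a e) E⟩

theorem UA.ex {P : ∀ (N : L2Structure.{u}) [IsModelRCA0 N], Ctx N → SC N → N.M → Prop}
    (hP : UA (fun N _ e E => P N (tail e) E (e 0))) :
    UA (fun N _ e E => ∃ x, P N e E x) :=
  (UA.all (P := fun N _ e E x => ¬ P N e E x) hP.not).not.congr fun N _ e E => by
    push Not; rfl

/-! ### terms -/

theorem UT.var (i : ℕ) : UT.{u} (fun _ _ e => e i) := ⟨.var i, fun _ _ _ => rfl⟩
theorem UT.zero : UT.{u} (fun _ _ _ => 0) := ⟨.zero, fun _ _ _ => rfl⟩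
theorem UT.one : UT.{u} (fun _ _ _ => 1) := ⟨.one, fun _ _ _ => rfl⟩
theorem UT.add {s t : TRel.{u}} (hs : UT s) (ht : UT t) : UT (fun N _ e => s N e + t N e) := by
  obtain ⟨σ, hσ⟩ := hs
  obtain ⟨τ, hτ⟩ := ht
  exact ⟨.add σ τ, fun N _ e => by simp only [NTerm.val, hσ, hτ]; rfl⟩
theorem UT.mul {s t : TRel.{u}} (hs : UT s) (ht : UT t) : UT (fun N _ e => s N e * t N e) := by
  obtain ⟨σ, hσ⟩ := hs
  obtain ⟨τ, hτ⟩ := ht
  exact ⟨.mul σ τ, fun N _ e => by simp only [NTerm.val, hσ, hτ]; rfl⟩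
theorem UT.pr {s t : TRel.{u}} (hs : UT s) (ht : UT t) : UT (fun N _ e => pr (s N e) (t N e)) :=
  ((hs.add ht).mul (hs.add ht)).add hs

theorem UT.nat (k : ℕ) : UT.{u} (fun N _ _ => (k : N.M)) := by
  induction k with
  | zero => simpa using UT.zero
  | succ k ih => simpa using ih.add UT.one

theorem UT.comp {t : TRel.{u}} (ht : UT t)
    {g : ∀ (N : L2Structure.{u}) [IsModelRCA0 N], Ctx N → Ctx N}
    (hg : ∀ i, UT (fun N _ e => g N e i)) : UT (fun N _ e => t N (g N e)) := by
  obtain ⟨τ, hτ⟩ := ht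
  have key : ∀ τ : NTerm, UT (fun N _ e => τ.val N (g N e)) := by
    intro τ
    induction τ with
    | var i => exact hg i
    | zero => exact UT.zero
    | one => exact UT.one
    | add s t hs ht => exact hs.add ht
    | mul s t hs ht => exact hs.mul ht
  obtain ⟨σ, hσ⟩ := key τ
  exact ⟨σ, fun N _ e => (hσ N e).trans (hτ N _)⟩

theorem UT.tl {t : TRel.{u}} (ht : UT t) : UT (fun N _ e => t N (tail e)) :=
  ht.comp fun i => UT.var (i + 1)

theorem UA.eq {s t : TRel.{u}} (hs : UT s) (ht : UT t) : UA (fun N _ e _ => s N e = t N e) := by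
  obtain ⟨σ, hσ⟩ := hs
  obtain ⟨τ, hτ⟩ := ht
  exact ⟨.eq σ τ, trivial, fun N _ e _ => by simp only [Sat, hσ, hτ]⟩

theorem UA.lt {s t : TRel.{u}} (hs : UT s) (ht : UT t) : UA (fun N _ e _ => s N e < t N e) := by
  obtain ⟨σ, hσ⟩ := hs
  obtain ⟨τ, hτ⟩ := ht
  exact ⟨.lt σ τ, trivial, fun N _ e _ => by simp only [Sat, hσ, hτ]; rfl⟩

theorem UA.le {s t : TRel.{u}} (hs : UT s) (ht : UT t) : UA (fun N _ e _ => s N e ≤ t N e) :=
  (UA.lt hs (ht.add UT.one)).congr fun N _ e _ => by simp only [lt_add_one_iff']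

/-! ### substitution -/

theorem US.shift {S : SRel.{u}} (hS : US S) : US (fun N _ e E => S N (tail e) E) := by
  have key : ∀ (φ : Fml), φ.Arith → ∀ (g : ∀ (N : L2Structure.{u}) [IsModelRCA0 N],
      Ctx N → Ctx N), (∀ i, UT (fun N _ e => g N e i)) →
      UA (fun N _ e E => Sat N φ (g N e) E) := by
    intro φ
    induction φ with
    | eq s t =>
      intro _ g hg
      exact UA.eq (UT.comp (t := fun N _ e => s.val N e) ⟨s, fun _ _ _ => rfl⟩ hg)
        (UT.comp (t := fun N _ e => t.val N e) ⟨t, fun _ _ _ => rfl⟩ hg)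
    | lt s t =>
      intro _ g hg
      exact UA.lt (UT.comp (t := fun N _ e => s.val N e) ⟨s, fun _ _ _ => rfl⟩ hg)
        (UT.comp (t := fun N _ e => t.val N e) ⟨t, fun _ _ _ => rfl⟩ hg)
    | mem t i =>
      intro _ g hg
      obtain ⟨τ, hτ⟩ := UT.comp (t := fun N _ e => t.val N e) ⟨t, fun _ _ _ => rfl⟩ hg
      exact ⟨.mem τ i, trivial, fun N _ e E => by simp only [Sat, hτ]⟩
    | neg φ ih => intro h g hg; exact (ih h g hg).not
    | and φ ψ ih1 ih2 => intro h g hg; exact (ih1 h.1 g hg).and (ih2 h.2 g hg)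
    | all φ ih =>
      intro h g hg
      refine UA.all (P := fun N _ e E x => Sat N φ (cons x (g N e)) E) ?_
      refine ih h (fun N _ e => cons (e 0) (g N (tail e))) fun i => ?_
      cases i with
      | zero => exact UT.var 0
      | succ i => exact (hg i).tl
    | allSet φ ih => intro h; exact absurd h id
  obtain ⟨φ, h1, h2⟩ := hS
  refine (key φ h1 (fun N _ e => cons (e 0) (tail (tail e))) fun i => ?_).congr
    fun N _ e E => h2 N _ E
  cases i with
  | zero => exact UT.var 0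
  | succ i => exact UT.var (i + 2)

/-- simultaneous substitution of terms for the number variables and of set expressions for the
set variables -/
theorem UA.comp {P : Rel.{u}} (hP : UA P)
    {g : ∀ (N : L2Structure.{u}) [IsModelRCA0 N], Ctx N → Ctx N}
    (hg : ∀ i, UT (fun N _ e => g N e i))
    {S : ∀ (N : L2Structure.{u}) [IsModelRCA0 N], Ctx N → SC N → SC N}
    (hS : ∀ j, US (fun N _ e E => S N e E j)) :
    UA (fun N _ e E => P N (g N e) (S N e E)) := by
  have key : ∀ (φ : Fml), φ.Arith → ∀ (g : ∀ (N : L2Structure.{u}) [IsModelRCA0 N],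
      Ctx N → Ctx N), (∀ i, UT (fun N _ e => g N e i)) →
      ∀ (S : ∀ (N : L2Structure.{u}) [IsModelRCA0 N], Ctx N → SC N → SC N),
      (∀ j, US (fun N _ e E => S N e E j)) →
      UA (fun N _ e E => Sat N φ (g N e) (S N e E)) := by
    intro φ
    induction φ with
    | eq s t =>
      intro _ g hg S hS
      exact UA.eq (UT.comp (t := fun N _ e => s.val N e) ⟨s, fun _ _ _ => rfl⟩ hg)
        (UT.comp (t := fun N _ e => t.val N e) ⟨t, fun _ _ _ => rfl⟩ hg)
    | lt s t =>
      intro _ g hg S hS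
      exact UA.lt (UT.comp (t := fun N _ e => s.val N e) ⟨s, fun _ _ _ => rfl⟩ hg)
        (UT.comp (t := fun N _ e => t.val N e) ⟨t, fun _ _ _ => rfl⟩ hg)
    | mem t i =>
      intro _ g hg S hS
      have ht := UT.comp (t := fun N _ e => t.val N e) ⟨t, fun _ _ _ => rfl⟩ hg
      -- `∃ x, x = t ∧ x ∈ S`
      refine (UA.ex (P := fun N _ e E x => x = t.val N (g N e) ∧ x ∈ S N e E i) ?_).congr
        fun N _ e E => by simp [Sat]
      exact (UA.eq (UT.var 0) ht.tl).and (hS i)
    | neg φ ih => intro h g hg S hS; exact (ih h g hg S hS).not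
    | and φ ψ ih1 ih2 => intro h g hg S hS; exact (ih1 h.1 g hg S hS).and (ih2 h.2 g hg S hS)
    | all φ ih =>
      intro h g hg S hS
      refine UA.all (P := fun N _ e E x => Sat N φ (cons x (g N e)) (S N e E)) ?_
      refine ih h (fun N _ e => cons (e 0) (g N (tail e))) (fun i => ?_)
        (fun N _ e E => S N (tail e) E) (fun j => ?_)
      · cases i with
        | zero => exact UT.var 0
        | succ i => exact (hg i).tl
      · exact (hS j).shift
    | allSet φ ih => intro h; exact absurd h id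
  obtain ⟨φ, h1, h2⟩ := hP
  exact (key φ h1 g hg S hS).congr fun N _ e E => h2 N _ _

theorem US.var (j : ℕ) : US.{u} (fun _ _ _ E => E j) :=
  ⟨.mem (.var 0) j, trivial, fun _ _ _ _ => Iff.rfl⟩

theorem UA.sub {P : Rel.{u}} (hP : UA P)
    {g : ∀ (N : L2Structure.{u}) [IsModelRCA0 N], Ctx N → Ctx N}
    (hg : ∀ i, UT (fun N _ e => g N e i)) : UA (fun N _ e E => P N (g N e) E) :=
  hP.comp hg (S := fun N _ e E => E) US.var

theorem UA.tl {P : Rel.{u}} (hP : UA P) : UA (fun N _ e E => P N (tail e) E) :=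
  hP.sub fun i => UT.var (i + 1)

/-- membership of a term in a set expression -/
theorem UA.mem {t : TRel.{u}} (ht : UT t) {S : SRel.{u}} (hS : US S) :
    UA (fun N _ e E => t N e ∈ S N e E) :=
  UA.sub (P := fun N _ e E => e 0 ∈ S N (tail e) E) hS
    (g := fun N _ e => cons (t N e) e) fun i => by
      cases i with
      | zero => exact ht
      | succ i => exact UT.var i

theorem UA.memV {t : TRel.{u}} (ht : UT t) (j : ℕ) : UA (fun N _ e E => t N e ∈ E j) :=
  UA.mem ht (US.var j)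

theorem UA.ballNat (k : ℕ) {P : ℕ → Rel.{u}} (hP : ∀ i, UA (P i)) :
    UA (fun N _ e E => ∀ i < k, P i N e E) := by
  induction k with
  | zero => exact UA.true.congr fun N _ e E => by simp
  | succ k ih =>
    refine (ih.and (hP k)).congr fun N _ e E => ?_
    constructor
    · rintro ⟨h1, h2⟩ i hi
      rcases Nat.lt_succ_iff_lt_or_eq.1 hi with h | rfl
      · exact h1 i h
      · exact h2
    · intro h
      exact ⟨fun i hi => h i (Nat.lt_succ_of_lt hi), h k (Nat.lt_succ_self k)⟩

theorem UA.bexNat (k : ℕ) {P : ℕ → Rel.{u}} (hP : ∀ i, UA (P i)) :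
    UA (fun N _ e E => ∃ i < k, P i N e E) :=
  (UA.ballNat k fun i => (hP i).not).not.congr fun N _ e E => by push Not; rfl

/-! ### columns -/

section cols

variable {N : L2Structure.{u}} [IsModelRCA0 N]

/-- the `k`-th column of a set -/
def col (W : Set N.M) (k : N.M) : Set N.M := {x | pr x k ∈ W}

@[simp] theorem mem_col {W : Set N.M} {k x : N.M} : x ∈ col W k ↔ pr x k ∈ W := Iff.rfl

end cols

theorem US.colm {S : SRel.{u}} (hS : US S) {t : TRel.{u}} (ht : UT t) :
    US (fun N _ e E => col (S N e E) (t N e)) :=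
  UA.mem ((UT.var 0).pr ht.tl) hS.shift

theorem US.of {P : ∀ (N : L2Structure.{u}) [IsModelRCA0 N], Ctx N → SC N → N.M → Prop}
    (hP : UA (fun N _ e E => P N (tail e) E (e 0))) :
    US (fun N _ e E => {x | P N e E x}) := hP

theorem US.empty : US.{u} (fun _ _ _ _ => ∅) := UA.false

/-- definability by `Δ⁰₀` formulas with parameters in models of `ACA₀` -/
theorem UA.toD0 {P : Rel.{u}} (hP : UA P) {N : L2Structure.{u}} [IsModelRCA0 N] [Sig1 N]
    {g : Ctx N → Ctx N} (hg : CM g) {S : Ctx N → SC N}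
    (hS : ∀ j, D0 (fun v => v 0 ∈ S (tail v) j)) : D0 (fun v => P N (g v) (S v)) := by
  have key : ∀ (φ : Fml), φ.Arith → ∀ (g : Ctx N → Ctx N), CM g → ∀ (S : Ctx N → SC N),
      (∀ j, D0 (fun v => v 0 ∈ S (tail v) j)) → D0 (fun v => Sat N φ (g v) (S v)) := by
    intro φ
    have hterm : ∀ (t : NTerm) {g : Ctx N → Ctx N}, CM g → Tm (fun v => t.val N (g v)) := by
      intro t g hg
      induction t with
      | var i => exact hg i
      | zero => exact Tm.zero
      | one => exact Tm.one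
      | add s t hs ht => exact Tm.add hs ht
      | mul s t hs ht => exact Tm.mul hs ht
    induction φ with
    | eq s t => intro _ g hg S hS; exact D0.eq (hterm s hg) (hterm t hg)
    | lt s t => intro _ g hg S hS; exact D0.lt (hterm s hg) (hterm t hg)
    | mem t i =>
      intro _ g hg S hS
      exact (hS i).comp (g := fun v => cons (t.val N (g v)) v) (CM.cons (hterm t hg) CM.id)
    | neg φ ih => intro h g hg S hS; exact (ih h g hg S hS).not
    | and φ ψ ih1 ih2 => intro h g hg S hS; exact (ih1 h.1 g hg S hS).and (ih2 h.2 g hg S hS)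
    | all φ ih =>
      intro h g hg S hS
      refine D0.all (P := fun v x => Sat N φ (cons x (g v)) (S v)) ?_
      refine ih h (fun v => cons (v 0) (g (tail v))) (CM.cons (Tm.var 0) fun i => (hg i).tail)
        (fun v => S (tail v)) (fun j => ?_)
      exact (hS j).comp (g := fun v => cons (v 0) (tail (tail v)))
        (CM.cons (Tm.var 0) CM.tail.tail')
    | allSet φ ih => intro h; exact absurd h id
  obtain ⟨φ, h1, h2⟩ := hP
  exact (key φ h1 g hg S hS).congr fun v => h2 N _ _

/-- arithmetical formulas are absolute -/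
theorem sat_coded {N : L2Structure.{u}} (W : Set N.M) (φ : Fml) (h : φ.Arith) (e : ℕ → N.M)
    (E : ℕ → Set N.M) : Sat (coded N W) φ e E ↔ Sat N φ e E := by
  have ht : ∀ (t : NTerm) (e : ℕ → N.M), t.val (coded N W) e = t.val N e := by
    intro t e
    induction t with
    | var i => rfl
    | zero => rfl
    | one => rfl
    | add s t hs ht => simp only [NTerm.val, hs, ht]; rfl
    | mul s t hs ht => simp only [NTerm.val, hs, ht]; rfl
  induction φ generalizing e with
  | eq s t => simp only [Sat, ht]; exact Iff.rfl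
  | lt s t => simp only [Sat, ht]; exact Iff.rfl
  | mem t i => simp only [Sat, ht]; exact Iff.rfl
  | neg φ ih => exact not_congr (ih h e)
  | and φ ψ ih1 ih2 => exact and_congr (ih1 h.1 e) (ih2 h.2 e)
  | all φ ih => exact forall_congr' fun a => ih h _
  | allSet φ ih => exact absurd h id

end Pool.Agent.Helper60.RR
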