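import Mathlib
import Pool.Agent.Helper60.RR.UA

namespace Pool.Agent.Helper60.RR

open Pool.Agent.Helper617 Pool.Agent.Helper617.RM

universe u

set_option linter.unusedSectionVars false
set_option linter.unusedVariables false

/-! ### families of terms and set expressions -/

def UTs (g : ∀ (N : L2Structure.{u}) [IsModelRCA0 N], Ctx N → Ctx N) : Prop :=
  ∀ i, UT (fun N _ e => g N e i)

def USs (S : ∀ (N : L2Structure.{u}) [IsModelRCA0 N], Ctx N → SC N → SC N) : Prop :=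
  ∀ j, US (fun N _ e E => S N e E j)

theorem UTs.id : UTs.{u} (fun _ _ e => e) := UT.var

theorem UTs.tl {g : ∀ (N : L2Structure.{u}) [IsModelRCA0 N], Ctx N → Ctx N} (hg : UTs g) :
    UTs (fun N _ e => tail (g N e)) := fun i => hg (i + 1)

theorem UTs.cons {t : TRel.{u}} {g : ∀ (N : L2Structure.{u}) [IsModelRCA0 N], Ctx N → Ctx N}
    (ht : UT t) (hg : UTs g) : UTs (fun N _ e => RM.cons (t N e) (g N e)) := by
  intro i
  cases i with
  | zero => exact ht
  | succ i => exact hg i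

theorem USs.id : USs.{u} (fun _ _ _ E => E) := US.var

theorem USs.tl {S : ∀ (N : L2Structure.{u}) [IsModelRCA0 N], Ctx N → SC N → SC N}
    (hS : USs S) : USs (fun N _ e E => tail (S N e E)) := fun j => hS (j + 1)

theorem USs.cons {S₀ : SRel.{u}}
    {S : ∀ (N : L2Structure.{u}) [IsModelRCA0 N], Ctx N → SC N → SC N}
    (h₀ : US S₀) (hS : USs S) : USs (fun N _ e E => RM.cons (S₀ N e E) (S N e E)) := by
  intro j
  cases j with
  | zero => exact h₀
  | succ j => exact hS j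

theorem USs.empty : USs.{u} (fun _ _ _ _ _ => ∅) := fun _ => US.empty

/-! ### continuity -/

section cont

variable {N : L2Structure.{u}} [IsModelRCA0 N]

def Agr (m : N.M) (F F' : SC N) : Prop := ∀ j x, x < m → (x ∈ F' j ↔ x ∈ F j)

theorem Agr.mono {m m' : N.M} {F F' : SC N} (h : Agr m F F') (hm : m' ≤ m) : Agr m' F F' :=
  fun j x hx => h j x (lt_of_lt_of_le hx hm)

def ContAt (Q : SC N → Prop) (F : SC N) : Prop := ∃ m : N.M, ∀ F', Agr m F F' → (Q F' ↔ Q F)

theorem ContAt.const (p : Prop) (F : SC N) : ContAt (fun _ => p) F := ⟨0, fun _ _ => Iff.rfl⟩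

theorem ContAt.not {Q : SC N → Prop} {F : SC N} (h : ContAt Q F) : ContAt (fun F => ¬ Q F) F := by
  obtain ⟨m, hm⟩ := h
  exact ⟨m, fun F' h => not_congr (hm F' h)⟩

theorem ContAt.and {Q R : SC N → Prop} {F : SC N} (hQ : ContAt Q F) (hR : ContAt R F) :
    ContAt (fun F => Q F ∧ R F) F := by
  obtain ⟨m, hm⟩ := hQ
  obtain ⟨k, hk⟩ := hR
  exact ⟨max m k, fun F' h => and_congr (hm F' (h.mono (le_max_left _ _)))
    (hk F' (h.mono (le_max_right _ _)))⟩

theorem ContAt.imp {Q R : SC N → Prop} {F : SC N} (hQ : ContAt Q F) (hR : ContAt R F) :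
    ContAt (fun F => Q F → R F) F := by
  obtain ⟨m, hm⟩ := hQ
  obtain ⟨k, hk⟩ := hR
  exact ⟨max m k, fun F' h => imp_congr (hm F' (h.mono (le_max_left _ _)))
    (hk F' (h.mono (le_max_right _ _)))⟩

theorem ContAt.mem (x : N.M) (j : ℕ) (F : SC N) : ContAt (fun F => x ∈ F j) F :=
  ⟨x + 1, fun F' h => h j x (lt_add_one_iff'.2 le_rfl)⟩

theorem ContAt.tail {Q : SC N → Prop} {F : SC N} (h : ContAt Q (tail F)) :
    ContAt (fun F => Q (RM.tail F)) F := by
  obtain ⟨m, hm⟩ := h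
  exact ⟨m, fun F' h => hm _ fun j x hx => h (j + 1) x hx⟩

theorem pr_lt_pr_left {x m y : N.M} (h : x < m) : pr x y < pr m y :=
  pr_lt_pr (by gcongr)

theorem ContAt.col {Q : SC N → Prop} {F : SC N} (y : N.M)
    (h : ContAt Q (cons (col (F 0) y) (RM.tail F))) :
    ContAt (fun F => Q (cons (RR.col (F 0) y) (RM.tail F))) F := by
  obtain ⟨m, hm⟩ := h
  refine ⟨pr m y, fun F' h => hm _ fun j x hx => ?_⟩
  cases j with
  | zero => exact h 0 _ (pr_lt_pr_left hx)
  | succ j => exact h (j + 1) x (lt_of_lt_of_le hx (fst_le_pr m y))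

theorem ContAt.unique {Q : N.M → SC N → Prop} {F : SC N} {p : N.M → Prop}
    (hu : ∀ i j, p i → p j → i = j) (h : ∀ i, ContAt (Q i) F) :
    ContAt (fun F => ∀ i, p i → Q i F) F := by
  by_cases hp : ∃ i, p i
  · obtain ⟨i, hi⟩ := hp
    obtain ⟨m, hm⟩ := h i
    refine ⟨m, fun F' hF' => ⟨fun h j hj => ?_, fun h j hj => ?_⟩⟩
    · rw [hu j i hj hi]; exact (hm F' hF').1 (h i hi)
    · rw [hu j i hj hi]; exact (hm F' hF').2 (h i hi)
  · exact ⟨0, fun F' hF' => ⟨fun _ j hj => absurd ⟨j, hj⟩ hp, fun _ j hj => absurd ⟨j, hj⟩ hp⟩⟩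

theorem ContAt.unique2 {Q : N.M → N.M → SC N → Prop} {F : SC N} {p : N.M → N.M → Prop}
    (hu : ∀ i j i' j', p i j → p i' j' → i = i' ∧ j = j') (h : ∀ i j, ContAt (Q i j) F) :
    ContAt (fun F => ∀ i j, p i j → Q i j F) F := by
  by_cases hp : ∃ i j, p i j
  · obtain ⟨i, j, hij⟩ := hp
    obtain ⟨m, hm⟩ := h i j
    refine ⟨m, fun F' hF' => ⟨fun h i' j' hj => ?_, fun h i' j' hj => ?_⟩⟩
    · obtain ⟨rfl, rfl⟩ := hu _ _ _ _ hj hij; exact (hm F' hF').1 (h _ _ hij)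
    · obtain ⟨rfl, rfl⟩ := hu _ _ _ _ hj hij; exact (hm F' hF').2 (h _ _ hij)
  · exact ⟨0, fun F' hF' => ⟨fun _ i j hj => absurd ⟨i, j, hj⟩ hp,
      fun _ i j hj => absurd ⟨i, j, hj⟩ hp⟩⟩

end cont

def Cont (ψ : Rel.{u}) : Prop :=
  ∀ (N : L2Structure.{u}) [IsModelRCA0 N] (e : Ctx N) (F : SC N), ContAt (ψ N e) F

/-! ### Skolem normal form -/

/-- `P` is uniformly equivalent to `∃ D ∀ n ∃ v ψ(n, v, D)` with `ψ` continuous; the witness `D`
may be taken arithmetical -/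
def SNF (P : Rel.{u}) : Prop :=
  ∃ ψ δ : Rel.{u}, UA ψ ∧ Cont ψ ∧ UA δ ∧
    ∀ (N : L2Structure.{u}) [IsModelRCA0 N] (e : Ctx N) (E : SC N),
      (P N e E → ∀ n, ∃ v, ψ N (cons n (cons v e)) (cons {z | δ N (cons z e) E} E)) ∧
      (∀ D : Set N.M, (∀ n, ∃ v, ψ N (cons n (cons v e)) (cons D E)) → P N e E)

theorem SNF.congr {P Q : Rel.{u}} (hP : SNF P)
    (h : ∀ (N : L2Structure.{u}) [IsModelRCA0 N] (e : Ctx N) (E : SC N), P N e E ↔ Q N e E) :
    SNF Q := by
  obtain ⟨ψ, δ, h1, h2, h3, h4⟩ := hP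
  exact ⟨ψ, δ, h1, h2, h3, fun N _ e E => ⟨fun hq => (h4 N e E).1 ((h N e E).2 hq),
    fun D hD => (h N e E).1 ((h4 N e E).2 D hD)⟩⟩

theorem SNF.base {P : Rel.{u}} (hP : UA P) (hc : Cont P) : SNF P := by
  refine ⟨fun N _ e F => P N (tail (tail e)) (tail F), fun _ _ _ _ => False, ?_, ?_, UA.false, ?_⟩
  · exact hP.comp UTs.id.tl.tl USs.id.tl
  · intro N _ e F
    exact ContAt.tail (hc N _ _)
  · intro N _ e E
    refine ⟨fun h n => ⟨0, h⟩, fun D h => ?_⟩
    obtain ⟨v, hv⟩ := h 0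
    exact hv

theorem SNF.sub {P : Rel.{u}} (hP : SNF P)
    {g : ∀ (N : L2Structure.{u}) [IsModelRCA0 N], Ctx N → Ctx N} (hg : UTs g) :
    SNF (fun N _ e E => P N (g N e) E) := by
  obtain ⟨ψ, δ, h1, h2, h3, h4⟩ := hP
  refine ⟨fun N _ e F => ψ N (cons (e 0) (cons (e 1) (g N (tail (tail e))))) F,
    fun N _ e E => δ N (cons (e 0) (g N (tail e))) E, ?_, ?_, ?_, ?_⟩
  · refine h1.sub (g := fun N _ e => cons (e 0) (cons (e 1) (g N (tail (tail e))))) ?_
    exact UTs.cons (UT.var 0) (UTs.cons (UT.var 1) fun i => (hg i).tl.tl)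
  · intro N _ e F
    exact h2 N _ _
  · refine h3.sub (g := fun N _ e => cons (e 0) (g N (tail e))) ?_
    exact UTs.cons (UT.var 0) fun i => (hg i).tl
  · intro N _ e E
    exact ⟨fun h n => (h4 N _ E).1 h n, fun D h => (h4 N _ E).2 D h⟩

theorem SNF.guard {R P : Rel.{u}} (hR : UA R) (hRc : Cont R) (hP : SNF P) :
    SNF (fun N _ e E => R N e E → P N e E) := by
  obtain ⟨ψ, δ, h1, h2, h3, h4⟩ := hP
  refine ⟨fun N _ e F => R N (tail (tail e)) (tail F) → ψ N e F, δ, ?_, ?_, h3, ?_⟩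
  · exact UA.imp (hR.comp UTs.id.tl.tl USs.id.tl) h1
  · intro N _ e F
    exact ContAt.imp (ContAt.tail (hRc N _ _)) (h2 N e F)
  · intro N _ e E
    refine ⟨fun h n => ?_, fun D h hr => (h4 N e E).2 D fun n => ?_⟩
    · by_cases hr : R N e E
      · obtain ⟨v, hv⟩ := (h4 N e E).1 (h hr) n
        exact ⟨v, fun _ => hv⟩
      · exact ⟨0, fun hr' => absurd hr' hr⟩
    · obtain ⟨v, hv⟩ := h n
      exact ⟨v, hv hr⟩

theorem SNF.and {P Q : Rel.{u}} (hP : SNF P) (hQ : SNF Q) :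
    SNF (fun N _ e E => P N e E ∧ Q N e E) := by
  obtain ⟨ψ, δ, h1, h2, h3, h4⟩ := hP
  obtain ⟨ψ', δ', h1', h2', h3', h4'⟩ := hQ
  refine ⟨fun N _ e F =>
      (∀ n', e 0 = pr n' 0 → ψ N (cons n' (tail e)) (cons (col (F 0) 0) (tail F))) ∧
      (∀ n', e 0 = pr n' 1 → ψ' N (cons n' (tail e)) (cons (col (F 0) 1) (tail F))),
    fun N _ e E => (∃ z', e 0 = pr z' 0 ∧ δ N (cons z' (tail e)) E) ∨
      (∃ z', e 0 = pr z' 1 ∧ δ' N (cons z' (tail e)) E), ?_, ?_, ?_, ?_⟩
  · refine UA.and (UA.all (P := fun N _ e F n' => e 0 = pr n' 0 →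
      ψ N (cons n' (tail e)) (cons (col (F 0) 0) (tail F))) ?_)
      (UA.all (P := fun N _ e F n' => e 0 = pr n' 1 →
      ψ' N (cons n' (tail e)) (cons (col (F 0) 1) (tail F))) ?_)
    · refine UA.imp (UA.eq (UT.var 1) ((UT.var 0).pr UT.zero)) ?_
      exact h1.comp (UTs.cons (UT.var 0) UTs.id.tl.tl)
        (USs.cons ((US.var 0).colm UT.zero) USs.id.tl)
    · refine UA.imp (UA.eq (UT.var 1) ((UT.var 0).pr UT.one)) ?_
      exact h1'.comp (UTs.cons (UT.var 0) UTs.id.tl.tl)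
        (USs.cons ((US.var 0).colm UT.one) USs.id.tl)
  · intro N _ e F
    refine ContAt.and ?_ ?_
    · exact ContAt.unique (fun i j hi hj => (pr_inj (hi.symm.trans hj)).1)
        (fun i => ContAt.col _ (h2 N _ _))
    · exact ContAt.unique (fun i j hi hj => (pr_inj (hi.symm.trans hj)).1)
        (fun i => ContAt.col _ (h2' N _ _))
  · refine UA.or (UA.ex (P := fun N _ e E z' => e 0 = pr z' 0 ∧ δ N (cons z' (tail e)) E) ?_)
      (UA.ex (P := fun N _ e E z' => e 0 = pr z' 1 ∧ δ' N (cons z' (tail e)) E) ?_)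
    · refine UA.and (UA.eq (UT.var 1) ((UT.var 0).pr UT.zero)) ?_
      exact h3.comp (UTs.cons (UT.var 0) UTs.id.tl.tl) USs.id
    · refine UA.and (UA.eq (UT.var 1) ((UT.var 0).pr UT.one)) ?_
      exact h3'.comp (UTs.cons (UT.var 0) UTs.id.tl.tl) USs.id
  · intro N _ e E
    have h01 : (0 : N.M) ≠ 1 := zero_ne_one
    constructor
    · rintro ⟨hP, hQ⟩ n
      have c0 : col {z | (∃ z', z = pr z' 0 ∧ δ N (cons z' e) E) ∨
          (∃ z', z = pr z' 1 ∧ δ' N (cons z' e) E)} 0 = {z | δ N (cons z e) E} := by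
        ext z
        simp only [mem_col, Set.mem_ofPred_eq]
        constructor
        · rintro (⟨z', h, h'⟩ | ⟨z', h, h'⟩)
          · rw [(pr_inj h).1]; exact h'
          · exact absurd (pr_inj h).2 h01
        · intro h; exact Or.inl ⟨z, rfl, h⟩
      have c1 : col {z | (∃ z', z = pr z' 0 ∧ δ N (cons z' e) E) ∨
          (∃ z', z = pr z' 1 ∧ δ' N (cons z' e) E)} 1 = {z | δ' N (cons z e) E} := by
        ext z
        simp only [mem_col, Set.mem_ofPred_eq]
        constructor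
        · rintro (⟨z', h, h'⟩ | ⟨z', h, h'⟩)
          · exact absurd (pr_inj h).2.symm h01
          · rw [(pr_inj h).1]; exact h'
        · intro h; exact Or.inr ⟨z, rfl, h⟩
      by_cases hn0 : ∃ n', n = pr n' 0
      · obtain ⟨n', rfl⟩ := hn0
        obtain ⟨v, hv⟩ := (h4 N e E).1 hP n'
        refine ⟨v, fun n'' h => ?_, fun n'' h => absurd (pr_inj h).2 h01⟩
        rw [← (pr_inj h).1]
        show ψ N (cons n' (cons v e)) (cons (col {z | _} 0) E)
        erw [c0]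
        exact hv
      · by_cases hn1 : ∃ n', n = pr n' 1
        · obtain ⟨n', rfl⟩ := hn1
          obtain ⟨v, hv⟩ := (h4' N e E).1 hQ n'
          refine ⟨v, fun n'' h => absurd (pr_inj h).2.symm h01, fun n'' h => ?_⟩
          rw [← (pr_inj h).1]
          show ψ' N (cons n' (cons v e)) (cons (col {z | _} 1) E)
          erw [c1]
          exact hv
        · exact ⟨0, fun n' h => absurd ⟨n', h⟩ hn0, fun n' h => absurd ⟨n', h⟩ hn1⟩
    · intro D h
      constructor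
      · refine (h4 N e E).2 (col D 0) fun n => ?_
        obtain ⟨v, hv⟩ := h (pr n 0)
        exact ⟨v, hv.1 n rfl⟩
      · refine (h4' N e E).2 (col D 1) fun n => ?_
        obtain ⟨v, hv⟩ := h (pr n 1)
        exact ⟨v, hv.2 n rfl⟩

theorem SNF.all {P : Rel.{u}} (hP : SNF P) :
    SNF (fun N _ e E => ∀ x, P N (cons x e) E) := by
  obtain ⟨ψ, δ, h1, h2, h3, h4⟩ := hP
  refine ⟨fun N _ e F => ∀ x n', e 0 = pr n' x →
      ψ N (cons n' (cons (e 1) (cons x (tail (tail e))))) (cons (col (F 0) x) (tail F)),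
    fun N _ e E => ∃ x z', e 0 = pr z' x ∧ δ N (cons z' (cons x (tail e))) E, ?_, ?_, ?_, ?_⟩
  · refine UA.all (P := fun N _ e F x => ∀ n', e 0 = pr n' x →
      ψ N (cons n' (cons (e 1) (cons x (tail (tail e))))) (cons (col (F 0) x) (tail F))) ?_
    refine UA.all (P := fun N _ e F n' => e 1 = pr n' (e 0) →
      ψ N (cons n' (cons (e 2) (cons (e 0) (tail (tail (tail e))))))
        (cons (col (F 0) (e 0)) (tail F))) ?_
    refine UA.imp (UA.eq (UT.var 2) ((UT.var 0).pr (UT.var 1))) ?_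
    exact h1.comp (UTs.cons (UT.var 0) (UTs.cons (UT.var 3) (UTs.cons (UT.var 1)
      UTs.id.tl.tl.tl.tl))) (USs.cons ((US.var 0).colm (UT.var 1)) USs.id.tl)
  · intro N _ e F
    exact ContAt.unique2 (fun i j i' j' h h' => by
      obtain ⟨h1, h2⟩ := pr_inj (h.symm.trans h'); exact ⟨h2, h1⟩)
      (fun i j => ContAt.col _ (h2 N _ _))
  · refine UA.ex (P := fun N _ e E x => ∃ z', e 0 = pr z' x ∧ δ N (cons z' (cons x (tail e))) E) ?_
    refine UA.ex (P := fun N _ e E z' => e 1 = pr z' (e 0) ∧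
      δ N (cons z' (cons (e 0) (tail (tail e)))) E) ?_
    refine UA.and (UA.eq (UT.var 2) ((UT.var 0).pr (UT.var 1))) ?_
    exact h3.comp (UTs.cons (UT.var 0) (UTs.cons (UT.var 1) UTs.id.tl.tl.tl)) USs.id
  · intro N _ e E
    constructor
    · intro h n
      have cc : ∀ x, col {z | ∃ x z', z = pr z' x ∧ δ N (cons z' (cons x e)) E} x =
          {z | δ N (cons z (cons x e)) E} := by
        intro x
        ext z
        simp only [mem_col, Set.mem_ofPred_eq]
        constructor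
        · rintro ⟨x', z', h, h'⟩
          obtain ⟨e1, e2⟩ := pr_inj h
          rw [e1, e2]; exact h'
        · intro h; exact ⟨x, z, rfl, h⟩
      by_cases hn : ∃ x n', n = pr n' x
      · obtain ⟨x, n', rfl⟩ := hn
        obtain ⟨v, hv⟩ := (h4 N (cons x e) E).1 (h x) n'
        refine ⟨v, fun x' n'' h => ?_⟩
        obtain ⟨e1, e2⟩ := pr_inj h
        rw [← e1, ← e2]
        show ψ N (cons n' (cons v (cons x e))) (cons (col {z | _} x) E)
        erw [cc]
        exact hv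
      · exact ⟨0, fun x n' h => absurd ⟨x, n', h⟩ hn⟩
    · intro D h x
      refine (h4 N (cons x e) E).2 (col D x) fun n => ?_
      obtain ⟨v, hv⟩ := h (pr n x)
      exact ⟨v, hv x n rfl⟩

theorem SNF.ex {P : Rel.{u}} (hU : UA P) (hP : SNF P) :
    SNF (fun N _ e E => ∃ x, P N (cons x e) E) := by
  obtain ⟨ψ, δ, h1, h2, h3, h4⟩ := hP
  refine ⟨fun N _ e F => (∀ n', e 0 = pr n' 0 → pr (e 1) 0 ∈ F 0) ∧
      (∀ x n', e 0 = pr n' (x + 1) → pr x 0 ∈ F 0 →
      ψ N (cons n' (cons (e 1) (cons x (tail (tail e))))) (cons (col (F 0) (x + 1)) (tail F))),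
    fun N _ e E => (∃ x, e 0 = pr x 0 ∧ P N (cons x (tail e)) E) ∨
      (∃ x z', e 0 = pr z' (x + 1) ∧ δ N (cons z' (cons x (tail e))) E), ?_, ?_, ?_, ?_⟩
  · refine UA.and ?_ ?_
    · refine UA.all (P := fun N _ e F n' => e 0 = pr n' 0 → pr (e 1) 0 ∈ F 0) ?_
      exact UA.imp (UA.eq (UT.var 1) ((UT.var 0).pr UT.zero))
        (UA.mem ((UT.var 2).pr UT.zero) (US.var 0))
    · refine UA.all (P := fun N _ e F x => ∀ n', e 0 = pr n' (x + 1) → pr x 0 ∈ F 0 →
        ψ N (cons n' (cons (e 1) (cons x (tail (tail e)))))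
          (cons (col (F 0) (x + 1)) (tail F))) ?_
      refine UA.all (P := fun N _ e F n' => e 1 = pr n' (e 0 + 1) → pr (e 0) 0 ∈ F 0 →
        ψ N (cons n' (cons (e 2) (cons (e 0) (tail (tail (tail e))))))
          (cons (col (F 0) (e 0 + 1)) (tail F))) ?_
      refine UA.imp (UA.eq (UT.var 2) ((UT.var 0).pr ((UT.var 1).add UT.one)))
        (UA.imp (UA.mem ((UT.var 1).pr UT.zero) (US.var 0)) ?_)
      exact h1.comp (UTs.cons (UT.var 0) (UTs.cons (UT.var 3) (UTs.cons (UT.var 1)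
        UTs.id.tl.tl.tl.tl))) (USs.cons ((US.var 0).colm ((UT.var 1).add UT.one)) USs.id.tl)
  · intro N _ e F
    refine ContAt.and ?_ ?_
    · exact ContAt.unique (fun i j hi hj => (pr_inj (hi.symm.trans hj)).1)
        (fun i => ContAt.mem _ 0 F)
    · exact ContAt.unique2 (fun i j i' j' h h' => by
        obtain ⟨h1, h2⟩ := pr_inj (h.symm.trans h'); exact ⟨add_one_inj' h2, h1⟩)
        (fun i j => ContAt.imp (ContAt.mem _ 0 F) (ContAt.col _ (h2 N _ _)))
  · refine UA.or ?_ ?_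
    · refine UA.ex (P := fun N _ e E x => e 0 = pr x 0 ∧ P N (cons x (tail e)) E) ?_
      refine UA.and (UA.eq (UT.var 1) ((UT.var 0).pr UT.zero)) ?_
      exact hU.comp (UTs.cons (UT.var 0) UTs.id.tl.tl) USs.id
    · refine UA.ex (P := fun N _ e E x => ∃ z', e 0 = pr z' (x + 1) ∧
        δ N (cons z' (cons x (tail e))) E) ?_
      refine UA.ex (P := fun N _ e E z' => e 1 = pr z' (e 0 + 1) ∧
        δ N (cons z' (cons (e 0) (tail (tail e)))) E) ?_
      refine UA.and (UA.eq (UT.var 2) ((UT.var 0).pr ((UT.var 1).add UT.one))) ?_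
      exact h3.comp (UTs.cons (UT.var 0) (UTs.cons (UT.var 1) UTs.id.tl.tl.tl)) USs.id
  · intro N _ e E
    have hne : ∀ x : N.M, x + 1 ≠ 0 := fun x => succ_ne_zero' x
    constructor
    · rintro ⟨a, ha⟩ n
      have c0 : ∀ x, (pr x 0 ∈ {z | (∃ x, z = pr x 0 ∧ P N (cons x e) E) ∨
          (∃ x z', z = pr z' (x + 1) ∧ δ N (cons z' (cons x e)) E)}) ↔ P N (cons x e) E := by
        intro x
        simp only [Set.mem_ofPred_eq]
        constructor
        · rintro (⟨z', h, h'⟩ | ⟨x', z', h, h'⟩)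
          · rw [(pr_inj h).1]; exact h'
          · exact absurd (pr_inj h).2.symm (hne _)
        · intro h; exact Or.inl ⟨x, rfl, h⟩
      have cc : ∀ x, col {z | (∃ x, z = pr x 0 ∧ P N (cons x e) E) ∨
          (∃ x z', z = pr z' (x + 1) ∧ δ N (cons z' (cons x e)) E)} (x + 1) =
          {z | δ N (cons z (cons x e)) E} := by
        intro x
        ext z
        simp only [mem_col, Set.mem_ofPred_eq]
        constructor
        · rintro (⟨z', h, h'⟩ | ⟨x', z', h, h'⟩)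
          · exact absurd (pr_inj h).2 (hne _)
          · obtain ⟨e1, e2⟩ := pr_inj h
            rw [e1, add_one_inj' e2]; exact h'
        · intro h; exact Or.inr ⟨x, z, rfl, h⟩
      by_cases hn0 : ∃ n', n = pr n' 0
      · obtain ⟨n', rfl⟩ := hn0
        refine ⟨a, fun n'' h => ?_, fun x n'' h => absurd (pr_inj h).2.symm (hne _)⟩
        exact (c0 a).2 ha
      · by_cases hn : ∃ x n', n = pr n' (x + 1)
        · obtain ⟨x, n', rfl⟩ := hn
          by_cases hx : P N (cons x e) E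
          · obtain ⟨v, hv⟩ := (h4 N (cons x e) E).1 hx n'
            refine ⟨v, fun n'' h => absurd (pr_inj h).2 (hne _), fun x' n'' h _ => ?_⟩
            obtain ⟨e1, e2⟩ := pr_inj h
            rw [← e1, ← add_one_inj' e2]
            show ψ N (cons n' (cons v (cons x e))) (cons (col {z | _} (x + 1)) E)
            erw [cc]
            exact hv
          · refine ⟨0, fun n'' h => absurd (pr_inj h).2 (hne _), fun x' n'' h hx' => ?_⟩
            obtain ⟨e1, e2⟩ := pr_inj h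
            rw [← add_one_inj' e2] at hx'
            exact absurd ((c0 x).1 hx') hx
        · exact ⟨0, fun n' h => absurd ⟨n', h⟩ hn0, fun x n' h => absurd ⟨x, n', h⟩ hn⟩
    · intro D h
      obtain ⟨x, hx⟩ := h (pr 0 0)
      have hx0 := hx.1 0 rfl
      refine ⟨x, (h4 N (cons x e) E).2 (col D (x + 1)) fun n => ?_⟩
      obtain ⟨v, hv⟩ := h (pr n (x + 1))
      exact ⟨v, hv.2 x n rfl hx0⟩

theorem SNF.or {P Q : Rel.{u}} (hUP : UA P) (hUQ : UA Q) (hP : SNF P) (hQ : SNF Q) :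
    SNF (fun N _ e E => P N e E ∨ Q N e E) := by
  have hc : ∀ (N : L2Structure.{u}) [IsModelRCA0 N] (e : Ctx N) (F : SC N),
      ContAt (fun _ : SC N => e 0 = 0) F := fun N _ e F => ContAt.const _ _
  have h := SNF.ex (P := fun N _ e E => (e 0 = 0 → P N (tail e) E) ∧
      (¬ e 0 = 0 → Q N (tail e) E))
    (UA.and (UA.imp (UA.eq (UT.var 0) UT.zero) hUP.tl)
      (UA.imp (UA.eq (UT.var 0) UT.zero).not hUQ.tl))
    (SNF.and
      (SNF.guard (R := fun N _ e E => e 0 = 0) (UA.eq (UT.var 0) UT.zero)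
        (fun N _ e F => ContAt.const _ _) (hP.sub UTs.id.tl))
      (SNF.guard (R := fun N _ e E => ¬ e 0 = 0) (UA.eq (UT.var 0) UT.zero).not
        (fun N _ e F => ContAt.const _ _) (hQ.sub UTs.id.tl)))
  refine h.congr fun N _ e E => ?_
  constructor
  · rintro ⟨x, h1, h2⟩
    by_cases hx : x = 0
    · exact Or.inl (h1 hx)
    · exact Or.inr (h2 hx)
  · rintro (h | h)
    · exact ⟨0, fun _ => h, fun h' => absurd rfl h'⟩
    · exact ⟨1, fun h' => absurd h' (by
        show (1 : N.M) ≠ 0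
        exact one_ne_zero), fun _ => h⟩

theorem snf_fml (φ : Fml) (h : φ.Arith) :
    SNF.{u} (fun N _ e E => Sat N φ e E) ∧ SNF.{u} (fun N _ e E => ¬ Sat N φ e E) := by
  induction φ with
  | eq s t =>
    have hu : UA.{u} (fun N _ e E => Sat N (.eq s t) e E) := ⟨_, h, fun _ _ _ _ => Iff.rfl⟩
    exact ⟨.base hu fun N _ e F => ContAt.const _ _,
      .base hu.not fun N _ e F => ContAt.not (ContAt.const _ _)⟩
  | lt s t =>
    have hu : UA.{u} (fun N _ e E => Sat N (.lt s t) e E) := ⟨_, h, fun _ _ _ _ => Iff.rfl⟩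
    exact ⟨.base hu fun N _ e F => ContAt.const _ _,
      .base hu.not fun N _ e F => ContAt.not (ContAt.const _ _)⟩
  | mem t i =>
    have hu : UA.{u} (fun N _ e E => Sat N (.mem t i) e E) := ⟨_, h, fun _ _ _ _ => Iff.rfl⟩
    exact ⟨.base hu fun N _ e F => ContAt.mem _ i F,
      .base hu.not fun N _ e F => (ContAt.mem _ i F).not⟩
  | neg φ ih =>
    obtain ⟨h1, h2⟩ := ih h
    exact ⟨h2, h1.congr fun N _ e E => by simp [Sat]⟩
  | and φ ψ ih1 ih2 =>
    obtain ⟨h1, h2⟩ := ih1 h.1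
    obtain ⟨h3, h4⟩ := ih2 h.2
    refine ⟨h1.and h3, (SNF.or ?_ ?_ h2 h4).congr fun N _ e E => by simp only [Sat]; tauto⟩
    · exact UA.not ⟨_, h.1, fun _ _ _ _ => Iff.rfl⟩
    · exact UA.not ⟨_, h.2, fun _ _ _ _ => Iff.rfl⟩
  | all φ ih =>
    obtain ⟨h1, h2⟩ := ih h
    refine ⟨h1.all, (SNF.ex ?_ h2).congr fun N _ e E => by simp [Sat]⟩
    exact UA.not (P := fun N _ e E => Sat N φ e E) ⟨φ, h, fun _ _ _ _ => Iff.rfl⟩
  | allSet φ ih => exact absurd h id

theorem UA.snf {P : Rel.{u}} (h : UA P) : SNF P := by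
  obtain ⟨φ, h1, h2⟩ := h
  exact (snf_fml φ h1).1.congr h2

end Pool.Agent.Helper60.RR
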