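import Mathlib
import Pool.Agent.Helper60.RR.SNF

namespace Pool.Agent.Helper60.RR

open Pool.Agent.Helper617 Pool.Agent.Helper617.RM

universe u

set_option linter.unusedSectionVars false
set_option linter.unusedVariables false

/-! ### finitely many operations that generate arithmetical comprehension -/

def Op (N : L2Structure.{u}) [IsModelRCA0 N] (i : ℕ) (X Y : Set N.M) (p : N.M) : Set N.M :=
  match i with
  | 0 => {x | x ∈ X ∧ x ∉ Y}
  | 1 => {x | ∃ a, pr a x ∈ X}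
  | 2 => {x | ∃ a y, x = pr a y ∧ y ∈ X}
  | 3 => {x | ∃ z y, x = pr z (pr z y) ∧ y ∈ X}
  | 4 => {x | ∃ z a y, x = pr z (pr a y) ∧ pr z y ∈ X}
  | 5 => {x | ∃ a b y, x = pr (a + b) y ∧ (pr a y ∈ X ∧ pr b y ∈ Y)}
  | 6 => {x | ∃ a b y, x = pr (a * b) y ∧ (pr a y ∈ X ∧ pr b y ∈ Y)}
  | 7 => {x | ∃ z, pr z x ∈ X ∧ pr z x ∈ Y}
  | 8 => {x | ∃ a b, pr a x ∈ X ∧ (pr b x ∈ Y ∧ a < b)}
  | 9 => {x | ∃ z, pr z x ∈ X ∧ z ∈ Y}
  | 10 => {x | pr x 0 ∈ X}
  | 11 => {x | x = 0}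
  | 12 => {x | ∃ y, x = pr p y ∧ y ∈ X}
  | _ => X

theorem US.op (i : ℕ) {S S' : SRel.{u}} {t : TRel.{u}} (hS : US S) (hS' : US S') (ht : UT t) :
    US (fun N _ e E => Op N i (S N e E) (S' N e E) (t N e)) := by
  have key : US (fun N _ e E => Op N i (E 0) (E 1) (e 0)) := by
    unfold Op
    split
    · exact US.of (P := fun N _ e E x => x ∈ E 0 ∧ x ∉ E 1)
        (UA.and (UA.memV (UT.var 0) 0) (UA.memV (UT.var 0) 1).not)
    · exact US.of (P := fun N _ e E x => ∃ a, pr a x ∈ E 0)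
        (UA.ex (P := fun N _ e E a => pr a (e 0) ∈ E 0) (UA.memV ((UT.var 0).pr (UT.var 1)) 0))
    · refine US.of (P := fun N _ e E x => ∃ a y, x = pr a y ∧ y ∈ E 0) ?_
      refine UA.ex (P := fun N _ e E a => ∃ y, e 0 = pr a y ∧ y ∈ E 0) ?_
      refine UA.ex (P := fun N _ e E y => e 1 = pr (e 0) y ∧ y ∈ E 0) ?_
      exact UA.and (UA.eq (UT.var 2) ((UT.var 1).pr (UT.var 0))) (UA.memV (UT.var 0) 0)
    · refine US.of (P := fun N _ e E x => ∃ z y, x = pr z (pr z y) ∧ y ∈ E 0) ?_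
      refine UA.ex (P := fun N _ e E z => ∃ y, e 0 = pr z (pr z y) ∧ y ∈ E 0) ?_
      refine UA.ex (P := fun N _ e E y => e 1 = pr (e 0) (pr (e 0) y) ∧ y ∈ E 0) ?_
      exact UA.and (UA.eq (UT.var 2) ((UT.var 1).pr ((UT.var 1).pr (UT.var 0))))
        (UA.memV (UT.var 0) 0)
    · refine US.of (P := fun N _ e E x => ∃ z a y, x = pr z (pr a y) ∧ pr z y ∈ E 0) ?_
      refine UA.ex (P := fun N _ e E z => ∃ a y, e 0 = pr z (pr a y) ∧ pr z y ∈ E 0) ?_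
      refine UA.ex (P := fun N _ e E a => ∃ y, e 1 = pr (e 0) (pr a y) ∧ pr (e 0) y ∈ E 0) ?_
      refine UA.ex (P := fun N _ e E y => e 2 = pr (e 1) (pr (e 0) y) ∧ pr (e 1) y ∈ E 0) ?_
      exact UA.and (UA.eq (UT.var 3) ((UT.var 2).pr ((UT.var 1).pr (UT.var 0))))
        (UA.memV ((UT.var 2).pr (UT.var 0)) 0)
    · refine US.of (P := fun N _ e E x => ∃ a b y, x = pr (a + b) y ∧
        (pr a y ∈ E 0 ∧ pr b y ∈ E 1)) ?_
      refine UA.ex (P := fun N _ e E a => ∃ b y, e 0 = pr (a + b) y ∧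
        (pr a y ∈ E 0 ∧ pr b y ∈ E 1)) ?_
      refine UA.ex (P := fun N _ e E b => ∃ y, e 1 = pr (e 0 + b) y ∧
        (pr (e 0) y ∈ E 0 ∧ pr b y ∈ E 1)) ?_
      refine UA.ex (P := fun N _ e E y => e 2 = pr (e 1 + e 0) y ∧
        (pr (e 1) y ∈ E 0 ∧ pr (e 0) y ∈ E 1)) ?_
      exact UA.and (UA.eq (UT.var 3) (((UT.var 2).add (UT.var 1)).pr (UT.var 0)))
        (UA.and (UA.memV ((UT.var 2).pr (UT.var 0)) 0) (UA.memV ((UT.var 1).pr (UT.var 0)) 1))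
    · refine US.of (P := fun N _ e E x => ∃ a b y, x = pr (a * b) y ∧
        (pr a y ∈ E 0 ∧ pr b y ∈ E 1)) ?_
      refine UA.ex (P := fun N _ e E a => ∃ b y, e 0 = pr (a * b) y ∧
        (pr a y ∈ E 0 ∧ pr b y ∈ E 1)) ?_
      refine UA.ex (P := fun N _ e E b => ∃ y, e 1 = pr (e 0 * b) y ∧
        (pr (e 0) y ∈ E 0 ∧ pr b y ∈ E 1)) ?_
      refine UA.ex (P := fun N _ e E y => e 2 = pr (e 1 * e 0) y ∧
        (pr (e 1) y ∈ E 0 ∧ pr (e 0) y ∈ E 1)) ?_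
      exact UA.and (UA.eq (UT.var 3) (((UT.var 2).mul (UT.var 1)).pr (UT.var 0)))
        (UA.and (UA.memV ((UT.var 2).pr (UT.var 0)) 0) (UA.memV ((UT.var 1).pr (UT.var 0)) 1))
    · refine US.of (P := fun N _ e E x => ∃ z, pr z x ∈ E 0 ∧ pr z x ∈ E 1) ?_
      refine UA.ex (P := fun N _ e E z => pr z (e 0) ∈ E 0 ∧ pr z (e 0) ∈ E 1) ?_
      exact UA.and (UA.memV ((UT.var 0).pr (UT.var 1)) 0) (UA.memV ((UT.var 0).pr (UT.var 1)) 1)
    · refine US.of (P := fun N _ e E x => ∃ a b, pr a x ∈ E 0 ∧ (pr b x ∈ E 1 ∧ a < b)) ?_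
      refine UA.ex (P := fun N _ e E a => ∃ b, pr a (e 0) ∈ E 0 ∧ (pr b (e 0) ∈ E 1 ∧ a < b)) ?_
      refine UA.ex (P := fun N _ e E b => pr (e 0) (e 1) ∈ E 0 ∧
        (pr b (e 1) ∈ E 1 ∧ e 0 < b)) ?_
      exact UA.and (UA.memV ((UT.var 1).pr (UT.var 2)) 0)
        (UA.and (UA.memV ((UT.var 0).pr (UT.var 2)) 1) (UA.lt (UT.var 1) (UT.var 0)))
    · refine US.of (P := fun N _ e E x => ∃ z, pr z x ∈ E 0 ∧ z ∈ E 1) ?_
      refine UA.ex (P := fun N _ e E z => pr z (e 0) ∈ E 0 ∧ z ∈ E 1) ?_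
      exact UA.and (UA.memV ((UT.var 0).pr (UT.var 1)) 0) (UA.memV (UT.var 0) 1)
    · exact US.of (P := fun N _ e E x => pr x 0 ∈ E 0) (UA.memV ((UT.var 0).pr UT.zero) 0)
    · exact US.of (P := fun N _ e E x => x = 0) (UA.eq (UT.var 0) UT.zero)
    · refine US.of (P := fun N _ e E x => ∃ y, x = pr (e 0) y ∧ y ∈ E 0) ?_
      refine UA.ex (P := fun N _ e E y => e 0 = pr (e 1) y ∧ y ∈ E 0) ?_
      exact UA.and (UA.eq (UT.var 1) ((UT.var 2).pr (UT.var 0))) (UA.memV (UT.var 0) 0)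
    · exact US.var 0
  have h2 := UA.comp key (g := fun N _ e => cons (e 0) (cons (t N (tail e)) (tail e)))
    (UTs.cons (UT.var 0) (UTs.cons ht.tl UTs.id.tl))
    (S := fun N _ e E => cons (S N (tail e) E) (cons (S' N (tail e) E) E))
    (USs.cons hS.shift (USs.cons hS'.shift USs.id))
  exact h2

section godel

variable {N : L2Structure.{u}} [IsModelRCA0 N] {I : Type*}

/-- a class of families of sets which is closed under the pointwise operations -/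
structure OpClosed (J : Set (I → Set N.M)) : Prop where
  op : ∀ i, ∀ F ∈ J, ∀ G ∈ J, ∀ p : I → N.M, (fun ι => Op N i (F ι) (G ι) (p ι)) ∈ J
  nonempty : ∃ F, F ∈ J

/-- `x` codes the context `w` over the context `e`; the first `k` entries are coded -/
def Dec : ℕ → N.M → Ctx N → Ctx N → Prop
  | 0, x, w, e => x = 0 ∧ w = e
  | k + 1, x, w, e => ∃ a y w', x = pr a y ∧ w = cons a w' ∧ Dec k y w' e

theorem Dec.unique {k : ℕ} : ∀ {x : N.M} {w w' e : Ctx N}, Dec k x w e → Dec k x w' e → w = w' := by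
  induction k with
  | zero => rintro x w w' e ⟨_, rfl⟩ ⟨_, rfl⟩; rfl
  | succ k ih =>
    rintro x w w' e ⟨a, y, v, h1, rfl, h2⟩ ⟨a', y', v', h1', rfl, h2'⟩
    obtain ⟨rfl, rfl⟩ := pr_inj (h1.symm.trans h1')
    rw [ih h2 h2']

variable {J : Set (I → Set N.M)}

theorem OpClosed.full (hJ : OpClosed J) (k : ℕ) (e : I → Ctx N) :
    (fun ι => {x | ∃ w, Dec k x w (e ι)}) ∈ J := by
  induction k with
  | zero =>
    obtain ⟨F, hF⟩ := hJ.nonempty
    convert hJ.op 11 F hF F hF (fun _ => 0) using 1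
    funext ι
    ext x
    simp [Dec, Op]
  | succ k ih =>
    convert hJ.op 2 _ ih _ ih (fun _ => 0) using 1
    funext ι
    ext x
    simp only [Dec, Op, Set.mem_ofPred_eq]
    constructor
    · rintro ⟨w, a, y, w', h1, h2, h3⟩; exact ⟨a, y, h1, w', h3⟩
    · rintro ⟨a, y, h1, w', h3⟩; exact ⟨_, a, y, w', h1, rfl, h3⟩

theorem OpClosed.term (hJ : OpClosed J) (t : NTerm) : ∀ (k : ℕ) (e : I → Ctx N),
    (fun ι => {x | ∃ z y w, x = pr z y ∧ Dec k y w (e ι) ∧ z = t.val N w}) ∈ J := by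
  induction t with
  | var i =>
    induction i with
    | zero =>
      intro k e
      cases k with
      | zero =>
        convert hJ.op 12 _ (hJ.full 0 e) _ (hJ.full 0 e) (fun ι => e ι 0) using 1
        funext ι
        ext x
        simp only [Dec, Op, Set.mem_ofPred_eq, NTerm.val]
        constructor
        · rintro ⟨z, y, w, h1, ⟨h2, h3⟩, h4⟩
          exact ⟨y, by rw [h1, h4, h3], w, h2, h3⟩
        · rintro ⟨y, h1, w, h2, h3⟩
          exact ⟨_, y, w, h1, ⟨h2, h3⟩, by rw [h3]⟩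
      | succ k =>
        convert hJ.op 3 _ (hJ.full k e) _ (hJ.full k e) (fun ι => 0) using 1
        funext ι
        ext x
        simp only [Dec, Op, Set.mem_ofPred_eq, NTerm.val]
        constructor
        · rintro ⟨z, y, w, h1, ⟨a, y', w', h2, h3, h4⟩, h5⟩
          refine ⟨z, y', ?_, w', h4⟩
          rw [h1, h2, h5, h3]
          rfl
        · rintro ⟨z, y, h1, w, h2⟩
          exact ⟨z, _, cons z w, h1, ⟨z, y, w, rfl, rfl, h2⟩, rfl⟩
    | succ i ih =>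
      intro k e
      cases k with
      | zero =>
        convert hJ.op 12 _ (hJ.full 0 e) _ (hJ.full 0 e) (fun ι => e ι (i + 1)) using 1
        funext ι
        ext x
        simp only [Dec, Op, Set.mem_ofPred_eq, NTerm.val]
        constructor
        · rintro ⟨z, y, w, h1, ⟨h2, h3⟩, h4⟩
          exact ⟨y, by rw [h1, h4, h3], w, h2, h3⟩
        · rintro ⟨y, h1, w, h2, h3⟩
          exact ⟨_, y, w, h1, ⟨h2, h3⟩, by rw [h3]⟩
      | succ k =>
        convert hJ.op 4 _ (ih k e) _ (ih k e) (fun ι => 0) using 1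
        funext ι
        ext x
        simp only [Dec, Op, Set.mem_ofPred_eq, NTerm.val]
        constructor
        · rintro ⟨z, y, w, h1, ⟨a, y', w', h2, h3, h4⟩, h5⟩
          refine ⟨z, a, y', by rw [h1, h2], z, y', w', rfl, h4, ?_⟩
          rw [h5, h3]
          rfl
        · rintro ⟨z, a, y, h1, z', y', w, h2, h3, h4⟩
          obtain ⟨rfl, rfl⟩ := pr_inj h2
          exact ⟨z, _, cons a w, h1, ⟨a, y, w, rfl, rfl, h3⟩, h4⟩
  | zero =>
    intro k e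
    convert hJ.op 12 _ (hJ.full k e) _ (hJ.full k e) (fun ι => 0) using 1
    funext ι
    ext x
    simp only [Op, Set.mem_ofPred_eq, NTerm.val]
    constructor
    · rintro ⟨z, y, w, h1, h2, h3⟩
      exact ⟨y, by rw [h1, h3]; rfl, w, h2⟩
    · rintro ⟨y, h1, w, h2⟩
      exact ⟨_, y, w, h1, h2, rfl⟩
  | one =>
    intro k e
    convert hJ.op 12 _ (hJ.full k e) _ (hJ.full k e) (fun ι => 1) using 1
    funext ι
    ext x
    simp only [Op, Set.mem_ofPred_eq, NTerm.val]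
    constructor
    · rintro ⟨z, y, w, h1, h2, h3⟩
      exact ⟨y, by rw [h1, h3]; rfl, w, h2⟩
    · rintro ⟨y, h1, w, h2⟩
      exact ⟨_, y, w, h1, h2, rfl⟩
  | add s t hs ht =>
    intro k e
    convert hJ.op 5 _ (hs k e) _ (ht k e) (fun ι => 0) using 1
    funext ι
    ext x
    simp only [Op, Set.mem_ofPred_eq, NTerm.val]
    constructor
    · rintro ⟨z, y, w, h1, h2, h3⟩
      exact ⟨s.val N w, t.val N w, y, by rw [h1, h3]; rfl, ⟨_, y, w, rfl, h2, rfl⟩,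
        ⟨_, y, w, rfl, h2, rfl⟩⟩
    · rintro ⟨a, b, y, h1, ⟨z, y', w, h2, h3, h4⟩, ⟨z', y'', w', h5, h6, h7⟩⟩
      obtain ⟨rfl, rfl⟩ := pr_inj h2
      obtain ⟨rfl, rfl⟩ := pr_inj h5
      obtain rfl := h3.unique h6
      exact ⟨_, y, w, h1, h3, by rw [h4, h7]; rfl⟩
  | mul s t hs ht =>
    intro k e
    convert hJ.op 6 _ (hs k e) _ (ht k e) (fun ι => 0) using 1
    funext ι
    ext x
    simp only [Op, Set.mem_ofPred_eq, NTerm.val]
    constructor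
    · rintro ⟨z, y, w, h1, h2, h3⟩
      exact ⟨s.val N w, t.val N w, y, by rw [h1, h3]; rfl, ⟨_, y, w, rfl, h2, rfl⟩,
        ⟨_, y, w, rfl, h2, rfl⟩⟩
    · rintro ⟨a, b, y, h1, ⟨z, y', w, h2, h3, h4⟩, ⟨z', y'', w', h5, h6, h7⟩⟩
      obtain ⟨rfl, rfl⟩ := pr_inj h2
      obtain ⟨rfl, rfl⟩ := pr_inj h5
      obtain rfl := h3.unique h6
      exact ⟨_, y, w, h1, h3, by rw [h4, h7]; rfl⟩

theorem OpClosed.fml (hJ : OpClosed J) (φ : Fml) : φ.Arith → ∀ (k : ℕ) (e : I → Ctx N)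
    (E : ℕ → I → Set N.M), (∀ j, E j ∈ J) →
    (fun ι => {x | ∃ w, Dec k x w (e ι) ∧ Sat N φ w (fun j => E j ι)}) ∈ J := by
  induction φ with
  | eq s t =>
    intro _ k e E hE
    convert hJ.op 7 _ (hJ.term s k e) _ (hJ.term t k e) (fun ι => 0) using 1
    funext ι
    ext x
    simp only [Op, Set.mem_ofPred_eq, Sat]
    constructor
    · rintro ⟨w, h1, h2⟩
      exact ⟨s.val N w, ⟨_, x, w, rfl, h1, rfl⟩, ⟨_, x, w, rfl, h1, h2⟩⟩
    · rintro ⟨z, ⟨z1, y, w, h1, h2, h3⟩, ⟨z2, y', w', h4, h5, h6⟩⟩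
      obtain ⟨rfl, rfl⟩ := pr_inj h1
      obtain ⟨rfl, rfl⟩ := pr_inj h4
      obtain rfl := h2.unique h5
      exact ⟨w, h2, h3.symm.trans h6⟩
  | lt s t =>
    intro _ k e E hE
    convert hJ.op 8 _ (hJ.term s k e) _ (hJ.term t k e) (fun ι => 0) using 1
    funext ι
    ext x
    simp only [Op, Set.mem_ofPred_eq, Sat]
    constructor
    · rintro ⟨w, h1, h2⟩
      exact ⟨s.val N w, t.val N w, ⟨_, x, w, rfl, h1, rfl⟩, ⟨_, x, w, rfl, h1, rfl⟩, h2⟩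
    · rintro ⟨a, b, ⟨z1, y, w, h1, h2, h3⟩, ⟨z2, y', w', h4, h5, h6⟩, h7⟩
      obtain ⟨rfl, rfl⟩ := pr_inj h1
      obtain ⟨rfl, rfl⟩ := pr_inj h4
      obtain rfl := h2.unique h5
      refine ⟨w, h2, ?_⟩
      rw [← h3, ← h6]
      exact h7
  | mem t i =>
    intro _ k e E hE
    convert hJ.op 9 _ (hJ.term t k e) _ (hE i) (fun ι => 0) using 1
    funext ι
    ext x
    simp only [Op, Set.mem_ofPred_eq, Sat]
    constructor
    · rintro ⟨w, h1, h2⟩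
      exact ⟨t.val N w, ⟨_, x, w, rfl, h1, rfl⟩, h2⟩
    · rintro ⟨z, ⟨z1, y, w, h1, h2, h3⟩, h4⟩
      obtain ⟨rfl, rfl⟩ := pr_inj h1
      exact ⟨w, h2, h3 ▸ h4⟩
  | neg φ ih =>
    intro h k e E hE
    convert hJ.op 0 _ (hJ.full k e) _ (ih h k e E hE) (fun ι => 0) using 1
    funext ι
    ext x
    simp only [Op, Set.mem_ofPred_eq, Sat]
    constructor
    · rintro ⟨w, h1, h2⟩
      refine ⟨⟨w, h1⟩, ?_⟩
      rintro ⟨w', h3, h4⟩
      obtain rfl := h1.unique h3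
      exact h2 h4
    · rintro ⟨⟨w, h1⟩, h2⟩
      exact ⟨w, h1, fun h3 => h2 ⟨w, h1, h3⟩⟩
  | and φ ψ ih1 ih2 =>
    intro h k e E hE
    have h1 := ih1 h.1 k e E hE
    have h2 := ih2 h.2 k e E hE
    have h3 := hJ.op 0 _ h1 _ h2 (fun ι => 0)
    convert hJ.op 0 _ h1 _ h3 (fun ι => 0) using 1
    funext ι
    ext x
    simp only [Op, Set.mem_ofPred_eq, Sat]
    constructor
    · rintro ⟨w, h1, h2, h3⟩
      exact ⟨⟨w, h1, h2⟩, fun h => h.2 ⟨w, h1, h3⟩⟩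
    · rintro ⟨⟨w, h1, h2⟩, h3⟩
      by_contra hcon
      refine h3 ⟨⟨w, h1, h2⟩, ?_⟩
      rintro ⟨w', h4, h5⟩
      obtain rfl := h1.unique h4
      exact hcon ⟨w, h1, h2, h5⟩
  | all φ ih =>
    intro h k e E hE
    have h1 := ih h (k + 1) e E hE
    have h2 := hJ.op 0 _ (hJ.full (k + 1) e) _ h1 (fun ι => 0)
    have h3 := hJ.op 1 _ h2 _ h2 (fun ι => 0)
    convert hJ.op 0 _ (hJ.full k e) _ h3 (fun ι => 0) using 1
    funext ι
    ext x
    simp only [Op, Set.mem_ofPred_eq, Sat, Dec]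
    constructor
    · rintro ⟨w, h1, h2⟩
      refine ⟨⟨w, h1⟩, ?_⟩
      rintro ⟨a, _, h3⟩
      exact h3 ⟨cons a w, ⟨a, x, w, rfl, rfl, h1⟩, h2 a⟩
    · rintro ⟨⟨w, h1⟩, h2⟩
      refine ⟨w, h1, fun a => ?_⟩
      by_contra hcon
      refine h2 ⟨a, ⟨cons a w, a, x, w, rfl, rfl, h1⟩, ?_⟩
      rintro ⟨w', ⟨a', y', w'', h3, h4, h5⟩, h6⟩
      obtain ⟨rfl, rfl⟩ := pr_inj h3
      obtain rfl := h1.unique h5
      rw [h4] at h6
      exact hcon h6
  | allSet φ ih => intro h; exact absurd h id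

/-- a class of sets that is closed under the operations is closed under arithmetical
comprehension, uniformly -/
theorem OpClosed.comp (hJ : OpClosed J) {φ : Fml} (hφ : φ.Arith) (e : I → Ctx N)
    (E : ℕ → I → Set N.M) (hE : ∀ j, E j ∈ J) :
    (fun ι => {x | Sat N φ (cons x (e ι)) (fun j => E j ι)}) ∈ J := by
  convert hJ.op 10 _ (hJ.fml φ hφ 1 e E hE) _ (hJ.fml φ hφ 1 e E hE) (fun ι => 0) using 1
  funext ι
  ext x
  simp only [Op, Set.mem_ofPred_eq, Dec]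
  constructor
  · intro h
    exact ⟨cons x (e ι), ⟨x, 0, e ι, rfl, rfl, rfl, rfl⟩, h⟩
  · rintro ⟨w, ⟨a, y, w', h1, rfl, h2, rfl⟩, h3⟩
    obtain ⟨rfl, _⟩ := pr_inj h1
    exact h3

theorem OpClosed.compUA (hJ : OpClosed J) {P : Rel.{u}} (hP : UA P) (e : I → Ctx N)
    (E : ℕ → I → Set N.M) (hE : ∀ j, E j ∈ J) :
    (fun ι => {x | P N (cons x (e ι)) (fun j => E j ι)}) ∈ J := by
  obtain ⟨φ, h1, h2⟩ := hP
  convert hJ.comp h1 e E hE using 1
  funext ι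
  ext x
  exact (h2 N _ _).symm

end godel

end Pool.Agent.Helper60.RR
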