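import Mathlib
import Pool.Agent.Helper60.RR.Godel

namespace Pool.Agent.Helper60.RR

open Pool.Agent.Helper617 Pool.Agent.Helper617.RM

universe u

set_option linter.unusedSectionVars false
set_option linter.unusedVariables false

section defs

variable (N : L2Structure.{u}) [IsModelRCA0 N]

/-- `S` is a column of `V` -/
def Has (V S : Set N.M) : Prop := ∃ k, ∀ x, pr x k ∈ V ↔ x ∈ S

/-- all operations applied to columns of `U` are columns of `V` -/
def Ops (U V : Set N.M) : Prop :=
  ∀ i < 14, ∀ a b p, Has N V (Op N i (col U a) (col U b) p)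

def Step (U V : Set N.M) : Prop := Has N V U ∧ Ops N U V

/-- `Z` is a hierarchy over `Y` along the tree `T` -/
def Theta (T Y Z : Set N.M) : Prop :=
  ∀ s, s ∈ T → (Has N (col Z s) Y ∧
    ∀ j, pr s j + 1 ∈ T → Step N (col Z (pr s j + 1)) (col Z s))

/-- `W` codes a model that contains `A` and that is closed under the operations and under
`∀ Y ∃ Z Theta` -/
def Psi (A W : Set N.M) : Prop :=
  Has N W A ∧ (Ops N W W ∧ ∀ k, ∃ j, Theta N (col A 1) (col W k) (col W j))

end defs

theorem has_iff {N : L2Structure.{u}} [IsModelRCA0 N] {V S : Set N.M} :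
    Has N V S ↔ ∃ k, col V k = S := by
  unfold Has
  refine exists_congr fun k => ?_
  rw [Set.ext_iff]
  rfl

theorem UA.has {V S : SRel.{u}} (hV : US V) (hS : US S) :
    UA (fun N _ e E => Has N (V N e E) (S N e E)) := by
  refine UA.ex (P := fun N _ e E k => ∀ x, pr x k ∈ V N e E ↔ x ∈ S N e E) ?_
  refine UA.all (P := fun N _ e E x => pr x (e 0) ∈ V N (tail e) E ↔ x ∈ S N (tail e) E) ?_
  exact UA.iff (UA.mem ((UT.var 0).pr (UT.var 1)) hV.shift.shift)
    (UA.mem (UT.var 0) hS.shift.shift)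

theorem UA.ops {U V : SRel.{u}} (hU : US U) (hV : US V) :
    UA (fun N _ e E => Ops N (U N e E) (V N e E)) := by
  refine UA.ballNat 14 (P := fun i N _ e E => ∀ a b p, Has N (V N e E)
    (Op N i (RR.col (U N e E) a) (RR.col (U N e E) b) p)) fun i => ?_
  refine UA.all (P := fun N _ e E a => ∀ b p, Has N (V N e E)
    (Op N i (RR.col (U N e E) a) (RR.col (U N e E) b) p)) ?_
  refine UA.all (P := fun N _ e E b => ∀ p, Has N (V N (RM.tail e) E)
    (Op N i (RR.col (U N (RM.tail e) E) (e 0)) (RR.col (U N (RM.tail e) E) b) p)) ?_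
  refine UA.all (P := fun N _ e E p => Has N (V N (RM.tail (RM.tail e)) E)
    (Op N i (RR.col (U N (RM.tail (RM.tail e)) E) (e 1))
      (RR.col (U N (RM.tail (RM.tail e)) E) (e 0)) p)) ?_
  exact UA.has hV.shift.shift.shift (US.op i (hU.shift.shift.shift.colm (UT.var 2))
    (hU.shift.shift.shift.colm (UT.var 1)) (UT.var 0))

theorem UA.step {U V : SRel.{u}} (hU : US U) (hV : US V) :
    UA (fun N _ e E => Step N (U N e E) (V N e E)) :=
  UA.and (UA.has hV hU) (UA.ops hU hV)

theorem UA.theta {T Y Z : SRel.{u}} (hT : US T) (hY : US Y) (hZ : US Z) :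
    UA (fun N _ e E => Theta N (T N e E) (Y N e E) (Z N e E)) := by
  refine UA.all (P := fun N _ e E s => s ∈ T N e E → (Has N (RR.col (Z N e E) s) (Y N e E) ∧
    ∀ j, pr s j + 1 ∈ T N e E → Step N (RR.col (Z N e E) (pr s j + 1)) (RR.col (Z N e E) s))) ?_
  refine UA.imp (UA.mem (UT.var 0) hT.shift) (UA.and (UA.has (hZ.shift.colm (UT.var 0)) hY.shift) ?_)
  refine UA.all (P := fun N _ e E j => pr (e 0) j + 1 ∈ T N (RM.tail e) E →
    Step N (RR.col (Z N (RM.tail e) E) (pr (e 0) j + 1)) (RR.col (Z N (RM.tail e) E) (e 0))) ?_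
  exact UA.imp (UA.mem (((UT.var 1).pr (UT.var 0)).add UT.one) hT.shift.shift)
    (UA.step (hZ.shift.shift.colm (((UT.var 1).pr (UT.var 0)).add UT.one))
      (hZ.shift.shift.colm (UT.var 1)))

theorem UA.psi {A W : SRel.{u}} (hA : US A) (hW : US W) :
    UA (fun N _ e E => Psi N (A N e E) (W N e E)) := by
  refine UA.and (UA.has hW hA) (UA.and (UA.ops hW hW) ?_)
  refine UA.all (P := fun N _ e E k => ∃ j, Theta N (RR.col (A N e E) 1) (RR.col (W N e E) k)
    (RR.col (W N e E) j)) ?_
  refine UA.ex (P := fun N _ e E j => Theta N (RR.col (A N (RM.tail e) E) 1)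
    (RR.col (W N (RM.tail e) E) (e 0)) (RR.col (W N (RM.tail e) E) j)) ?_
  exact UA.theta (hA.shift.shift.colm UT.one) (hW.shift.shift.colm (UT.var 1))
    (hW.shift.shift.colm (UT.var 0))

end Pool.Agent.Helper60.RR
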