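import Mathlib
import Pool.Agent.Helper60.RR.Theta

namespace Pool.Agent.Helper60.RR

open Pool.Agent.Helper617 Pool.Agent.Helper617.RM

universe u

set_option linter.unusedSectionVars false
set_option linter.unusedVariables false

/-! ### nodes -/

section node

variable {N : L2Structure.{u}} [IsModelRCA0 N]

def node (u n m c : N.M) : N.M := pr u (pr n (pr m c)) + 1

theorem node_inj {u n m c u' n' m' c' : N.M} (h : node u n m c = node u' n' m' c') :
    u = u' ∧ n = n' ∧ m = m' ∧ c = c' := by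
  obtain ⟨h1, h2⟩ := pr_inj (add_one_inj' h)
  obtain ⟨h3, h4⟩ := pr_inj h2
  obtain ⟨h5, h6⟩ := pr_inj h4
  exact ⟨h1, h3, h5, h6⟩

theorem lt_pr_succ_left (s j : N.M) : s < pr s j + 1 := lt_add_one_iff'.2 (fst_le_pr _ _)

theorem lt_node_fst (u n m c : N.M) : u < node u n m c := lt_pr_succ_left _ _

theorem lt_node_snd (u n m c : N.M) : n < node u n m c :=
  lt_add_one_iff'.2 ((fst_le_pr _ _).trans (snd_le_pr _ _))

/-- `ψ` applied to the three columns of `F` -/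
def psiC (F : Set N.M) : SC N := cons (col F (1 + 1)) (cons (col F 0) (cons (col F 1) (fun _ => ∅)))

end node

def psiF (ψ : Rel.{u}) (N : L2Structure.{u}) [IsModelRCA0 N] (n v : N.M) (F : Set N.M) : Prop :=
  ψ N (cons n (cons v (fun _ => 0))) (psiC F)

def Chk (ψ : Rel.{u}) (N : L2Structure.{u}) [IsModelRCA0 N] (A : Set N.M) (n m c : N.M) : Prop :=
  (pr n 0 < m ∧ (MemC (pr n 0) c ↔ n ∈ A)) ∧
    ∃ v, v < m ∧ ∀ c', (∀ x, x < m → (MemC x c' ↔ MemC x c)) → psiF ψ N n v {x | MemC x c'}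

/-- the clause that defines the tree -/
def TCl (ψ : Rel.{u}) (N : L2Structure.{u}) [IsModelRCA0 N] (A T : Set N.M) (s : N.M) : Prop :=
  s = node 0 0 0 0 ∨ ∃ u n m c m' c', s = node (node u n m c) (n + 1) m' c' ∧
    (node u n m c ∈ T ∧ (m < m' ∧ ((∀ x, x < m → (MemC x c' ↔ MemC x c)) ∧ Chk ψ N A n m' c')))

def Fix (ψ : Rel.{u}) (N : L2Structure.{u}) [IsModelRCA0 N] (A : Set N.M) : Prop :=
  ∀ s, s ∈ col A 1 ↔ TCl ψ N A (col A 1) s

theorem UT.node {t₁ t₂ t₃ t₄ : TRel.{u}} (h₁ : UT t₁) (h₂ : UT t₂) (h₃ : UT t₃) (h₄ : UT t₄) :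
    UT (fun N _ e => RR.node (t₁ N e) (t₂ N e) (t₃ N e) (t₄ N e)) :=
  (h₁.pr (h₂.pr (h₃.pr h₄))).add UT.one

theorem UA.memC {s t : TRel.{u}} (hs : UT s) (ht : UT t) :
    UA (fun N _ e E => MemC (s N e) (t N e)) := by
  have key : UA.{u} (fun N _ e E => MemC (e 0) (e 1)) := by
    have h : UA.{u} (fun N _ e E => ∃ k m n q, e 1 = RM.pr k (RM.pr m n) ∧ (e 0 < k ∧
        n = (m * (e 0 + 1) + 1) * q)) := by
      refine UA.ex (P := fun N _ e E k => ∃ m n q, e 1 = RM.pr k (RM.pr m n) ∧ (e 0 < k ∧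
        n = (m * (e 0 + 1) + 1) * q)) ?_
      refine UA.ex (P := fun N _ e E m => ∃ n q, e 2 = RM.pr (e 0) (RM.pr m n) ∧ (e 1 < e 0 ∧
        n = (m * (e 1 + 1) + 1) * q)) ?_
      refine UA.ex (P := fun N _ e E n => ∃ q, e 3 = RM.pr (e 1) (RM.pr (e 0) n) ∧ (e 2 < e 1 ∧
        n = (e 0 * (e 2 + 1) + 1) * q)) ?_
      refine UA.ex (P := fun N _ e E q => e 4 = RM.pr (e 2) (RM.pr (e 1) (e 0)) ∧ (e 3 < e 2 ∧
        e 0 = (e 1 * (e 3 + 1) + 1) * q)) ?_
      exact UA.and (UA.eq (UT.var 5) ((UT.var 3).pr ((UT.var 2).pr (UT.var 1))))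
        (UA.and (UA.lt (UT.var 4) (UT.var 3)) (UA.eq (UT.var 1)
          ((((UT.var 2).mul ((UT.var 4).add UT.one)).add UT.one).mul (UT.var 0))))
    refine h.congr fun N _ e E => ?_
    constructor
    · rintro ⟨k, m, n, q, h1, h2, h3⟩
      rw [h1, MemC_pr]
      exact ⟨h2, q, h3⟩
    · rintro ⟨k, _, m, _, n, _, h1, h2, q, h3⟩
      exact ⟨k, m, n, q, h1, h2, h3⟩
  exact key.sub (g := fun N _ e => RM.cons (s N e) (RM.cons (t N e) e))
    (UTs.cons hs (UTs.cons ht UTs.id))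

theorem US.memC {t : TRel.{u}} (ht : UT t) : US (fun N _ e E => {x | MemC x (t N e)}) :=
  UA.memC (UT.var 0) ht.tl

theorem UA.psiF {ψ : Rel.{u}} (hψ : UA ψ) {s t : TRel.{u}} {S : SRel.{u}} (hs : UT s)
    (ht : UT t) (hS : US S) : UA (fun N _ e E => RR.psiF ψ N (s N e) (t N e) (S N e E)) :=
  hψ.comp (g := fun N _ e => RM.cons (s N e) (RM.cons (t N e) (fun _ => 0)))
    (UTs.cons hs (UTs.cons ht fun _ => UT.zero))
    (S := fun N _ e E => psiC (S N e E))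
    (USs.cons (hS.colm (UT.one.add UT.one)) (USs.cons (hS.colm UT.zero)
      (USs.cons (hS.colm UT.one) USs.empty)))

theorem UA.chk {ψ : Rel.{u}} (hψ : UA ψ) {A : SRel.{u}} (hA : US A) {n m c : TRel.{u}}
    (hn : UT n) (hm : UT m) (hc : UT c) :
    UA (fun N _ e E => Chk ψ N (A N e E) (n N e) (m N e) (c N e)) := by
  refine UA.and (UA.and (UA.lt (hn.pr UT.zero) hm) (UA.iff (UA.memC (hn.pr UT.zero) hc)
    (UA.mem hn hA))) ?_
  refine UA.ex (P := fun N _ e E v => v < m N e ∧ ∀ c', (∀ x, x < m N e →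
    (MemC x c' ↔ MemC x (c N e))) → RR.psiF ψ N (n N e) v {x | MemC x c'}) ?_
  refine UA.and (UA.lt (UT.var 0) hm.tl) ?_
  refine UA.all (P := fun N _ e E c' => (∀ x, x < m N (RM.tail e) →
    (MemC x c' ↔ MemC x (c N (RM.tail e)))) →
      RR.psiF ψ N (n N (RM.tail e)) (e 0) {x | MemC x c'}) ?_
  refine UA.imp ?_ (UA.psiF hψ hn.tl.tl (UT.var 1) (US.memC (UT.var 0)))
  refine UA.all (P := fun N _ e E x => x < m N (RM.tail (RM.tail e)) →
    (MemC x (e 0) ↔ MemC x (c N (RM.tail (RM.tail e))))) ?_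
  exact UA.imp (UA.lt (UT.var 0) hm.tl.tl.tl) (UA.iff (UA.memC (UT.var 0) (UT.var 1))
    (UA.memC (UT.var 0) hc.tl.tl.tl))

theorem UA.tcl {ψ : Rel.{u}} (hψ : UA ψ) {A T : SRel.{u}} (hA : US A) (hT : US T)
    {s : TRel.{u}} (hs : UT s) : UA (fun N _ e E => TCl ψ N (A N e E) (T N e E) (s N e)) := by
  refine UA.or (UA.eq hs (UT.node UT.zero UT.zero UT.zero UT.zero)) ?_
  have key : UA (fun N _ e E => ∃ u n m c m' c', e 0 = RR.node (RR.node u n m c) (n + 1) m' c' ∧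
    (RR.node u n m c ∈ E 1 ∧ (m < m' ∧ ((∀ x, x < m → (MemC x c' ↔ MemC x c)) ∧
      Chk ψ N (E 0) n m' c')))) := by
    refine UA.ex (P := fun N _ e E u => ∃ n m c m' c',
      e 0 = RR.node (RR.node u n m c) (n + 1) m' c' ∧
      (RR.node u n m c ∈ E 1 ∧ (m < m' ∧ ((∀ x, x < m → (MemC x c' ↔ MemC x c)) ∧
      Chk ψ N (E 0) n m' c')))) ?_
    refine UA.ex (P := fun N _ e E n => ∃ m c m' c',
      e 1 = RR.node (RR.node (e 0) n m c) (n + 1) m' c' ∧
      (RR.node (e 0) n m c ∈ E 1 ∧ (m < m' ∧ ((∀ x, x < m → (MemC x c' ↔ MemC x c)) ∧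
      Chk ψ N (E 0) n m' c')))) ?_
    refine UA.ex (P := fun N _ e E m => ∃ c m' c',
      e 2 = RR.node (RR.node (e 1) (e 0) m c) (e 0 + 1) m' c' ∧
      (RR.node (e 1) (e 0) m c ∈ E 1 ∧ (m < m' ∧ ((∀ x, x < m → (MemC x c' ↔ MemC x c)) ∧
      Chk ψ N (E 0) (e 0) m' c')))) ?_
    refine UA.ex (P := fun N _ e E c => ∃ m' c',
      e 3 = RR.node (RR.node (e 2) (e 1) (e 0) c) (e 1 + 1) m' c' ∧
      (RR.node (e 2) (e 1) (e 0) c ∈ E 1 ∧ (e 0 < m' ∧
      ((∀ x, x < e 0 → (MemC x c' ↔ MemC x c)) ∧ Chk ψ N (E 0) (e 1) m' c')))) ?_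
    refine UA.ex (P := fun N _ e E m' => ∃ c',
      e 4 = RR.node (RR.node (e 3) (e 2) (e 1) (e 0)) (e 2 + 1) m' c' ∧
      (RR.node (e 3) (e 2) (e 1) (e 0) ∈ E 1 ∧ (e 1 < m' ∧
      ((∀ x, x < e 1 → (MemC x c' ↔ MemC x (e 0))) ∧ Chk ψ N (E 0) (e 2) m' c')))) ?_
    refine UA.ex (P := fun N _ e E c' =>
      e 5 = RR.node (RR.node (e 4) (e 3) (e 2) (e 1)) (e 3 + 1) (e 0) c' ∧
      (RR.node (e 4) (e 3) (e 2) (e 1) ∈ E 1 ∧ (e 2 < e 0 ∧
      ((∀ x, x < e 2 → (MemC x c' ↔ MemC x (e 1))) ∧ Chk ψ N (E 0) (e 3) (e 0) c')))) ?_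
    refine UA.and (UA.eq (UT.var 6) (UT.node (UT.node (UT.var 5) (UT.var 4) (UT.var 3) (UT.var 2))
      ((UT.var 4).add UT.one) (UT.var 1) (UT.var 0))) (UA.and
      (UA.memV (UT.node (UT.var 5) (UT.var 4) (UT.var 3) (UT.var 2)) 1)
      (UA.and (UA.lt (UT.var 3) (UT.var 1)) (UA.and ?_
        (UA.chk hψ (US.var 0) (UT.var 4) (UT.var 1) (UT.var 0)))))
    refine UA.all (P := fun N _ e E x => x < e 3 → (MemC x (e 0) ↔ MemC x (e 2))) ?_
    exact UA.imp (UA.lt (UT.var 0) (UT.var 4)) (UA.iff (UA.memC (UT.var 0) (UT.var 1))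
      (UA.memC (UT.var 0) (UT.var 3)))
  exact key.comp (g := fun N _ e => RM.cons (s N e) e) (UTs.cons hs UTs.id)
    (S := fun N _ e E => RM.cons (A N e E) (RM.cons (T N e E) E))
    (USs.cons hA (USs.cons hT USs.id))

theorem UA.fix {ψ : Rel.{u}} (hψ : UA ψ) {A : SRel.{u}} (hA : US A) :
    UA (fun N _ e E => Fix ψ N (A N e E)) := by
  refine UA.all (P := fun N _ e E s => s ∈ RR.col (A N e E) 1 ↔
    TCl ψ N (A N e E) (RR.col (A N e E) 1) s) ?_
  exact UA.iff (UA.mem (UT.var 0) (hA.shift.colm UT.one))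
    (UA.tcl hψ hA.shift (hA.shift.colm UT.one) (UT.var 0))

/-! ### joins -/

section join

variable {N : L2Structure.{u}} [IsModelRCA0 N]

def join (B T : Set N.M) : Set N.M := {z | (∃ x, z = pr x 0 ∧ x ∈ B) ∨ (∃ x, z = pr x 1 ∧ x ∈ T)}

theorem col_join_zero (B T : Set N.M) : col (join B T) 0 = B := by
  ext x
  simp only [mem_col, join, Set.mem_ofPred_eq]
  constructor
  · rintro (⟨y, h, h'⟩ | ⟨y, h, h'⟩)
    · rw [(pr_inj h).1]; exact h'
    · exact absurd (pr_inj h).2 zero_ne_one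
  · intro h; exact Or.inl ⟨x, rfl, h⟩

theorem col_join_one (B T : Set N.M) : col (join B T) 1 = T := by
  ext x
  simp only [mem_col, join, Set.mem_ofPred_eq]
  constructor
  · rintro (⟨y, h, h'⟩ | ⟨y, h, h'⟩)
    · exact absurd (pr_inj h).2 one_ne_zero
    · rw [(pr_inj h).1]; exact h'
  · intro h; exact Or.inr ⟨x, rfl, h⟩

def join3 (A W D : Set N.M) : Set N.M :=
  {z | (∃ x, z = pr x 0 ∧ x ∈ A) ∨ ((∃ x, z = pr x 1 ∧ x ∈ W) ∨ (∃ x, z = pr x (1 + 1) ∧ x ∈ D))}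

theorem two_ne_zero' : (1 + 1 : N.M) ≠ 0 := succ_ne_zero' 1
theorem two_ne_one' : (1 + 1 : N.M) ≠ 1 := fun h => succ_ne_zero' (0 : N.M) (by
  rw [zero_add]
  exact add_cancel' (c := 1) (h.trans (zero_add 1).symm))

theorem col_join3_zero (A W D : Set N.M) : col (join3 A W D) 0 = A := by
  ext x
  simp only [mem_col, join3, Set.mem_ofPred_eq]
  constructor
  · rintro (⟨y, h, h'⟩ | ⟨y, h, h'⟩ | ⟨y, h, h'⟩)
    · rw [(pr_inj h).1]; exact h'
    · exact absurd (pr_inj h).2 zero_ne_one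
    · exact absurd (pr_inj h).2.symm two_ne_zero'
  · intro h; exact Or.inl ⟨x, rfl, h⟩

theorem col_join3_one (A W D : Set N.M) : col (join3 A W D) 1 = W := by
  ext x
  simp only [mem_col, join3, Set.mem_ofPred_eq]
  constructor
  · rintro (⟨y, h, h'⟩ | ⟨y, h, h'⟩ | ⟨y, h, h'⟩)
    · exact absurd (pr_inj h).2 one_ne_zero
    · rw [(pr_inj h).1]; exact h'
    · exact absurd (pr_inj h).2.symm two_ne_one'
  · intro h; exact Or.inr (Or.inl ⟨x, rfl, h⟩)

theorem col_join3_two (A W D : Set N.M) : col (join3 A W D) (1 + 1) = D := by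
  ext x
  simp only [mem_col, join3, Set.mem_ofPred_eq]
  constructor
  · rintro (⟨y, h, h'⟩ | ⟨y, h, h'⟩ | ⟨y, h, h'⟩)
    · exact absurd (pr_inj h).2 two_ne_zero'
    · exact absurd (pr_inj h).2 two_ne_one'
    · rw [(pr_inj h).1]; exact h'
  · intro h; exact Or.inr (Or.inr ⟨x, rfl, h⟩)

end join

/-! ### definability inside a model -/

section model

variable {N : L2Structure.{u}} [IsModelRCA0 N]

theorem col_mem {W : Set N.M} (hW : W ∈ N.Sets) (k : N.M) : col W k ∈ N.Sets :=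
  comp_D0 (P := fun x => pr x k ∈ W) (D0.mem ((Tm.var 0).pr (Tm.const k)) hW)

variable [Sig1 N]

theorem strong_ind {P : N.M → Prop} (hP : D0 (fun v => P (v 0)))
    (h : ∀ n, (∀ m, m < n → P m) → P n) : ∀ n, P n := by
  intro n
  by_contra hn
  obtain ⟨m, _, hm1, hm2⟩ := lnp_D0 (P := fun n => ¬ P n) hP.not n hn
  exact hm1 (h m fun k hk => by
    by_contra hk'
    exact hm2 k hk hk')

def D0s (S : Ctx N → SC N) : Prop := ∀ j, D0 (fun v => v 0 ∈ S (tail v) j)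

theorem D0s.cons {S₀ : Ctx N → Set N.M} {S : Ctx N → SC N}
    (h₀ : D0 (fun v => v 0 ∈ S₀ (tail v))) (hS : D0s S) : D0s (fun v => RM.cons (S₀ v) (S v)) := by
  intro j
  cases j with
  | zero => exact h₀
  | succ j => exact hS j

theorem D0s.empty : D0s (N := N) (fun _ _ => ∅) := fun _ => D0.false

theorem D0.join {B T : Ctx N → Set N.M} (hB : D0 (fun v => v 0 ∈ B (RM.tail v)))
    (hT : D0 (fun v => v 0 ∈ T (RM.tail v))) :
    D0 (fun v => v 0 ∈ RR.join (B (RM.tail v)) (T (RM.tail v))) := by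
  refine D0.or (D0.ex (P := fun v x => v 0 = pr x 0 ∧ x ∈ B (RM.tail v)) ?_)
    (D0.ex (P := fun v x => v 0 = pr x 1 ∧ x ∈ T (RM.tail v)) ?_)
  · refine D0.and (D0.eq (Tm.var 1) ((Tm.var 0).pr Tm.zero)) ?_
    exact hB.comp (g := fun v => cons (v 0) (tail (tail v))) (CM.cons (Tm.var 0) CM.tail.tail')
  · refine D0.and (D0.eq (Tm.var 1) ((Tm.var 0).pr Tm.one)) ?_
    exact hT.comp (g := fun v => cons (v 0) (tail (tail v))) (CM.cons (Tm.var 0) CM.tail.tail')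

theorem join_mem {B T : Set N.M} (hB : B ∈ N.Sets) (hT : T ∈ N.Sets) : join B T ∈ N.Sets :=
  comp_D0 (P := fun x => x ∈ join B T)
    (D0.join (B := fun _ => B) (T := fun _ => T) (D0.mem (Tm.var 0) hB) (D0.mem (Tm.var 0) hT))

theorem join3_mem {A W D : Set N.M} (hA : A ∈ N.Sets) (hW : W ∈ N.Sets) (hD : D ∈ N.Sets) :
    join3 A W D ∈ N.Sets := by
  refine comp_D0 (P := fun z => z ∈ join3 A W D) ?_
  refine D0.or (D0.ex (P := fun v x => v 0 = pr x 0 ∧ x ∈ A) ?_)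
    (D0.or (D0.ex (P := fun v x => v 0 = pr x 1 ∧ x ∈ W) ?_)
    (D0.ex (P := fun v x => v 0 = pr x (1 + 1) ∧ x ∈ D) ?_))
  · exact D0.and (D0.eq (Tm.var 1) ((Tm.var 0).pr Tm.zero)) (D0.mem (Tm.var 0) hA)
  · exact D0.and (D0.eq (Tm.var 1) ((Tm.var 0).pr Tm.one)) (D0.mem (Tm.var 0) hW)
  · exact D0.and (D0.eq (Tm.var 1) ((Tm.var 0).pr (Tm.one.add Tm.one))) (D0.mem (Tm.var 0) hD)

/-- every bounded set of the model is coded -/
theorem exists_fcode {F : Set N.M} (hF : F ∈ N.Sets) (b : N.M) (hb : ∀ i, i ∈ F → i < b) :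
    ∃ p, ∀ i, MemC i p ↔ i ∈ F := by
  obtain ⟨p, hp⟩ := exists_isCode hF ⟨b, hb⟩
  exact ⟨p, fun i => ((isCode_iff.1 hp).2 i).symm⟩

theorem exists_fcode_P {P : N.M → Prop} (hP : D0 (fun v => P (v 0))) (b : N.M) :
    ∃ p, ∀ i, MemC i p ↔ (i < b ∧ P i) := by
  refine exists_fcode (F := {i | i < b ∧ P i})
    (comp_D0 (P := fun i => i < b ∧ P i) (D0.and (D0.lt (Tm.var 0) (Tm.const b)) hP)) b
    fun i hi => hi.1

/-! ### existence of the tree -/

theorem tcl_local {ψ : Rel.{u}} {B T T' : Set N.M} {s : N.M}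
    (h : ∀ x, x < s → (x ∈ T ↔ x ∈ T')) :
    TCl ψ N (join B T) T s ↔ TCl ψ N (join B T') T' s := by
  refine or_congr Iff.rfl ?_
  refine exists_congr fun u => exists_congr fun n => exists_congr fun m => exists_congr fun c =>
    exists_congr fun m' => exists_congr fun c' => ?_
  refine and_congr_right fun hs => ?_
  have h1 : node u n m c < s := by rw [hs]; exact lt_node_fst _ _ _ _
  have h2 : n < s := by
    refine lt_trans ?_ h1
    exact lt_node_snd _ _ _ _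
  have h3 : n ∈ join B T ↔ n ∈ join B T' := by
    refine or_congr Iff.rfl (exists_congr fun x => and_congr_right fun hx => ?_)
    exact h x (lt_of_le_of_lt (fst_le_pr x 1) (hx ▸ h2))
  rw [h _ h1]
  unfold Chk
  rw [h3]

theorem fix_exists {ψ : Rel.{u}} (hψ : UA ψ) {B : Set N.M} (hB : B ∈ N.Sets) :
    ∃ A ∈ N.Sets, col A 0 = B ∧ Fix ψ N A := by
  let R : N.M → N.M → Prop := fun p s => TCl ψ N (join B {x | MemC x p}) {x | MemC x p} s
  have hR : ∀ {s t : Ctx N → N.M}, Tm s → Tm t → D0 (fun v => R (s v) (t v)) := by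
    intro s t hs ht
    have := UA.toD0 (N := N) (UA.tcl hψ (US.var 0) (US.var 1) (UT.var 0))
      (g := fun v => cons (t v) v) (CM.cons ht CM.id)
      (S := fun v => cons (join B {x | MemC x (s v)}) (cons {x | MemC x (s v)} (fun _ => ∅)))
      (D0s.cons (S₀ := fun v => RR.join B {x | MemC x (s v)}) (D0.join (B := fun _ => B) (T := fun v => {x | MemC x (s v)})
            (D0.mem (Tm.var 0) hB) (MemC_D0 (Tm.var 0) hs.tail))
        (D0s.cons (S₀ := fun v => {x | MemC x (s v)}) (MemC_D0 (Tm.var 0) hs.tail) D0s.empty))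
    exact this
  let Cor : N.M → N.M → Prop := fun p k => ∀ s, s < k → (MemC s p ↔ R p s)
  have hCor : ∀ {s t : Ctx N → N.M}, Tm s → Tm t → D0 (fun v => Cor (s v) (t v)) := by
    intro s t hs ht
    exact D0.ball ht (D0.iff (MemC_D0 (Tm.var 0) hs.tail) (hR hs.tail (Tm.var 0)))
  have hex : ∀ k, ∃ p, Cor p k := by
    intro k
    refine ind_D0 (P := fun k => ∃ p, Cor p k) (D0.ex (hCor (Tm.var 0) (Tm.var 1))) ?_ ?_ k
    · exact ⟨0, fun s hs => absurd hs (not_lt_of_ge (zero_le' s))⟩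
    · rintro k ⟨p, hp⟩
      obtain ⟨p', hp'⟩ := exists_fcode_P (P := fun i => (i < k ∧ MemC i p) ∨ (i = k ∧ R p k))
        (D0.or (D0.and (D0.lt (Tm.var 0) (Tm.const k)) (MemC_D0 (Tm.var 0) (Tm.const p)))
          (D0.and (D0.eq (Tm.var 0) (Tm.const k)) (D0.const _))) (k + 1)
      have hlow : ∀ x, x < k → (MemC x p' ↔ MemC x p) := by
        intro x hx
        rw [hp']
        constructor
        · rintro ⟨_, h | h⟩
          · exact h.2
          · exact absurd h.1 hx.ne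
        · intro h
          exact ⟨hx.trans (lt_succ_self' k), Or.inl ⟨hx, h⟩⟩
      refine ⟨p', fun s hs => ?_⟩
      rcases lt_or_eq_of_le (lt_add_one_iff'.1 hs) with hs | rfl
      · rw [hlow s hs, hp s hs]
        exact tcl_local fun x hx => (hlow x (hx.trans hs)).symm
      · rw [hp']
        constructor
        · rintro ⟨_, h | h⟩
          · exact absurd h.1 (lt_irrefl _)
          · exact (tcl_local fun x hx => (hlow x hx).symm).1 h.2
        · intro h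
          exact ⟨lt_succ_self' s, Or.inr ⟨rfl, (tcl_local fun x hx => hlow x hx).1 h⟩⟩
  have huniq : ∀ s p p', Cor p (s + 1) → Cor p' (s + 1) → (MemC s p ↔ MemC s p') := by
    intro s p p' h h'
    have : ∀ x, x < s + 1 → (MemC x p ↔ MemC x p') := by
      intro x
      refine strong_ind (P := fun x => x < s + 1 → (MemC x p ↔ MemC x p')) ?_ ?_ x
      · exact D0.imp (D0.lt (Tm.var 0) (Tm.const _)) (D0.iff (MemC_D0 (Tm.var 0) (Tm.const _))
          (MemC_D0 (Tm.var 0) (Tm.const _)))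
      · intro n ih hn
        rw [h n hn, h' n hn]
        exact tcl_local fun x hx => ih x hx (hx.trans hn)
    exact this s (lt_succ_self' s)
  let T : Set N.M := {s | ∃ p, Cor p (s + 1) ∧ MemC s p}
  have hT : T ∈ N.Sets := comp_D0 (P := fun s => ∃ p, Cor p (s + 1) ∧ MemC s p)
    (D0.ex (D0.and (hCor (Tm.var 0) ((Tm.var 1).add Tm.one)) (MemC_D0 (Tm.var 1) (Tm.var 0))))
  have hTp : ∀ p s, Cor p (s + 1) → (s ∈ T ↔ MemC s p) := by
    intro p s hp
    constructor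
    · rintro ⟨p', h1, h2⟩
      exact (huniq s p p' hp h1).2 h2
    · intro h; exact ⟨p, hp, h⟩
  refine ⟨join B T, join_mem hB hT, col_join_zero B T, fun s => ?_⟩
  rw [col_join_one]
  obtain ⟨p, hp⟩ := hex (s + 1)
  rw [hTp p s hp, hp s (lt_succ_self' s)]
  refine tcl_local fun x hx => ?_
  refine (hTp p x fun y hy => hp y (lt_of_lt_of_le hy ?_)).symm
  exact (add_one_le_iff'.2 hx).trans (lt_succ_self' s).le

end model

end Pool.Agent.Helper60.RR
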