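import Mathlib
import Pool.Agent.Helper60.RR.Tree

namespace Pool.Agent.Helper60.RR

open Pool.Agent.Helper617 Pool.Agent.Helper617.RM

universe u

set_option linter.unusedSectionVars false
set_option linter.unusedVariables false

variable {N : L2Structure.{u}} [IsModelRCA0 N] [Sig1 N]

/-! ### the ancestor relation -/

def Anc (u s : N.M) : Prop :=
  ∃ p, MemC s p ∧ ∀ z, MemC z p → (z = u ∨ ∃ z' j, z = pr z' j + 1 ∧ MemC z' p)

theorem Anc_D0 {s t : Ctx N → N.M} (hs : Tm s) (ht : Tm t) : D0 (fun v => Anc (s v) (t v)) := by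
  refine D0.ex (D0.and (MemC_D0 ht.tail (Tm.var 0)) (D0.all (D0.imp (MemC_D0 (Tm.var 0)
    (Tm.var 1)) (D0.or (D0.eq (Tm.var 0) hs.tail.tail) (D0.ex (D0.ex (D0.and ?_ ?_)))))))
  · exact D0.eq (Tm.var 2) (((Tm.var 1).pr (Tm.var 0)).add Tm.one)
  · exact MemC_D0 (Tm.var 1) (Tm.var 3)

theorem Anc.refl (s : N.M) : Anc s s := by
  obtain ⟨p, hp⟩ := exists_fcode_P (P := fun i => i = s) (D0.eq (Tm.var 0) (Tm.const s)) (s + 1)
  refine ⟨p, (hp s).2 ⟨lt_succ_self' s, rfl⟩, fun z hz => Or.inl ((hp z).1 hz).2⟩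

theorem Anc.succ {u s : N.M} (h : Anc u s) (j : N.M) : Anc u (pr s j + 1) := by
  obtain ⟨p, h1, h2⟩ := h
  obtain ⟨p', hp'⟩ := exists_fcode_P (P := fun i => MemC i p ∨ i = pr s j + 1)
    (D0.or (MemC_D0 (Tm.var 0) (Tm.const p)) (D0.eq (Tm.var 0) (Tm.const _))) (p + (pr s j + 1) + 1)
  have hlow : ∀ i, MemC i p → MemC i p' := fun i hi => (hp' i).2 ⟨by
    refine lt_add_one_iff'.2 (hi.lt.le.trans ?_)
    exact le_add_of_nonneg_right (zero_le' _), Or.inl hi⟩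
  refine ⟨p', (hp' _).2 ⟨?_, Or.inr rfl⟩, fun z hz => ?_⟩
  · exact lt_add_one_iff'.2 (le_add_of_nonneg_left (zero_le' _))
  · rcases ((hp' z).1 hz).2 with h | h
    · rcases h2 z h with h3 | ⟨z', j', h3, h4⟩
      · exact Or.inl h3
      · exact Or.inr ⟨z', j', h3, hlow _ h4⟩
    · exact Or.inr ⟨s, j, h, hlow _ h1⟩

theorem Anc.cases {u s : N.M} (h : Anc u s) : s = u ∨ ∃ s' j, s = pr s' j + 1 ∧ Anc u s' := by
  obtain ⟨p, h1, h2⟩ := h
  rcases h2 s h1 with h | ⟨s', j, h3, h4⟩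
  · exact Or.inl h
  · exact Or.inr ⟨s', j, h3, p, h4, h2⟩

theorem Anc.cases_succ {u s j : N.M} (h : Anc u (pr s j + 1)) : u = pr s j + 1 ∨ Anc u s := by
  rcases h.cases with h | ⟨s', j', h1, h2⟩
  · exact Or.inl h.symm
  · obtain ⟨rfl, rfl⟩ := pr_inj (add_one_inj' h1)
    exact Or.inr h2

theorem Anc.le {u s : N.M} : Anc u s → u ≤ s := by
  refine strong_ind (P := fun s => Anc u s → u ≤ s) ?_ ?_ s
  · exact D0.imp (Anc_D0 (Tm.const u) (Tm.var 0)) (D0.le (Tm.const u) (Tm.var 0))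
  · intro s ih h
    rcases h.cases with rfl | ⟨s', j, rfl, h2⟩
    · exact le_rfl
    · exact (ih s' (lt_pr_succ_left _ _) h2).trans (lt_pr_succ_left _ _).le

theorem Anc.trans {u v s : N.M} (huv : Anc u v) : Anc v s → Anc u s := by
  refine strong_ind (P := fun s => Anc v s → Anc u s) ?_ ?_ s
  · exact D0.imp (Anc_D0 (Tm.const v) (Tm.var 0)) (Anc_D0 (Tm.const u) (Tm.var 0))
  · intro s ih h
    rcases h.cases with rfl | ⟨s', j, rfl, h2⟩
    · exact huv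
    · exact (ih s' (lt_pr_succ_left _ _) h2).succ j

theorem Anc.child {s t : N.M} : Anc s t → (s = t ∨ ∃ j, Anc (pr s j + 1) t) := by
  refine strong_ind (P := fun t => Anc s t → (s = t ∨ ∃ j, Anc (pr s j + 1) t)) ?_ ?_ t
  · exact D0.imp (Anc_D0 (Tm.const s) (Tm.var 0)) (D0.or (D0.eq (Tm.const s) (Tm.var 0))
      (D0.ex (Anc_D0 (((Tm.const s).pr (Tm.var 0)).add Tm.one) (Tm.var 1))))
  · intro t ih h
    rcases h.cases with rfl | ⟨t', j, rfl, h2⟩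
    · exact Or.inl rfl
    · rcases ih t' (lt_pr_succ_left _ _) h2 with h3 | ⟨j', h3⟩
      · exact Or.inr ⟨j, by rw [h3]; exact Anc.refl _⟩
      · exact Or.inr ⟨j', h3.succ j⟩

theorem Anc.uniq {u i j s : N.M} : Anc (pr u i + 1) s → Anc (pr u j + 1) s → i = j := by
  refine strong_ind (P := fun s => Anc (pr u i + 1) s → Anc (pr u j + 1) s → i = j) ?_ ?_ s
  · exact D0.imp (Anc_D0 (Tm.const _) (Tm.var 0)) (D0.imp (Anc_D0 (Tm.const _) (Tm.var 0))
      (D0.const _))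
  · intro s ih h h'
    rcases h.cases with h1 | ⟨s1, k1, h1, h2⟩
    · rcases h'.cases with h3 | ⟨s2, k2, h3, h4⟩
      · exact (pr_inj (add_one_inj' (h1.symm.trans h3))).2
      · obtain ⟨h5, h6⟩ := pr_inj (add_one_inj' (h1.symm.trans h3))
        rw [← h5] at h4
        exact absurd h4.le (not_le_of_gt (lt_pr_succ_left _ _))
    · rcases h'.cases with h3 | ⟨s2, k2, h3, h4⟩
      · obtain ⟨h5, h6⟩ := pr_inj (add_one_inj' (h3.symm.trans h1))
        rw [← h5] at h2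
        exact absurd h2.le (not_le_of_gt (lt_pr_succ_left _ _))
      · obtain ⟨h5, h6⟩ := pr_inj (add_one_inj' (h1.symm.trans h3))
        rw [← h5] at h4
        exact ih s1 (by rw [h1]; exact lt_pr_succ_left _ _) h2 h4

theorem Anc.comp {u v s : N.M} : Anc u s → Anc v s → (Anc u v ∨ Anc v u) := by
  refine strong_ind (P := fun s => Anc u s → Anc v s → (Anc u v ∨ Anc v u)) ?_ ?_ s
  · exact D0.imp (Anc_D0 (Tm.const _) (Tm.var 0)) (D0.imp (Anc_D0 (Tm.const _) (Tm.var 0))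
      (D0.const _))
  · intro s ih h h'
    rcases h.cases with h1 | ⟨s1, k1, h1, h2⟩
    · rw [h1] at h'
      exact Or.inr h'
    · rcases h'.cases with h3 | ⟨s2, k2, h3, h4⟩
      · rw [h3] at h
        exact Or.inl h
      · obtain ⟨h5, h6⟩ := pr_inj (add_one_inj' (h1.symm.trans h3))
        rw [← h5] at h4
        exact ih s1 (by rw [h1]; exact lt_pr_succ_left _ _) h2 h4

theorem Anc.diverge {r t : N.M} (ht : Anc r t) {s : N.M} : Anc r s →
    (Anc s t ∨ Anc t s ∨ ∃ u i j, i ≠ j ∧ (Anc r u ∧ (Anc (pr u i + 1) s ∧ Anc (pr u j + 1) t))) := by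
  refine strong_ind (P := fun s => Anc r s → (Anc s t ∨ Anc t s ∨ ∃ u i j, i ≠ j ∧
    (Anc r u ∧ (Anc (pr u i + 1) s ∧ Anc (pr u j + 1) t)))) ?_ ?_ s
  · refine D0.imp (Anc_D0 (Tm.const r) (Tm.var 0)) (D0.or (Anc_D0 (Tm.var 0) (Tm.const t))
      (D0.or (Anc_D0 (Tm.const t) (Tm.var 0)) (D0.ex (D0.ex (D0.ex (D0.and
        (D0.eq (Tm.var 1) (Tm.var 0)).not (D0.and (Anc_D0 (Tm.const r) (Tm.var 2))
          (D0.and ?_ ?_))))))))
    · exact Anc_D0 (((Tm.var 2).pr (Tm.var 1)).add Tm.one) (Tm.var 3)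
    · exact Anc_D0 (((Tm.var 2).pr (Tm.var 0)).add Tm.one) (Tm.const t)
  · intro s ih h
    rcases h.cases with rfl | ⟨s', i, rfl, h2⟩
    · exact Or.inl ht
    · rcases ih s' (lt_pr_succ_left _ _) h2 with h3 | h3 | ⟨u, i', j', h3, h4, h5, h6⟩
      · rcases h3.child with h4 | ⟨j, h4⟩
        · right; left
          rw [← h4]
          exact (Anc.refl _).succ i
        · by_cases hij : i = j
          · left; rw [hij]; exact h4
          · right; right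
            exact ⟨s', i, j, hij, h2, Anc.refl _, h4⟩
      · exact Or.inr (Or.inl (h3.succ i))
      · exact Or.inr (Or.inr ⟨u, i', j', h3, h4, h5.succ i, h6⟩)

/-! ### the Kleene–Brouwer order -/

def KB (s t : N.M) : Prop :=
  (Anc t s ∧ s ≠ t) ∨ ∃ u i j, i < j ∧ (Anc (pr u i + 1) s ∧ Anc (pr u j + 1) t)

theorem KB_D0 {s t : Ctx N → N.M} (hs : Tm s) (ht : Tm t) : D0 (fun v => KB (s v) (t v)) := by
  refine D0.or (D0.and (Anc_D0 ht hs) (D0.eq hs ht).not) (D0.ex (D0.ex (D0.ex (D0.and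
    (D0.lt (Tm.var 1) (Tm.var 0)) (D0.and ?_ ?_)))))
  · exact Anc_D0 (((Tm.var 2).pr (Tm.var 1)).add Tm.one) hs.tail.tail.tail
  · exact Anc_D0 (((Tm.var 2).pr (Tm.var 0)).add Tm.one) ht.tail.tail.tail

theorem KB.irrefl {s : N.M} : ¬ KB s s := by
  rintro (⟨_, h⟩ | ⟨u, i, j, h1, h2, h3⟩)
  · exact h rfl
  · exact absurd (h2.uniq h3) h1.ne

theorem KB.child (s j : N.M) : KB (pr s j + 1) s :=
  Or.inl ⟨(Anc.refl s).succ j, (lt_pr_succ_left s j).ne'⟩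

theorem KB.trans {s t r : N.M} (h : KB s t) (h' : KB t r) : KB s r := by
  rcases h with ⟨h1, h2⟩ | ⟨u, i, j, h1, h2, h3⟩
  · rcases h' with ⟨h4, h5⟩ | ⟨w, k, l, h4, h5, h6⟩
    · refine Or.inl ⟨h4.trans h1, ?_⟩
      rintro rfl
      exact h2 (le_antisymm h4.le h1.le)
    · exact Or.inr ⟨w, k, l, h4, h5.trans h1, h6⟩
  · rcases h' with ⟨h4, h5⟩ | ⟨w, k, l, h4, h5, h6⟩
    · rcases h3.comp h4 with h6 | h6
      · exact Or.inr ⟨u, i, j, h1, h2, h6⟩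
      · rcases h6.cases_succ with h7 | h7
        · rw [h7]
          exact Or.inr ⟨u, i, j, h1, h2, Anc.refl _⟩
        · refine Or.inl ⟨h7.trans (((Anc.refl u).succ i).trans h2), ?_⟩
          rintro rfl
          exact absurd (h2.le.trans h7.le) (not_le_of_gt (lt_pr_succ_left _ _))
    · rcases h3.comp h5 with h7 | h7
      · rcases h7.cases_succ with h8 | h8
        · obtain ⟨rfl, rfl⟩ := pr_inj (add_one_inj' h8)
          exact Or.inr ⟨u, i, l, h1.trans h4, h2, h6⟩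
        · refine Or.inr ⟨u, i, j, h1, h2, ?_⟩
          exact h8.trans (((Anc.refl w).succ l).trans h6)
      · rcases h7.cases_succ with h8 | h8
        · obtain ⟨rfl, rfl⟩ := pr_inj (add_one_inj' h8)
          exact Or.inr ⟨w, i, l, h1.trans h4, h2, h6⟩
        · refine Or.inr ⟨w, k, l, h4, ?_, h6⟩
          exact h8.trans (((Anc.refl u).succ i).trans h2)

theorem KB.total {r s t : N.M} (hs : Anc r s) (ht : Anc r t) (hne : s ≠ t) : KB s t ∨ KB t s := by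
  rcases Anc.diverge ht hs with h | h | ⟨u, i, j, h1, h2, h3, h4⟩
  · exact Or.inr (Or.inl ⟨h, hne.symm⟩)
  · exact Or.inl (Or.inl ⟨h, hne⟩)
  · rcases lt_or_gt_of_ne h1 with h5 | h5
    · exact Or.inl (Or.inr ⟨u, i, j, h5, h3, h4⟩)
    · exact Or.inr (Or.inr ⟨u, j, i, h5, h4, h3⟩)

/-- the leftmost path -/
theorem leftmost {r : N.M} {P : Set N.M} (hP : P ∈ N.Sets) (hr : ∀ s, s ∈ P → Anc r s)
    (hne : ∃ s, s ∈ P) (hno : ∀ s, s ∈ P → ∃ t, t ∈ P ∧ t ≠ s ∧ ¬ KB s t) :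
    ∃ Q ∈ N.Sets, r ∈ Q ∧ (∀ s, s ∈ Q → ∃ j, pr s j + 1 ∈ Q) ∧
      (∀ s, s ∈ Q → ∃ t, t ∈ P ∧ Anc s t) ∧ (∀ s, s ∈ Q → Anc r s) ∧
      ∀ s t, s ∈ Q → t ∈ Q → (Anc s t ∨ Anc t s) := by
  let U : N.M → Prop := fun u => Anc r u ∧ ∃ s, s ∈ P ∧ Anc u s
  have hU : ∀ {t : Ctx N → N.M}, Tm t → D0 (fun v => U (t v)) := by
    intro t ht
    exact D0.and (Anc_D0 (Tm.const r) ht) (D0.ex (D0.and (D0.mem (Tm.var 0) hP)
      (Anc_D0 ht.tail (Tm.var 0))))
  let Q : N.M → Prop := fun u => U u ∧ ∀ v i, Anc (pr v i + 1) u → Anc r v →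
    ∀ i', i' < i → ¬ U (pr v i' + 1)
  have hQ : ∀ {t : Ctx N → N.M}, Tm t → D0 (fun v => Q (t v)) := by
    intro t ht
    refine D0.and (hU ht) (D0.all (D0.all (D0.imp ?_ (D0.imp ?_ (D0.ball (Tm.var 0) ?_)))))
    · exact Anc_D0 (((Tm.var 1).pr (Tm.var 0)).add Tm.one) ht.tail.tail
    · exact Anc_D0 (Tm.const r) (Tm.var 1)
    · exact (hU (((Tm.var 2).pr (Tm.var 0)).add Tm.one)).not
  refine ⟨{u | Q u}, comp_D0 (P := Q) (hQ (Tm.var 0)), ?_, ?_, ?_, ?_, ?_⟩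
  · obtain ⟨s, hs⟩ := hne
    refine ⟨⟨Anc.refl r, s, hs, hr s hs⟩, fun v i h1 h2 => ?_⟩
    exact absurd (h1.le.trans h2.le) (not_le_of_gt (lt_pr_succ_left _ _))
  · rintro u ⟨⟨hru, s, hs, hus⟩, hq⟩
    have hchild : ∃ j, U (pr u j + 1) := by
      by_contra hcon
      push Not at hcon
      have hc : ∀ v, v ∈ P → Anc u v → v = u := by
        intro v hv huv
        rcases huv.child with h | ⟨j, h⟩
        · exact h.symm
        · exact absurd ⟨hru.succ j, v, hv, h⟩ (hcon j)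
      have huP : u ∈ P := by rw [← hc s hs hus]; exact hs
      obtain ⟨t, ht, htu, hkb⟩ := hno u huP
      refine hkb ?_
      rcases Anc.diverge (hr t ht) hru with h | h | ⟨w, i, j, h1, h2, h3, h4⟩
      · exact absurd (hc t ht h) htu
      · exact Or.inl ⟨h, htu.symm⟩
      · have hUj : U (pr w j + 1) := ⟨h2.succ j, t, ht, h4⟩
        have hji : ¬ j < i := fun hlt => hq w i h3 h2 j hlt hUj
        exact Or.inr ⟨w, i, j, lt_of_le_of_ne (not_lt.1 hji) h1, h3, h4⟩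
    obtain ⟨j₀, hj₀⟩ := hchild
    obtain ⟨j, _, hj, hmin⟩ := lnp_D0 (P := fun j => U (pr u j + 1))
      (hU (((Tm.const u).pr (Tm.var 0)).add Tm.one)) j₀ hj₀
    refine ⟨j, hj, fun v i h1 h2 i' hi' => ?_⟩
    rcases h1.cases_succ with h3 | h3
    · obtain ⟨rfl, rfl⟩ := pr_inj (add_one_inj' h3)
      exact hmin i' hi'
    · exact hq v i h3 h2 i' hi'
  · rintro u ⟨⟨_, s, hs, hus⟩, _⟩
    exact ⟨s, hs, hus⟩
  · rintro u ⟨⟨h, _⟩, _⟩
    exact h
  · rintro s t ⟨⟨hrs, hs⟩, hqs⟩ ⟨⟨hrt, ht⟩, hqt⟩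
    rcases Anc.diverge hrt hrs with h | h | ⟨w, i, j, h1, h2, h3, h4⟩
    · exact Or.inl h
    · exact Or.inr h
    · exfalso
      obtain ⟨s', hs', hss'⟩ := hs
      obtain ⟨t', ht', htt'⟩ := ht
      have hUi : U (pr w i + 1) := ⟨h2.succ i, s', hs', h3.trans hss'⟩
      have hUj : U (pr w j + 1) := ⟨h2.succ j, t', ht', h4.trans htt'⟩
      rcases lt_or_gt_of_ne h1 with h5 | h5
      · exact hqt w j h4 h2 i h5 hUi
      · exact hqs w i h3 h2 j h5 hUj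

end Pool.Agent.Helper60.RR
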