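import Mathlib
import Pool.Agent.Helper60.RR.KB

namespace Pool.Agent.Helper60.RR

open Pool.Agent.Helper617 Pool.Agent.Helper617.RM

universe u

set_option linter.unusedSectionVars false
set_option linter.unusedVariables false

/-- `ψ` is a Skolem normal form of `Psi` -/
structure IsNF (ψ δ : Rel.{u}) : Prop where
  ua : UA ψ
  cont : Cont ψ
  ua' : UA δ
  fwd : ∀ (N : L2Structure.{u}) [IsModelRCA0 N] (e : Ctx N) (E : SC N), Psi N (E 0) (E 1) →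
    ∀ n, ∃ v, ψ N (cons n (cons v e)) (cons {z | δ N (cons z e) E} E)
  bwd : ∀ (N : L2Structure.{u}) [IsModelRCA0 N] (e : Ctx N) (E : SC N) (D : Set N.M),
    (∀ n, ∃ v, ψ N (cons n (cons v e)) (cons D E)) → Psi N (E 0) (E 1)

theorem exists_nf : ∃ ψ δ : Rel.{u}, IsNF ψ δ := by
  obtain ⟨ψ, δ, h1, h2, h3, h4⟩ := (UA.psi (US.var 0) (US.var 1) : UA.{u} _).snf
  exact ⟨ψ, δ, h1, h2, h3, fun N _ e E => (h4 N e E).1, fun N _ e E => (h4 N e E).2⟩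

variable {N : L2Structure.{u}} [IsModelRCA0 N]

theorem psiF_cont {ψ : Rel.{u}} (hc : Cont ψ) (n v : N.M) (F : Set N.M) :
    ∃ m, ∀ F' : Set N.M, (∀ x, x < m → (x ∈ F' ↔ x ∈ F)) → (psiF ψ N n v F' ↔ psiF ψ N n v F) := by
  obtain ⟨m, hm⟩ := hc N (cons n (cons v (fun _ => 0))) (psiC F)
  refine ⟨pr m (1 + 1) + (pr m 1 + pr m 0), fun F' h => hm _ fun j x hx => ?_⟩
  match j with
  | 0 => exact h _ (lt_of_lt_of_le (pr_lt_pr_left hx) (le_add_of_nonneg_right (zero_le' _)))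
  | 1 =>
    refine h _ (lt_of_lt_of_le (pr_lt_pr_left hx) ?_)
    exact (le_add_of_nonneg_left (zero_le' _)).trans (le_add_of_nonneg_left (zero_le' _))
  | 2 =>
    refine h _ (lt_of_lt_of_le (pr_lt_pr_left hx) ?_)
    exact (le_add_of_nonneg_right (zero_le' _)).trans (le_add_of_nonneg_left (zero_le' _))
  | j + 3 => exact Iff.rfl

variable [Sig1 N]

theorem Tm.node {s t q r : Ctx N → N.M} (hs : Tm s) (ht : Tm t) (hq : Tm q) (hr : Tm r) :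
    Tm (fun v => node (s v) (t v) (q v) (r v)) := (hs.pr (ht.pr (hq.pr hr))).add Tm.one

theorem path_of_psi {ψ δ : Rel.{u}} (hnf : IsNF ψ δ) {A W : Set N.M} (hA : A ∈ N.Sets)
    (hW : W ∈ N.Sets) (hF : Fix ψ N A) (h : Psi N A W) :
    ∃ P ∈ N.Sets, (∀ s, s ∈ P → s ∈ col A 1) ∧ (∃ s, s ∈ P) ∧
      ∀ s, s ∈ P → ∃ j, pr s j + 1 ∈ P := by
  let E : SC N := cons A (cons W (fun _ => ∅))
  let D : Set N.M := {z | δ N (cons z (fun _ => 0)) E}
  have hD : D ∈ N.Sets := by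
    refine comp_D0 (P := fun z => δ N (cons z (fun _ => 0)) E) ?_
    exact UA.toD0 hnf.ua' (g := fun v => cons (v 0) (fun _ => 0))
      (CM.cons (Tm.var 0) fun _ => Tm.zero) (S := fun v => E)
      (D0s.cons (S₀ := fun _ => A) (D0.mem (Tm.var 0) hA)
        (D0s.cons (S₀ := fun _ => W) (D0.mem (Tm.var 0) hW) D0s.empty))
  let F : Set N.M := join3 A W D
  have hFm : F ∈ N.Sets := join3_mem hA hW hD
  have hψ : ∀ n, ∃ v, psiF ψ N n v F := by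
    intro n
    obtain ⟨v, hv⟩ := hnf.fwd N (fun _ => 0) E h n
    refine ⟨v, ?_⟩
    unfold psiF psiC
    rw [col_join3_two, col_join3_zero, col_join3_one]
    exact hv
  let P : N.M → Prop := fun s => s ∈ col A 1 ∧ ∃ u n m c, s = node u n m c ∧
    ∀ x, x < m → (MemC x c ↔ x ∈ F)
  refine ⟨{s | P s}, ?_, fun s hs => hs.1, ⟨node 0 0 0 0, ?_⟩, ?_⟩
  · refine comp_D0 (P := P) (D0.and (D0.mem (Tm.var 0) (col_mem hA 1)) (D0.ex (D0.ex (D0.ex
      (D0.ex (D0.and ?_ ?_))))))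
    · exact D0.eq (Tm.var 4) (Tm.node (Tm.var 3) (Tm.var 2) (Tm.var 1) (Tm.var 0))
    · exact D0.ball (Tm.var 1) (D0.iff (MemC_D0 (Tm.var 0) (Tm.var 1)) (D0.mem (Tm.var 0) hFm))
  · exact ⟨(hF _).2 (Or.inl rfl), 0, 0, 0, 0, rfl, fun x hx => absurd hx (not_lt_of_ge (zero_le' x))⟩
  · rintro s ⟨hs, u, n, m, c, rfl, hc⟩
    obtain ⟨v, hv⟩ := hψ n
    obtain ⟨m₀, hm₀⟩ := psiF_cont hnf.cont n v F
    let m' := m₀ + (m + (v + pr n 0)) + 1
    have h0 : m₀ ≤ m' := (le_add_of_nonneg_right (zero_le' _)).trans (lt_succ_self' _).le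
    have h1 : m < m' := lt_add_one_iff'.2
      ((le_add_of_nonneg_right (zero_le' _)).trans (le_add_of_nonneg_left (zero_le' _)))
    have h2 : v < m' := lt_add_one_iff'.2 ((le_add_of_nonneg_right (zero_le' _)).trans
      ((le_add_of_nonneg_left (zero_le' _)).trans (le_add_of_nonneg_left (zero_le' _))))
    have h3 : pr n 0 < m' := lt_add_one_iff'.2 ((le_add_of_nonneg_left (zero_le' _)).trans
      ((le_add_of_nonneg_left (zero_le' _)).trans (le_add_of_nonneg_left (zero_le' _))))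
    obtain ⟨c', hc'⟩ := exists_fcode_P (P := fun i => i ∈ F) (D0.mem (Tm.var 0) hFm) m'
    have hc'' : ∀ x, x < m' → (MemC x c' ↔ x ∈ F) := fun x hx => by
      rw [hc']
      exact ⟨fun h => h.2, fun h => ⟨hx, h⟩⟩
    refine ⟨pr (n + 1) (pr m' c'), (hF _).2 (Or.inr ⟨u, n, m, c, m', c', rfl, hs, h1, ?_, ⟨h3, ?_⟩,
      v, h2, ?_⟩), node u n m c, n + 1, m', c', rfl, hc''⟩
    · intro x hx
      rw [hc'' x (hx.trans h1), hc x hx]
    · rw [hc'' _ h3]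
      have : pr n 0 ∈ F ↔ n ∈ col F 0 := Iff.rfl
      rw [this, show col F 0 = A from col_join3_zero _ _ _]
    · intro c₂ hc₂
      refine (hm₀ _ fun x hx => ?_).2 hv
      show MemC x c₂ ↔ x ∈ F
      rw [hc₂ x (lt_of_lt_of_le hx h0), hc'' x (lt_of_lt_of_le hx h0)]

/-- children of a node in the tree -/
theorem child_of {ψ : Rel.{u}} {A : Set N.M} (hF : Fix ψ N A) {u n m c j : N.M}
    (h : pr (node u n m c) j + 1 ∈ col A 1) :
    ∃ m' c', pr (node u n m c) j + 1 = node (node u n m c) (n + 1) m' c' ∧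
      (m < m' ∧ ((∀ x, x < m → (MemC x c' ↔ MemC x c)) ∧ Chk ψ N A n m' c')) := by
  rcases (hF _).1 h with h1 | ⟨u', n', m₁, c₁, m', c', h1, h2, h3, h4, h5⟩
  · obtain ⟨h2, _⟩ := pr_inj (add_one_inj' h1)
    exact absurd h2 (succ_ne_zero' _)
  · obtain ⟨h6, h7⟩ := pr_inj (add_one_inj' h1)
    obtain ⟨rfl, rfl, rfl, rfl⟩ := node_inj h6
    exact ⟨m', c', h1, h3, h4, h5⟩

def Coh (s t : N.M) : Prop := ∀ u n m c u' n' m' c', s = node u n m c → t = node u' n' m' c' →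
  (m ≤ m' ∧ ∀ x, x < m → (MemC x c' ↔ MemC x c))

theorem Coh_D0 {s t : Ctx N → N.M} (hs : Tm s) (ht : Tm t) : D0 (fun v => Coh (s v) (t v)) := by
  refine D0.all (D0.all (D0.all (D0.all (D0.all (D0.all (D0.all (D0.all (D0.imp ?_ (D0.imp ?_
    (D0.and ?_ (D0.ball ?_ (D0.iff ?_ ?_))))))))))))
  · exact D0.eq hs.tail.tail.tail.tail.tail.tail.tail.tail
      (Tm.node (Tm.var 7) (Tm.var 6) (Tm.var 5) (Tm.var 4))
  · exact D0.eq ht.tail.tail.tail.tail.tail.tail.tail.tail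
      (Tm.node (Tm.var 3) (Tm.var 2) (Tm.var 1) (Tm.var 0))
  · exact D0.le (Tm.var 5) (Tm.var 1)
  · exact Tm.var 5
  · exact MemC_D0 (Tm.var 0) (Tm.var 1)
  · exact MemC_D0 (Tm.var 0) (Tm.var 5)

theorem root_anc {ψ : Rel.{u}} {A : Set N.M} (hA : A ∈ N.Sets) (hF : Fix ψ N A) {t : N.M} :
    t ∈ col A 1 → Anc (node 0 0 0 0) t := by
  refine strong_ind (P := fun t => t ∈ col A 1 → Anc (node 0 0 0 0) t) ?_ ?_ t
  · exact D0.imp (D0.mem (Tm.var 0) (col_mem hA 1)) (Anc_D0 (Tm.const _) (Tm.var 0))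
  · intro t ih ht
    rcases (hF _).1 ht with h3 | ⟨u, n, m, c, m', c', h3, h4, h5, h6, h7⟩
    · rw [h3]; exact Anc.refl _
    · rw [h3]
      exact (ih _ (by rw [h3]; exact lt_node_fst _ _ _ _) h4).succ _

theorem coh_of_anc {ψ : Rel.{u}} {A : Set N.M} (hA : A ∈ N.Sets) (hF : Fix ψ N A) {s t : N.M}
    (hs : Anc (node 0 0 0 0) s) : Anc s t → t ∈ col A 1 → s ∈ col A 1 ∧ Coh s t := by
  refine strong_ind (P := fun t => Anc s t → t ∈ col A 1 → s ∈ col A 1 ∧ Coh s t) ?_ ?_ t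
  · exact D0.imp (Anc_D0 (Tm.const s) (Tm.var 0)) (D0.imp (D0.mem (Tm.var 0) (col_mem hA 1))
      (D0.and (D0.const _) (Coh_D0 (Tm.const s) (Tm.var 0))))
  · intro t ih h ht
    rcases h.cases with h1 | ⟨t', j, h1, h2⟩
    · rw [h1] at ht ⊢
      refine ⟨ht, fun u n m c u' n' m' c' h1 h2 => ?_⟩
      obtain ⟨_, _, rfl, rfl⟩ := node_inj (h1.symm.trans h2)
      exact ⟨le_rfl, fun x _ => Iff.rfl⟩
    · rcases (hF _).1 ht with h3 | ⟨u, n, m, c, m', c', h3, h4, h5, h6, h7⟩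
      · rw [h3] at h1
        obtain ⟨h4, _⟩ := pr_inj (add_one_inj' h1)
        rw [← h4] at h2
        have h5 : node 0 0 0 0 ≤ (0 : N.M) := hs.le.trans h2.le
        exact absurd (le_antisymm h5 (zero_le' _)) (succ_ne_zero' _)
      · have e1 : t' = node u n m c := (pr_inj (add_one_inj' (h1.symm.trans h3))).1
        rw [e1] at h2
        obtain ⟨h8, h9⟩ := ih (node u n m c) (by rw [h3]; exact lt_node_fst _ _ _ _) h2 h4
        refine ⟨h8, fun u1 n1 m1 c1 u2 n2 m2 c2 h10 h11 => ?_⟩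
        obtain ⟨_, _, rfl, rfl⟩ := node_inj (h11.symm.trans h3)
        obtain ⟨h12, h13⟩ := h9 u1 n1 m1 c1 u n m c h10 rfl
        exact ⟨h12.trans h5.le, fun x hx => by
          rw [h6 x (lt_of_lt_of_le hx h12), h13 x hx]⟩

/-- a path through the tree gives a model -/
theorem psi_of_path {ψ δ : Rel.{u}} (hnf : IsNF ψ δ) {A : Set N.M} (hA : A ∈ N.Sets)
    (hF : Fix ψ N A) {Q : Set N.M} (hQ : Q ∈ N.Sets) (hr : node 0 0 0 0 ∈ Q)
    (hQT : ∀ s, s ∈ Q → s ∈ col A 1) (hchild : ∀ s, s ∈ Q → ∃ j, pr s j + 1 ∈ Q)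
    (hlin : ∀ s t, s ∈ Q → t ∈ Q → (Anc s t ∨ Anc t s)) :
    ∃ W ∈ N.Sets, Psi N A W := by
  let F : Set N.M := {x | ∃ s, s ∈ Q ∧ ∃ u n m c, s = node u n m c ∧ (x < m ∧ MemC x c)}
  have hFm : F ∈ N.Sets := by
    refine comp_D0 (P := fun x => ∃ s, s ∈ Q ∧ ∃ u n m c, s = node u n m c ∧ (x < m ∧ MemC x c))
      (D0.ex (D0.and (D0.mem (Tm.var 0) hQ) (D0.ex (D0.ex (D0.ex (D0.ex (D0.and ?_
        (D0.and ?_ ?_))))))))
    · exact D0.eq (Tm.var 4) (Tm.node (Tm.var 3) (Tm.var 2) (Tm.var 1) (Tm.var 0))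
    · exact D0.lt (Tm.var 5) (Tm.var 1)
    · exact MemC_D0 (Tm.var 5) (Tm.var 0)
  have hlev : ∀ n, ∃ s, s ∈ Q ∧ ∃ u m c, s = node u n m c := by
    intro n
    refine ind_D0 (P := fun n => ∃ s, s ∈ Q ∧ ∃ u m c, s = node u n m c) ?_ ?_ ?_ n
    · refine D0.ex (D0.and (D0.mem (Tm.var 0) hQ) (D0.ex (D0.ex (D0.ex ?_))))
      exact D0.eq (Tm.var 3) (Tm.node (Tm.var 2) (Tm.var 4) (Tm.var 1) (Tm.var 0))
    · exact ⟨_, hr, 0, 0, 0, rfl⟩
    · rintro n ⟨s, hs, u, m, c, rfl⟩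
      obtain ⟨j, hj⟩ := hchild _ hs
      obtain ⟨m', c', h1, _⟩ := child_of hF (hQT _ hj)
      exact ⟨_, hj, _, _, _, h1⟩
  -- the node of level `n + 1` together with its check
  have hlev' : ∀ n, ∃ u m' c', node u (n + 1) m' c' ∈ Q ∧ Chk ψ N A n m' c' := by
    intro n
    obtain ⟨s, hs, u, m, c, rfl⟩ := hlev n
    obtain ⟨j, hj⟩ := hchild _ hs
    obtain ⟨m', c', h1, h2, h3, h4⟩ := child_of hF (hQT _ hj)
    rw [h1] at hj
    exact ⟨_, m', c', hj, h4⟩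
  have hagr : ∀ u n m c, node u n m c ∈ Q → ∀ x, x < m → (MemC x c ↔ x ∈ F) := by
    intro u n m c hs x hx
    constructor
    · intro h; exact ⟨_, hs, u, n, m, c, rfl, hx, h⟩
    · rintro ⟨t, ht, u', n', m', c', rfl, hx', h'⟩
      rcases hlin _ _ hs ht with h | h
      · obtain ⟨_, h2⟩ := coh_of_anc hA hF (root_anc hA hF (hQT _ hs)) h (hQT _ ht)
        exact ((h2 _ _ _ _ _ _ _ _ rfl rfl).2 x hx).1 h'
      · obtain ⟨_, h2⟩ := coh_of_anc hA hF (root_anc hA hF (hQT _ ht)) h (hQT _ hs)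
        exact ((h2 _ _ _ _ _ _ _ _ rfl rfl).2 x hx').2 h'
  have hA0 : col F 0 = A := by
    ext n
    obtain ⟨u, m', c', hs, ⟨h1, h2⟩, _⟩ := hlev' n
    rw [← h2, hagr _ _ _ _ hs _ h1]
    exact Iff.rfl
  have hψ : ∀ n, ∃ v, psiF ψ N n v F := by
    intro n
    obtain ⟨u, m', c', hs, ⟨h1, h2⟩, v, hv, hv'⟩ := hlev' n
    refine ⟨v, ?_⟩
    obtain ⟨m₀, hm₀⟩ := psiF_cont hnf.cont n v F
    obtain ⟨u₂, m₂, c₂, hs₂, ⟨h3, _⟩, _⟩ := hlev' (m₀ + m')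
    have hm₂ : m₀ + m' < m₂ := lt_of_le_of_lt (fst_le_pr _ _) h3
    have hm₀' : m₀ ≤ m₂ := (le_add_of_nonneg_right (zero_le' _)).trans hm₂.le
    have hm' : m' ≤ m₂ := (le_add_of_nonneg_left (zero_le' _)).trans hm₂.le
    refine (hm₀ {x | MemC x c₂} fun x hx => ?_).1 (hv' c₂ fun x hx => ?_)
    · exact hagr _ _ _ _ hs₂ x (lt_of_lt_of_le hx hm₀')
    · rw [hagr _ _ _ _ hs x hx]
      exact hagr _ _ _ _ hs₂ x (lt_of_lt_of_le hx hm')
  refine ⟨col F 1, col_mem hFm 1, ?_⟩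
  have := hnf.bwd N (fun _ => 0) (cons (col F 0) (cons (col F 1) (fun _ => ∅))) (col F (1 + 1)) hψ
  rw [hA0] at this
  exact this

end Pool.Agent.Helper60.RR
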