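import Mathlib
import Pool.Agent.Helper60.RR.Path

namespace Pool.Agent.Helper60.RR

open Pool.Agent.Helper617 Pool.Agent.Helper617.RM

universe u

set_option linter.unusedSectionVars false
set_option linter.unusedVariables false

theorem Op_ge {N : L2Structure.{u}} [IsModelRCA0 N] {i : ℕ} (h : 13 ≤ i) (X Y : Set N.M)
    (p : N.M) : Op N i X Y p = X := by
  obtain ⟨k, rfl⟩ := Nat.exists_eq_add_of_le' h
  rfl

/-- `H` is the hierarchy of the formula `θ` below `a` -/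
def HypP (θ : Fml) (N : L2Structure.{u}) [IsModelRCA0 N] (a : N.M) (H R : Set N.M) (e : Ctx N)
    (E : SC N) : Prop :=
  ∀ p, p ∈ H ↔ ∃ x b, p = pr x b ∧ ((pr b a ∈ R ∧ b ≠ a) ∧
    Sat N θ (cons x e) (cons (restrict N R b H) E))

theorem US.restrict {R Y : SRel.{u}} (hR : US R) (hY : US Y) {t : TRel.{u}} (ht : UT t) :
    US (fun N _ e E => RR.restrict N (R N e E) (t N e) (Y N e E)) := by
  refine US.of (P := fun N _ e E p => ∃ m i, p = pr m i ∧ ((pr i (t N e) ∈ R N e E ∧ i ≠ t N e) ∧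
    p ∈ Y N e E)) ?_
  refine UA.ex (P := fun N _ e E m => ∃ i, e 0 = pr m i ∧ ((pr i (t N (tail e)) ∈ R N (tail e) E ∧
    i ≠ t N (tail e)) ∧ e 0 ∈ Y N (tail e) E)) ?_
  refine UA.ex (P := fun N _ e E i => e 1 = pr (e 0) i ∧ ((pr i (t N (tail (tail e))) ∈
    R N (tail (tail e)) E ∧ i ≠ t N (tail (tail e))) ∧ e 1 ∈ Y N (tail (tail e)) E)) ?_
  exact UA.and (UA.eq (UT.var 2) ((UT.var 1).pr (UT.var 0))) (UA.and (UA.and
    (UA.mem ((UT.var 0).pr ht.tl.tl.tl) hR.shift.shift.shift)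
    (UA.eq (UT.var 0) ht.tl.tl.tl).not) (UA.mem (UT.var 2) hY.shift.shift.shift))

theorem UA.hypP {θ : Fml} (hθ : θ.Arith) :
    UA.{u} (fun N _ e E => HypP θ N (e 0) (E 0) (E 1) (tail e) (tail (tail E))) := by
  refine UA.all (P := fun N _ e E p => p ∈ E 0 ↔ ∃ x b, p = pr x b ∧ ((pr b (e 0) ∈ E 1 ∧ b ≠ e 0) ∧
    Sat N θ (cons x (tail e)) (cons (RR.restrict N (E 1) b (E 0)) (tail (tail E))))) ?_
  refine UA.iff (UA.memV (UT.var 0) 0) ?_
  refine UA.ex (P := fun N _ e E x => ∃ b, e 0 = pr x b ∧ ((pr b (e 1) ∈ E 1 ∧ b ≠ e 1) ∧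
    Sat N θ (cons x (tail (tail e))) (cons (RR.restrict N (E 1) b (E 0)) (tail (tail E))))) ?_
  refine UA.ex (P := fun N _ e E b => e 1 = pr (e 0) b ∧ ((pr b (e 2) ∈ E 1 ∧ b ≠ e 2) ∧
    Sat N θ (cons (e 0) (tail (tail (tail e))))
      (cons (RR.restrict N (E 1) b (E 0)) (tail (tail E))))) ?_
  refine UA.and (UA.eq (UT.var 2) ((UT.var 1).pr (UT.var 0))) (UA.and (UA.and
    (UA.memV ((UT.var 0).pr (UT.var 3)) 1) (UA.eq (UT.var 0) (UT.var 3)).not) ?_)
  exact UA.comp (P := fun N _ e E => Sat N θ e E) ⟨θ, hθ, fun _ _ _ _ => Iff.rfl⟩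
    (UTs.cons (UT.var 1) UTs.id.tl.tl.tl.tl)
    (USs.cons (US.restrict (US.var 1) (US.var 0) (UT.var 0)) USs.id.tl.tl)

section down

variable {N : L2Structure.{u}} [IsModelRCA0 N]

theorem mem_restrict {R Y : Set N.M} {j p : N.M} : p ∈ restrict N R j Y ↔
    ∃ m i, p = pr m i ∧ (pr i j ∈ R ∧ i ≠ j) ∧ p ∈ Y := Iff.rfl

/-- the set which collects the hierarchies below the members of `B` that are columns of `U` -/
def Col (θ : Fml) (B : N.M → Prop) (U R : Set N.M) (e : Ctx N) (E : SC N) : Set N.M :=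
  {p | ∃ x b, p = pr x b ∧ (B b ∧ ∃ k, HypP θ N b (col U k) R e E ∧
    Sat N θ (cons x e) (cons (col U k) E))}

section

variable {R : Set N.M} (hR : IsWO N R)

include hR

theorem rlt_trans {i j k : N.M} (h : pr i j ∈ R ∧ i ≠ j) (h' : pr j k ∈ R ∧ j ≠ k) :
    pr i k ∈ R ∧ i ≠ k := by
  refine ⟨hR.trans _ _ _ h.1 h'.1, ?_⟩
  rintro rfl
  exact h.2 (hR.antisymm _ _ h.1 h'.1)

theorem restrict_restrict {i j : N.M} (h : pr i j ∈ R ∧ i ≠ j) (H : Set N.M) :
    restrict N R i (restrict N R j H) = restrict N R i H := by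
  ext p
  constructor
  · rintro ⟨m, k, h1, h2, _, _, _, _, h3⟩
    exact ⟨m, k, h1, h2, h3⟩
  · rintro ⟨m, k, h1, h2, h3⟩
    exact ⟨m, k, h1, h2, m, k, h1, rlt_trans hR h2 h, h3⟩

theorem HypP.res {θ : Fml} {a b : N.M} {H : Set N.M} {e : Ctx N} {E : SC N}
    (h : HypP θ N a H R e E) (hb : pr b a ∈ R ∧ b ≠ a) :
    HypP θ N b (restrict N R b H) R e E := by
  intro p
  constructor
  · rintro ⟨m, i, rfl, h2, h3⟩
    obtain ⟨x, c, h4, h5, h6⟩ := (h _).1 h3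
    obtain ⟨rfl, rfl⟩ := pr_inj h4
    refine ⟨m, i, rfl, h2, ?_⟩
    rw [restrict_restrict hR h2]
    exact h6
  · rintro ⟨x, c, rfl, h2, h3⟩
    rw [restrict_restrict hR h2] at h3
    exact ⟨x, c, rfl, h2, (h _).2 ⟨x, c, rfl, rlt_trans hR h2 hb, h3⟩⟩

variable [Sig1 N]

theorem HypP.unique {θ : Fml} {a : N.M} {H H' : Set N.M} (hRm : R ∈ N.Sets) (hH : H ∈ N.Sets)
    (hH' : H' ∈ N.Sets) {e : Ctx N} {E : SC N}
    (h : HypP θ N a H R e E) (h' : HypP θ N a H' R e E) : H = H' := by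
  have key : ∀ c, (pr c a ∈ R ∧ c ≠ a) → ∀ x, (pr x c ∈ H ↔ pr x c ∈ H') := by
    by_contra hcon
    push Not at hcon
    let S : Set N.M := {c | (pr c a ∈ R ∧ c ≠ a) ∧ ∃ x, ¬ (pr x c ∈ H ↔ pr x c ∈ H')}
    have hS : S ∈ N.Sets := comp_D0 (P := fun c => (pr c a ∈ R ∧ c ≠ a) ∧
      ∃ x, ¬ (pr x c ∈ H ↔ pr x c ∈ H')) (D0.and (D0.and (D0.mem ((Tm.var 0).pr (Tm.const a)) hRm)
        (D0.eq (Tm.var 0) (Tm.const a)).not) (D0.ex (D0.iff (D0.mem ((Tm.var 0).pr (Tm.var 1)) hH)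
          (D0.mem ((Tm.var 0).pr (Tm.var 1)) hH')).not))
    obtain ⟨c, hc, x, hx⟩ := hcon
    obtain ⟨c, ⟨hc, x, hx⟩, _, hmin⟩ := hR.least S hS
      ⟨c, ⟨hc, x, fun h => by rcases hx with hx | hx <;> tauto⟩, (hR.refl _ _ hc.1).1⟩
    have hres : restrict N R c H = restrict N R c H' := by
      ext p
      refine exists_congr fun m => exists_congr fun i => and_congr_right fun hp =>
        and_congr_right fun hi => ?_
      rw [hp]
      by_contra hcon
      have hi' : pr i a ∈ R ∧ i ≠ a := rlt_trans hR hi hc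
      have := hmin i ⟨hi', m, hcon⟩ (hR.refl _ _ hi.1).1
      exact hi.2 (hR.antisymm _ _ hi.1 this)
    refine hx ?_
    rw [h, h']
    refine exists_congr fun y => exists_congr fun b => and_congr_right fun hp => ?_
    obtain ⟨rfl, rfl⟩ := pr_inj hp
    rw [hres]
  ext p
  constructor
  · intro hp
    obtain ⟨x, b, rfl, hb, _⟩ := (h p).1 hp
    exact (key b hb x).1 hp
  · intro hp
    obtain ⟨x, b, rfl, hb, _⟩ := (h' p).1 hp
    exact (key b hb x).2 hp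

theorem restrict_Col {θ : Fml} {B : N.M → Prop} {U : Set N.M} {e : Ctx N} {E : SC N}
    (hRm : R ∈ N.Sets) (hU : U ∈ N.Sets) {b k : N.M} (hk : HypP θ N b (col U k) R e E)
    (hB : ∀ i, (pr i b ∈ R ∧ i ≠ b) → (B i ∧ ∃ k, HypP θ N i (col U k) R e E)) (hr : ∀ i j,
      HypP θ N b (col U k) R e E → (pr i b ∈ R ∧ i ≠ b) →
      HypP θ N i (col U j) R e E → restrict N R i (col U k) ∈ N.Sets) :
    restrict N R b (Col θ B U R e E) = col U k := by
  ext p
  constructor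
  · rintro ⟨m, i, rfl, hi, x, c, h1, h2, k', h3, h4⟩
    obtain ⟨rfl, rfl⟩ := pr_inj h1
    refine (hk _).2 ⟨m, i, rfl, hi, ?_⟩
    rw [(hk.res hR hi).unique hR hRm (hr i k' hk hi h3) (col_mem hU k') h3]
    exact h4
  · intro hp
    obtain ⟨x, c, rfl, hc, h1⟩ := (hk p).1 hp
    obtain ⟨h2, k', h3⟩ := hB c hc
    refine ⟨x, c, rfl, hc, x, c, rfl, h2, k', h3, ?_⟩
    rw [(hk.res hR hc).unique hR hRm (hr c k' hk hc h3) (col_mem hU k') h3] at h1
    exact h1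

end

variable [Sig1 N]

theorem restrict_mem {R Y : Set N.M} (hR : R ∈ N.Sets) (hY : Y ∈ N.Sets) (j : N.M) :
    restrict N R j Y ∈ N.Sets :=
  comp_D0 (P := fun p => ∃ m i, p = pr m i ∧ (pr i j ∈ R ∧ i ≠ j) ∧ p ∈ Y)
    (D0.ex (D0.ex (D0.and (D0.eq (Tm.var 2) ((Tm.var 1).pr (Tm.var 0)))
      (D0.and (D0.and (D0.mem ((Tm.var 0).pr (Tm.const j)) hR)
        (D0.eq (Tm.var 0) (Tm.const j)).not) (D0.mem (Tm.var 2) hY)))))

theorem Col_hyp {R : Set N.M} (hR : IsWO N R) {θ : Fml} {U : Set N.M} {e : Ctx N} {E : SC N}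
    (hRm : R ∈ N.Sets) (hU : U ∈ N.Sets) {a : N.M}
    (h : ∀ b, (pr b a ∈ R ∧ b ≠ a) → ∃ k, HypP θ N b (col U k) R e E) :
    HypP θ N a (Col θ (fun b => pr b a ∈ R ∧ b ≠ a) U R e E) R e E := by
  intro p
  refine exists_congr fun x => exists_congr fun b => and_congr_right fun hp =>
    and_congr_right fun hb => ?_
  have hres : ∀ k, HypP θ N b (col U k) R e E →
      restrict N R b (Col θ (fun b => pr b a ∈ R ∧ b ≠ a) U R e E) = col U k := fun k hk =>
    restrict_Col hR hRm hU hk (fun i hi => ⟨rlt_trans hR hi hb, h i (rlt_trans hR hi hb)⟩)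
      (fun i j _ _ _ => restrict_mem hRm (col_mem hU k) i)
  constructor
  · rintro ⟨k, h1, h2⟩
    rw [hres k h1]; exact h2
  · intro h1
    obtain ⟨k, hk⟩ := h b hb
    refine ⟨k, hk, ?_⟩
    rw [hres k hk] at h1
    exact h1

/-- the chain argument -/
theorem chain_step {T X Z P : Set N.M} (hX : X ∈ N.Sets) (hZ : Z ∈ N.Sets)
    (hPT : ∀ s, s ∈ P → s ∈ T) (hch : ∀ s, s ∈ P → ∃ j, pr s j + 1 ∈ P)
    (hth : Theta N T X Z) {R : Set N.M} (hR : IsWO N R) (hRm : R ∈ N.Sets)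
    {θ : Fml} (hθ : θ.Arith) (e : Ctx N) (E : SC N) (hE : ∀ j, ∃ k, col X k = E j)
    (hRX : ∃ k, col X k = R) {a : N.M}
    (h : ∀ b, (pr b a ∈ R ∧ b ≠ a) → ∀ t, t ∈ P → ∃ k, HypP θ N b (col (col Z t) k) R e E)
    {t₀ : N.M} (ht₀ : t₀ ∈ P) : ∃ k, HypP θ N a (col (col Z t₀) k) R e E := by
  choose! f hf using hch
  let t : ℕ → N.M := fun i => Nat.rec t₀ (fun _ s => pr s (f s) + 1) i
  have ht : ∀ i, t i ∈ P := by
    intro i
    induction i with
    | zero => exact ht₀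
    | succ i ih => exact hf _ ih
  let U : ℕ → Set N.M := fun i => col Z (t i)
  have hstep : ∀ i, Step N (U (i + 1)) (U i) := fun i =>
    (hth _ (hPT _ (ht i))).2 _ (hPT _ (ht (i + 1)))
  have hUX : ∀ i, Has N (U i) X := fun i => (hth _ (hPT _ (ht i))).1
  have hmono1 : ∀ i S, Has N (U (i + 1)) S → Has N (U i) S := by
    intro i S hS
    obtain ⟨k, hk⟩ := has_iff.1 hS
    have := (hstep i).2 13 (by norm_num) k k 0
    rw [Op_ge le_rfl, hk] at this
    exact this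
  have hmono : ∀ d i S, Has N (U (i + d)) S → Has N (U i) S := by
    intro d
    induction d with
    | zero => intro i S h; exact h
    | succ d ih => intro i S h; exact ih i S (hmono1 _ _ h)
  let J : Set (ℕ → Set N.M) := {F | ∃ c : ℕ, ∀ i, Has N (U i) (F (i + c))}
  have hJ : OpClosed J := by
    refine ⟨fun o F hF G hG p => ?_, ⟨fun _ => X, 0, fun i => hUX i⟩⟩
    obtain ⟨c, hc⟩ := hF
    obtain ⟨d, hd⟩ := hG
    refine ⟨c + d + 1, fun i => ?_⟩
    have h1 : Has N (U (i + 1)) (F (i + (c + d + 1))) := by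
      refine hmono d (i + 1) _ ?_
      have := hc (i + 1 + d)
      rwa [show i + 1 + d + c = i + (c + d + 1) by ring] at this
    have h2 : Has N (U (i + 1)) (G (i + (c + d + 1))) := by
      refine hmono c (i + 1) _ ?_
      have := hd (i + 1 + c)
      rwa [show i + 1 + c + d = i + (c + d + 1) by ring] at this
    by_cases ho : o < 14
    · obtain ⟨k, hk⟩ := has_iff.1 h1
      obtain ⟨l, hl⟩ := has_iff.1 h2
      have := (hstep i).2 o ho k l (p (i + (c + d + 1)))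
      rw [hk, hl] at this
      exact this
    · show Has N (U i) (Op N o _ _ _)
      rw [Op_ge (by omega)]
      exact hmono1 _ _ h1
  have hXJ : (fun _ => X) ∈ J := ⟨0, fun i => hUX i⟩
  have hcol : ∀ k, (fun _ => col X k) ∈ J := by
    intro k
    exact hJ.compUA (P := fun N _ e E => pr (e 0) (e 1) ∈ E 0)
      (UA.memV ((UT.var 0).pr (UT.var 1)) 0) (fun _ => cons k (fun _ => 0)) (fun _ _ => X)
      (fun j => hXJ)
  have hUJ : U ∈ J := ⟨1, fun i => (hstep i).1⟩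
  have hG : UA.{u} (fun N _ e E => ∃ x b, e 0 = pr x b ∧ ((pr b (e 1) ∈ E 1 ∧ b ≠ e 1) ∧
      ∃ k, HypP θ N b (col (E 0) k) (E 1) (tail (tail e)) (tail (tail E)) ∧
        Sat N θ (cons x (tail (tail e))) (cons (col (E 0) k) (tail (tail E))))) := by
    refine UA.ex (P := fun N _ e E x => ∃ b, e 0 = pr x b ∧ ((pr b (e 1) ∈ E 1 ∧ b ≠ e 1) ∧
      ∃ k, HypP θ N b (col (E 0) k) (E 1) (tail (tail e)) (tail (tail E)) ∧
        Sat N θ (cons x (tail (tail e))) (cons (col (E 0) k) (tail (tail E))))) ?_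
    refine UA.ex (P := fun N _ e E b => e 1 = pr (e 0) b ∧ ((pr b (e 2) ∈ E 1 ∧ b ≠ e 2) ∧
      ∃ k, HypP θ N b (col (E 0) k) (E 1) (tail (tail (tail e))) (tail (tail E)) ∧
        Sat N θ (cons (e 0) (tail (tail (tail e)))) (cons (col (E 0) k) (tail (tail E))))) ?_
    refine UA.and (UA.eq (UT.var 2) ((UT.var 1).pr (UT.var 0))) (UA.and (UA.and
      (UA.memV ((UT.var 0).pr (UT.var 3)) 1) (UA.eq (UT.var 0) (UT.var 3)).not) ?_)
    refine UA.ex (P := fun N _ e E k =>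
      HypP θ N (e 0) (col (E 0) k) (E 1) (tail (tail (tail (tail e)))) (tail (tail E)) ∧
        Sat N θ (cons (e 1) (tail (tail (tail (tail e)))))
          (cons (col (E 0) k) (tail (tail E)))) ?_
    refine UA.and ?_ ?_
    · exact (UA.hypP hθ).comp (UTs.cons (UT.var 1) UTs.id.tl.tl.tl.tl.tl)
        (USs.cons ((US.var 0).colm (UT.var 0)) USs.id.tl)
    · exact UA.comp (P := fun N _ e E => Sat N θ e E) ⟨θ, hθ, fun _ _ _ _ => Iff.rfl⟩
        (UTs.cons (UT.var 2) UTs.id.tl.tl.tl.tl.tl)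
        (USs.cons ((US.var 0).colm (UT.var 0)) USs.id.tl.tl)
  let E' : ℕ → ℕ → Set N.M := fun j => match j with
    | 0 => U
    | 1 => fun _ => R
    | j + 2 => fun _ => E j
  have hE' : ∀ j, E' j ∈ J := by
    intro j
    match j with
    | 0 => exact hUJ
    | 1 =>
      obtain ⟨k, hk⟩ := hRX
      have := hcol k
      rw [hk] at this
      exact this
    | j + 2 =>
      obtain ⟨k, hk⟩ := hE j
      have := hcol k
      rw [hk] at this
      exact this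
  obtain ⟨c, hc⟩ := hJ.compUA hG (fun _ => cons a e) E' hE'
  have h1 := hc 0
  obtain ⟨k, hk⟩ := has_iff.1 h1
  refine ⟨k, ?_⟩
  have h2 : col (col Z t₀) k = Col θ (fun b => pr b a ∈ R ∧ b ≠ a) (U (0 + c)) R e E := hk
  rw [h2]
  exact Col_hyp hR hRm (col_mem hZ _) fun b hb => h b hb _ (ht _)

/-- arithmetical transfinite recursion from a hierarchy along an ill-founded tree -/
theorem down {T X Z P : Set N.M} (hX : X ∈ N.Sets) (hZ : Z ∈ N.Sets) (hP : P ∈ N.Sets)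
    (hPT : ∀ s, s ∈ P → s ∈ T) (hPne : ∃ s, s ∈ P) (hch : ∀ s, s ∈ P → ∃ j, pr s j + 1 ∈ P)
    (hth : Theta N T X Z) {R : Set N.M} (hR : IsWO N R) (hRm : R ∈ N.Sets)
    {θ : Fml} (hθ : θ.Arith) (e : Ctx N) (E : SC N) (hE : ∀ j, ∃ k, col X k = E j)
    (hRX : ∃ k, col X k = R) :
    ∃ Y ∈ N.Sets, Y = {p | ∃ n j, p = pair N n j ∧ pair N j j ∈ R ∧
        Sat N θ (cons n e) (cons (restrict N R j Y) E)} := by
  have hEm : ∀ j, E j ∈ N.Sets := by
    intro j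
    obtain ⟨k, hk⟩ := hE j
    rw [← hk]
    exact col_mem hX k
  have hHyp : ∀ {q s k : Ctx N → N.M}, Tm q → Tm s → Tm k →
      D0 (fun v => HypP θ N (q v) (col (col Z (s v)) (k v)) R e E) := by
    intro q s k hq hs hk
    exact UA.toD0 (UA.hypP hθ) (g := fun v => cons (q v) e)
      (CM.cons hq fun i => Tm.const (e i))
      (S := fun v => cons (col (col Z (s v)) (k v)) (cons R E))
      (D0s.cons (S₀ := fun v => col (col Z (s v)) (k v))
        (D0.mem (((Tm.var 0).pr hk.tail).pr hs.tail) hZ)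
        (D0s.cons (S₀ := fun _ => R) (S := fun _ => E) (D0.mem (Tm.var 0) hRm)
          fun j => D0.mem (Tm.var 0) (hEm j)))
  have key : ∀ a, pr a a ∈ R → ∀ t, t ∈ P → ∃ k, HypP θ N a (col (col Z t) k) R e E := by
    by_contra hcon
    push Not at hcon
    let S : Set N.M := {a | ∃ t, t ∈ P ∧ ¬ ∃ k, HypP θ N a (col (col Z t) k) R e E}
    have hS : S ∈ N.Sets := comp_D0 (P := fun a => ∃ t, t ∈ P ∧
      ¬ ∃ k, HypP θ N a (col (col Z t) k) R e E) (D0.ex (D0.and (D0.mem (Tm.var 0) hP)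
        (D0.ex (hHyp (Tm.var 2) (Tm.var 1) (Tm.var 0))).not))
    obtain ⟨a₀, ha₀, t₀, ht₀, hno⟩ := hcon
    obtain ⟨a, ⟨t, ht, hno⟩, haa, hmin⟩ := hR.least S hS
      ⟨a₀, ⟨t₀, ht₀, fun ⟨k, hk⟩ => hno k hk⟩, ha₀⟩
    refine hno (chain_step hX hZ hPT hch hth hR hRm hθ e E hE hRX (fun b hb t ht => ?_) ht)
    by_contra hcon
    have := hmin b ⟨t, ht, hcon⟩ (hR.refl _ _ hb.1).1
    exact hb.2 (hR.antisymm _ _ hb.1 this)
  obtain ⟨t, ht⟩ := hPne
  have hU : col Z t ∈ N.Sets := col_mem hZ t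
  refine ⟨Col θ (fun b => pr b b ∈ R) (col Z t) R e E, ?_, ?_⟩
  · refine comp_D0 (P := fun p => ∃ x b, p = pr x b ∧ (pr b b ∈ R ∧ ∃ k,
      HypP θ N b (col (col Z t) k) R e E ∧ Sat N θ (cons x e) (cons (col (col Z t) k) E))) ?_
    refine D0.ex (D0.ex (D0.and (D0.eq (Tm.var 2) ((Tm.var 1).pr (Tm.var 0))) (D0.and
      (D0.mem ((Tm.var 0).pr (Tm.var 0)) hRm) (D0.ex (D0.and
        (hHyp (Tm.var 1) (Tm.const t) (Tm.var 0)) ?_)))))
    exact UA.toD0 (P := fun N _ e E => Sat N θ e E) ⟨θ, hθ, fun _ _ _ _ => Iff.rfl⟩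
      (g := fun v => cons (v 2) e) (CM.cons (Tm.var 2) fun i => Tm.const (e i))
      (S := fun v => cons (col (col Z t) (v 0)) E)
      (D0s.cons (S₀ := fun v => col (col Z t) (v 0)) (S := fun _ => E)
        (D0.mem (((Tm.var 0).pr (Tm.var 1)).pr (Tm.const t)) hZ) fun j => D0.mem (Tm.var 0) (hEm j))
  · ext p
    refine exists_congr fun x => exists_congr fun b => and_congr_right fun hp =>
      and_congr_right fun hb => ?_
    have hres : ∀ k, HypP θ N b (col (col Z t) k) R e E →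
        restrict N R b (Col θ (fun b => pr b b ∈ R) (col Z t) R e E) = col (col Z t) k :=
      fun k hk => restrict_Col hR hRm hU hk
        (fun i hi => ⟨(hR.refl _ _ hi.1).1, key i (hR.refl _ _ hi.1).1 t ht⟩)
        (fun i j _ _ _ => restrict_mem hRm (col_mem hU k) i)
    constructor
    · rintro ⟨k, h1, h2⟩
      rw [hres k h1]; exact h2
    · intro h1
      obtain ⟨k, hk⟩ := key b hb t ht
      refine ⟨k, hk, ?_⟩
      rw [hres k hk] at h1
      exact h1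

end down

end Pool.Agent.Helper60.RR
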