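import Mathlib
import Pool.Agent.Helper60.RR.Down

namespace Pool.Agent.Helper60.RR

open Pool.Agent.Helper617 Pool.Agent.Helper617.RM

universe u

set_option linter.unusedSectionVars false
set_option linter.unusedVariables false

/-! ### the canonical one-step extension -/

section can

variable {N : L2Structure.{u}} [IsModelRCA0 N]

/-- source sets -/
def src (A F : Set N.M) (a : N.M) : Set N.M :=
  {x | (a = pr ((0 : ℕ) : N.M) 0 ∧ x ∈ F) ∨ ((a = pr ((1 : ℕ) : N.M) 0 ∧ x ∈ A) ∨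
    ((∃ l, a = pr ((2 : ℕ) : N.M) l ∧ pr x l ∈ F) ∨
      (∃ l b, a = pr ((3 : ℕ) : N.M) (pr l b) ∧ pr (pr x b) l ∈ F)))}

/-- the canonical family -/
def CanS (A F : Set N.M) : Set N.M :=
  {z | ∃ x a b p, ∃ i < 14, z = pr x (pr ((i : ℕ) : N.M) (pr p (pr a b))) ∧
    x ∈ Op N i (src A F a) (src A F b) p}

theorem US.src {A F : SRel.{u}} (hA : US A) (hF : US F) {a : TRel.{u}} (ha : UT a) :
    US (fun N _ e E => RR.src (A N e E) (F N e E) (a N e)) := by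
  refine US.of (P := fun N _ e E x => (a N e = RM.pr ((0 : ℕ) : N.M) 0 ∧ x ∈ F N e E) ∨
    ((a N e = RM.pr ((1 : ℕ) : N.M) 0 ∧ x ∈ A N e E) ∨
    ((∃ l, a N e = RM.pr ((2 : ℕ) : N.M) l ∧ RM.pr x l ∈ F N e E) ∨
      (∃ l b, a N e = RM.pr ((3 : ℕ) : N.M) (RM.pr l b) ∧
        RM.pr (RM.pr x b) l ∈ F N e E)))) ?_
  refine UA.or (UA.and (UA.eq ha.tl ((UT.nat 0).pr UT.zero)) (UA.mem (UT.var 0) hF.shift))
    (UA.or (UA.and (UA.eq ha.tl ((UT.nat 1).pr UT.zero)) (UA.mem (UT.var 0) hA.shift))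
      (UA.or ?_ ?_))
  · refine UA.ex (P := fun N _ e E l => a N (tail e) = RM.pr ((2 : ℕ) : N.M) l ∧
      RM.pr (e 0) l ∈ F N (tail e) E) ?_
    exact UA.and (UA.eq ha.tl.tl ((UT.nat 2).pr (UT.var 0)))
      (UA.mem ((UT.var 1).pr (UT.var 0)) hF.shift.shift)
  · refine UA.ex (P := fun N _ e E l => ∃ b, a N (tail e) =
      RM.pr ((3 : ℕ) : N.M) (RM.pr l b) ∧ RM.pr (RM.pr (e 0) b) l ∈ F N (tail e) E) ?_
    refine UA.ex (P := fun N _ e E b => a N (tail (tail e)) =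
      RM.pr ((3 : ℕ) : N.M) (RM.pr (e 0) b) ∧
        RM.pr (RM.pr (e 1) b) (e 0) ∈ F N (tail (tail e)) E) ?_
    exact UA.and (UA.eq ha.tl.tl.tl ((UT.nat 3).pr ((UT.var 1).pr (UT.var 0))))
      (UA.mem (((UT.var 2).pr (UT.var 0)).pr (UT.var 1)) hF.shift.shift.shift)

theorem US.canS {A F : SRel.{u}} (hA : US A) (hF : US F) :
    US (fun N _ e E => CanS (A N e E) (F N e E)) := by
  refine US.of (P := fun N _ e E z => ∃ x a b p, ∃ i < 14,
    z = RM.pr x (RM.pr ((i : ℕ) : N.M) (RM.pr p (RM.pr a b))) ∧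
    x ∈ Op N i (RR.src (A N e E) (F N e E) a) (RR.src (A N e E) (F N e E) b) p) ?_
  refine UA.ex (P := fun N _ e E x => ∃ a b p, ∃ i < 14,
    e 0 = RM.pr x (RM.pr ((i : ℕ) : N.M) (RM.pr p (RM.pr a b))) ∧
    x ∈ Op N i (RR.src (A N (tail e) E) (F N (tail e) E) a)
      (RR.src (A N (tail e) E) (F N (tail e) E) b) p) ?_
  refine UA.ex (P := fun N _ e E a => ∃ b p, ∃ i < 14,
    e 1 = RM.pr (e 0) (RM.pr ((i : ℕ) : N.M) (RM.pr p (RM.pr a b))) ∧
    e 0 ∈ Op N i (RR.src (A N (tail (tail e)) E) (F N (tail (tail e)) E) a)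
      (RR.src (A N (tail (tail e)) E) (F N (tail (tail e)) E) b) p) ?_
  refine UA.ex (P := fun N _ e E b => ∃ p, ∃ i < 14,
    e 2 = RM.pr (e 1) (RM.pr ((i : ℕ) : N.M) (RM.pr p (RM.pr (e 0) b))) ∧
    e 1 ∈ Op N i (RR.src (A N (tail (tail (tail e))) E) (F N (tail (tail (tail e))) E) (e 0))
      (RR.src (A N (tail (tail (tail e))) E) (F N (tail (tail (tail e))) E) b) p) ?_
  refine UA.ex (P := fun N _ e E p => ∃ i < 14,
    e 3 = RM.pr (e 2) (RM.pr ((i : ℕ) : N.M) (RM.pr p (RM.pr (e 1) (e 0)))) ∧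
    e 2 ∈ Op N i (RR.src (A N (tail (tail (tail (tail e)))) E)
      (F N (tail (tail (tail (tail e)))) E) (e 1))
      (RR.src (A N (tail (tail (tail (tail e)))) E)
      (F N (tail (tail (tail (tail e)))) E) (e 0)) p) ?_
  refine UA.bexNat 14 fun i => UA.and (UA.eq (UT.var 4) ((UT.var 3).pr ((UT.nat i).pr
    ((UT.var 0).pr ((UT.var 2).pr (UT.var 1)))))) ?_
  exact UA.mem (UT.var 3) (US.op i
    (US.src hA.shift.shift.shift.shift.shift hF.shift.shift.shift.shift.shift (UT.var 2))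
    (US.src hA.shift.shift.shift.shift.shift hF.shift.shift.shift.shift.shift (UT.var 1))
    (UT.var 0))

theorem nat_inj {i j : ℕ} (h : ((i : ℕ) : N.M) = ((j : ℕ) : N.M)) : i = j := Nat.cast_injective h

theorem src_zero (A F : Set N.M) : src A F (pr ((0 : ℕ) : N.M) 0) = F := by
  ext x
  constructor
  · rintro (⟨_, h⟩ | ⟨h, _⟩ | ⟨l, h, _⟩ | ⟨l, b, h, _⟩)
    · exact h
    · exact absurd (nat_inj (pr_inj h).1) (by decide)
    · exact absurd (nat_inj (pr_inj h).1) (by decide)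
    · exact absurd (nat_inj (pr_inj h).1) (by decide)
  · intro h; exact Or.inl ⟨rfl, h⟩

theorem src_one (A F : Set N.M) : src A F (pr ((1 : ℕ) : N.M) 0) = A := by
  ext x
  constructor
  · rintro (⟨h, _⟩ | ⟨_, h⟩ | ⟨l, h, _⟩ | ⟨l, b, h, _⟩)
    · exact absurd (nat_inj (pr_inj h).1) (by decide)
    · exact h
    · exact absurd (nat_inj (pr_inj h).1) (by decide)
    · exact absurd (nat_inj (pr_inj h).1) (by decide)
  · intro h; exact Or.inr (Or.inl ⟨rfl, h⟩)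

theorem src_two (A F : Set N.M) (l : N.M) : src A F (pr ((2 : ℕ) : N.M) l) = col F l := by
  ext x
  constructor
  · rintro (⟨h, _⟩ | ⟨h, _⟩ | ⟨l', h, h'⟩ | ⟨l', b, h, _⟩)
    · exact absurd (nat_inj (pr_inj h).1) (by decide)
    · exact absurd (nat_inj (pr_inj h).1) (by decide)
    · obtain ⟨_, rfl⟩ := pr_inj h
      exact h'
    · exact absurd (nat_inj (pr_inj h).1) (by decide)
  · intro h; exact Or.inr (Or.inr (Or.inl ⟨l, rfl, h⟩))

theorem src_three (A F : Set N.M) (l b : N.M) :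
    src A F (pr ((3 : ℕ) : N.M) (pr l b)) = col (col F l) b := by
  ext x
  constructor
  · rintro (⟨h, _⟩ | ⟨h, _⟩ | ⟨l', h, h'⟩ | ⟨l', b', h, h'⟩)
    · exact absurd (nat_inj (pr_inj h).1) (by decide)
    · exact absurd (nat_inj (pr_inj h).1) (by decide)
    · exact absurd (nat_inj (pr_inj h).1) (by decide)
    · obtain ⟨_, h⟩ := pr_inj h
      obtain ⟨rfl, rfl⟩ := pr_inj h
      exact h'
  · intro h; exact Or.inr (Or.inr (Or.inr ⟨l, b, rfl, h⟩))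

theorem has_canS (A F : Set N.M) {i : ℕ} (hi : i < 14) (a b p : N.M) :
    Has N (CanS A F) (Op N i (src A F a) (src A F b) p) := by
  refine ⟨pr ((i : ℕ) : N.M) (pr p (pr a b)), fun x => ?_⟩
  constructor
  · rintro ⟨x', a', b', p', i', hi', h, h'⟩
    obtain ⟨e1, h2⟩ := pr_inj h
    obtain ⟨e2, h3⟩ := pr_inj h2
    obtain ⟨e3, h4⟩ := pr_inj h3
    obtain ⟨e4, e5⟩ := pr_inj h4
    have e6 := nat_inj e2
    rw [e1, e3, e4, e5, e6]
    exact h'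
  · intro h
    exact ⟨x, a, b, p, i, hi, rfl, h⟩

theorem has_canS_src (A F : Set N.M) (a : N.M) : Has N (CanS A F) (src A F a) := by
  have := has_canS A F (i := 13) (by norm_num) a a 0
  rwa [Op_ge le_rfl] at this

end can

/-! ### the order -/

section order

variable {N : L2Structure.{u}} [IsModelRCA0 N]

def LR (T : Set N.M) : Set N.M :=
  {z | ∃ n s n' s', z = pr (pr n s) (pr n' s') ∧ ((s ∈ T ∧ s' ∈ T) ∧
    (n < n' ∨ (n = n' ∧ (s = s' ∨ KB s s'))))}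

theorem mem_LR {T : Set N.M} {n s n' s' : N.M} : pr (pr n s) (pr n' s') ∈ LR T ↔
    (s ∈ T ∧ s' ∈ T) ∧ (n < n' ∨ (n = n' ∧ (s = s' ∨ KB s s'))) := by
  constructor
  · rintro ⟨m, t, m', t', h, h'⟩
    obtain ⟨h1, h2⟩ := pr_inj h
    obtain ⟨rfl, rfl⟩ := pr_inj h1
    obtain ⟨rfl, rfl⟩ := pr_inj h2
    exact h'
  · intro h; exact ⟨n, s, n', s', rfl, h⟩

theorem LR_form {T : Set N.M} {i j : N.M} (h : pr i j ∈ LR T) :
    ∃ n s n' s', i = pr n s ∧ j = pr n' s' ∧ ((s ∈ T ∧ s' ∈ T) ∧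
      (n < n' ∨ (n = n' ∧ (s = s' ∨ KB s s')))) := by
  obtain ⟨n, s, n', s', h1, h2⟩ := h
  obtain ⟨rfl, rfl⟩ := pr_inj h1
  exact ⟨n, s, n', s', rfl, rfl, h2⟩

variable [Sig1 N]

theorem LR_mem {T : Set N.M} (hT : T ∈ N.Sets) : LR T ∈ N.Sets := by
  refine comp_D0 (P := fun z => ∃ n s n' s', z = pr (pr n s) (pr n' s') ∧ ((s ∈ T ∧ s' ∈ T) ∧
    (n < n' ∨ (n = n' ∧ (s = s' ∨ KB s s'))))) ?_
  refine D0.ex (D0.ex (D0.ex (D0.ex (D0.and ?_ (D0.and (D0.and ?_ ?_) (D0.or ?_ (D0.and ?_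
    (D0.or ?_ ?_))))))))
  · exact D0.eq (Tm.var 4) (((Tm.var 3).pr (Tm.var 2)).pr ((Tm.var 1).pr (Tm.var 0)))
  · exact D0.mem (Tm.var 2) hT
  · exact D0.mem (Tm.var 0) hT
  · exact D0.lt (Tm.var 3) (Tm.var 1)
  · exact D0.eq (Tm.var 3) (Tm.var 1)
  · exact D0.eq (Tm.var 2) (Tm.var 0)
  · exact KB_D0 (Tm.var 2) (Tm.var 0)

theorem LR_wo {T : Set N.M} (hT : T ∈ N.Sets) {r : N.M} (hr : ∀ s, s ∈ T → Anc r s)
    (hwf : ∀ S ∈ N.Sets, (∀ s, s ∈ S → s ∈ T) → (∃ s, s ∈ S) →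
      ∃ s, s ∈ S ∧ ∀ t, t ∈ S → (t = s ∨ KB s t)) : IsWO N (LR T) := by
  refine ⟨fun i j h => ?_, fun i j h h' => ?_, fun i j k h h' => ?_, fun i j h h' => ?_,
    fun S hS hne => ?_⟩
  · obtain ⟨n, s, n', s', rfl, rfl, ⟨h1, h2⟩, _⟩ := LR_form h
    exact ⟨mem_LR.2 ⟨⟨h1, h1⟩, Or.inr ⟨rfl, Or.inl rfl⟩⟩, mem_LR.2 ⟨⟨h2, h2⟩, Or.inr ⟨rfl, Or.inl rfl⟩⟩⟩
  · obtain ⟨n, s, n', s', rfl, rfl, _, h1⟩ := LR_form h
    obtain ⟨_, h2⟩ := mem_LR.1 h'
    rcases h1 with h1 | ⟨rfl, h1⟩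
    · rcases h2 with h2 | ⟨h2, _⟩
      · exact absurd h1 (lt_asymm h2)
      · exact absurd h2 h1.ne'
    · rcases h2 with h2 | ⟨_, h2⟩
      · exact absurd h2 (lt_irrefl _)
      · rcases h1 with rfl | h1
        · rfl
        · rcases h2 with h2 | h2
          · rw [h2]
          · exact absurd (h1.trans h2) KB.irrefl
  · obtain ⟨n, s, n', s', rfl, rfl, h0, h1⟩ := LR_form h
    obtain ⟨m, t, m', t', h3, rfl, h4, h5⟩ := LR_form h'
    obtain ⟨rfl, rfl⟩ := pr_inj h3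
    refine mem_LR.2 ⟨⟨h0.1, h4.2⟩, ?_⟩
    rcases h1 with h1 | ⟨rfl, h1⟩
    · rcases h5 with h5 | ⟨rfl, _⟩
      · exact Or.inl (h1.trans h5)
      · exact Or.inl h1
    · rcases h5 with h5 | ⟨rfl, h5⟩
      · exact Or.inl h5
      · refine Or.inr ⟨rfl, ?_⟩
        rcases h1 with rfl | h1
        · exact h5
        · rcases h5 with rfl | h5
          · exact Or.inr h1
          · exact Or.inr (h1.trans h5)
  · obtain ⟨n, s, _, _, rfl, _, ⟨h1, _⟩, _⟩ := LR_form h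
    obtain ⟨n', s', _, _, rfl, _, ⟨h2, _⟩, _⟩ := LR_form h'
    show pr (pr n s) (pr n' s') ∈ LR T ∨ pr (pr n' s') (pr n s) ∈ LR T
    rw [mem_LR, mem_LR]
    rcases lt_trichotomy n n' with h3 | h3 | h3
    · exact Or.inl ⟨⟨h1, h2⟩, Or.inl h3⟩
    · by_cases h4 : s = s'
      · exact Or.inl ⟨⟨h1, h2⟩, Or.inr ⟨h3, Or.inl h4⟩⟩
      · rcases KB.total (hr s h1) (hr s' h2) h4 with h5 | h5
        · exact Or.inl ⟨⟨h1, h2⟩, Or.inr ⟨h3, Or.inr h5⟩⟩
        · exact Or.inr ⟨⟨h2, h1⟩, Or.inr ⟨h3.symm, Or.inr h5⟩⟩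
    · exact Or.inr ⟨⟨h2, h1⟩, Or.inl h3⟩
  · obtain ⟨i, hi, hii⟩ := hne
    obtain ⟨n₀, s₀, _, _, rfl, _, ⟨hs₀, _⟩, _⟩ := LR_form hii
    obtain ⟨n, _, ⟨s₁, hs₁, hs₁T⟩, hmin⟩ := lnp_D0 (P := fun n => ∃ s, pr n s ∈ S ∧ s ∈ T)
      (D0.ex (D0.and (D0.mem ((Tm.var 1).pr (Tm.var 0)) hS) (D0.mem (Tm.var 0) hT))) n₀
      ⟨s₀, hi, hs₀⟩
    obtain ⟨s, ⟨hs, hsT⟩, hleast⟩ := hwf {s | pr n s ∈ S ∧ s ∈ T}
      (comp_D0 (P := fun s => pr n s ∈ S ∧ s ∈ T) (D0.and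
        (D0.mem ((Tm.const n).pr (Tm.var 0)) hS) (D0.mem (Tm.var 0) hT)))
      (fun s h => h.2) ⟨s₁, hs₁, hs₁T⟩
    refine ⟨pr n s, hs, mem_LR.2 ⟨⟨hsT, hsT⟩, Or.inr ⟨rfl, Or.inl rfl⟩⟩, fun j hj hjj => ?_⟩
    obtain ⟨n', s', _, _, rfl, _, ⟨h2, _⟩, _⟩ := LR_form hjj
    refine mem_LR.2 ⟨⟨hsT, h2⟩, ?_⟩
    rcases lt_trichotomy n n' with h3 | h3 | h3
    · exact Or.inl h3
    · subst h3
      refine Or.inr ⟨rfl, ?_⟩
      rcases hleast s' ⟨hj, h2⟩ with h4 | h4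
      · exact Or.inl h4.symm
      · exact Or.inr h4
    · exact absurd ⟨s', hj, h2⟩ (hmin n' h3)

end order

/-! ### construction of the model along a well-ordering -/

section up

variable {N : L2Structure.{u}} [IsModelRCA0 N] [Sig1 N]

theorem up (hATR : ∀ θ : Fml, θ.Arith → ∀ (e : ℕ → N.M) (E : ℕ → Set N.M),
    (∀ i, E i ∈ N.Sets) → ∀ R ∈ N.Sets, IsWO N R → ∃ Y ∈ N.Sets,
      Y = {p | ∃ n j, p = pair N n j ∧ pair N j j ∈ R ∧
        Sat N θ (cons n e) (cons (restrict N R j Y) E)})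
    {A : Set N.M} (hA : A ∈ N.Sets) {r : N.M} (hrT : r ∈ col A 1)
    (hr : ∀ s, s ∈ col A 1 → Anc r s)
    (hwf : ∀ S ∈ N.Sets, (∀ s, s ∈ S → s ∈ col A 1) → (∃ s, s ∈ S) →
      ∃ s, s ∈ S ∧ ∀ t, t ∈ S → (t = s ∨ KB s t)) :
    ∃ W ∈ N.Sets, Psi N A W := by
  have hTm : col A 1 ∈ N.Sets := col_mem hA 1
  let R : Set N.M := LR (col A 1)
  have hRm : R ∈ N.Sets := LR_mem hTm
  have hR : IsWO N R := LR_wo hTm hr hwf
  obtain ⟨θ, hθ, hθ'⟩ := (US.canS (US.var 1) (US.var 0) : US.{u} _)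
  obtain ⟨Y, hYm, hY⟩ := hATR θ hθ (fun _ => 0) (fun _ => A) (fun _ => hA) R hRm hR
  have hV : ∀ l, pr l l ∈ R → col Y l = CanS A (restrict N R l Y) := by
    intro l hl
    ext x
    rw [mem_col]
    constructor
    · intro h
      rw [hY] at h
      obtain ⟨n, j, h1, h2, h3⟩ := h
      obtain ⟨rfl, rfl⟩ := pr_inj h1
      exact (hθ' N _ _).1 h3
    · intro h
      rw [hY]
      exact ⟨x, l, rfl, hl, (hθ' N _ _).2 h⟩
  have hlow : ∀ l m, pr m l ∈ R → m ≠ l → col (restrict N R l Y) m = col Y m := by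
    intro l m h h'
    ext x
    constructor
    · rintro ⟨x', m', h1, _, h2⟩
      exact h2
    · intro hx
      exact ⟨x, m, rfl, ⟨h, h'⟩, hx⟩
  have hHasF : ∀ l, pr l l ∈ R → Has N (col Y l) (restrict N R l Y) := by
    intro l hl
    rw [hV l hl]
    have := has_canS_src A (restrict N R l Y) (pr ((0 : ℕ) : N.M) 0)
    rwa [src_zero] at this
  have hHasA : ∀ l, pr l l ∈ R → Has N (col Y l) A := by
    intro l hl
    rw [hV l hl]
    have := has_canS_src A (restrict N R l Y) (pr ((1 : ℕ) : N.M) 0)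
    rwa [src_one] at this
  have hHasV : ∀ l m, pr m l ∈ R → m ≠ l → Has N (col Y l) (col Y m) := by
    intro l m h h'
    have := has_canS_src A (restrict N R l Y) (pr ((2 : ℕ) : N.M) m)
    rwa [src_two, ← hV l (hR.refl _ _ h).2, hlow l m h h'] at this
  have hHasC : ∀ l m a, pr m l ∈ R → m ≠ l → Has N (col Y l) (col (col Y m) a) := by
    intro l m a h h'
    have := has_canS_src A (restrict N R l Y) (pr ((3 : ℕ) : N.M) (pr m a))
    rwa [src_three, ← hV l (hR.refl _ _ h).2, hlow l m h h'] at this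
  have hHasO : ∀ l m m' i a b p, i < 14 → pr m l ∈ R → m ≠ l → pr m' l ∈ R → m' ≠ l →
      Has N (col Y l) (Op N i (col (col Y m) a) (col (col Y m') b) p) := by
    intro l m m' i a b p hi h1 h2 h3 h4
    have := has_canS A (restrict N R l Y) hi (pr ((3 : ℕ) : N.M) (pr m a))
      (pr ((3 : ℕ) : N.M) (pr m' b)) p
    rwa [src_three, src_three, ← hV l (hR.refl _ _ h1).2, hlow l m h1 h2, hlow l m' h3 h4] at this
  -- the class of all columns
  let J : Set (Unit → Set N.M) := {F | ∃ l a, pr l l ∈ R ∧ col (col Y l) a = F ()}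
  have hJof : ∀ l S, pr l l ∈ R → Has N (col Y l) S → (fun _ => S) ∈ J := by
    intro l S hl h
    obtain ⟨k, hk⟩ := has_iff.1 h
    exact ⟨l, k, hl, hk⟩
  have hfield : ∀ n s, s ∈ col A 1 → pr (pr n s) (pr n s) ∈ R := fun n s hs =>
    mem_LR.2 ⟨⟨hs, hs⟩, Or.inr ⟨rfl, Or.inl rfl⟩⟩
  have hbelow : ∀ n n' s s', s ∈ col A 1 → s' ∈ col A 1 → n < n' →
      pr (pr n s) (pr n' s') ∈ R ∧ pr n s ≠ pr n' s' := fun n n' s s' hs hs' h =>
    ⟨mem_LR.2 ⟨⟨hs, hs'⟩, Or.inl h⟩, fun he => h.ne (pr_inj he).1⟩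
  have hJ : OpClosed J := by
    refine ⟨fun o F hF G hG p => ?_, ⟨fun _ => A, hJof _ _ (hfield 0 r hrT)
      (hHasA _ (hfield 0 r hrT))⟩⟩
    obtain ⟨l, a, hl, ha⟩ := hF
    obtain ⟨m, b, hm, hb⟩ := hG
    by_cases ho : o < 14
    · obtain ⟨n, s, _, _, rfl, _, ⟨hs, _⟩, _⟩ := LR_form hl
      obtain ⟨n', s', _, _, rfl, _, ⟨hs', _⟩, _⟩ := LR_form hm
      have h1 := hbelow n (n + n' + 1) s r hs hrT
        (lt_add_one_iff'.2 (le_add_of_nonneg_right (zero_le' _)))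
      have h2 := hbelow n' (n + n' + 1) s' r hs' hrT
        (lt_add_one_iff'.2 (le_add_of_nonneg_left (zero_le' _)))
      have h3 := hHasO _ _ _ o a b (p ()) ho h1.1 h1.2 h2.1 h2.2
      rw [ha, hb] at h3
      obtain ⟨k, hk⟩ := has_iff.1 h3
      exact ⟨_, k, hfield _ _ hrT, hk⟩
    · refine ⟨l, a, hl, ?_⟩
      show _ = Op N o _ _ _
      rw [Op_ge (by omega)]
      exact ha
  let W : Set N.M := {z | ∃ x l a, z = pr x (pr l a) ∧ (pr l l ∈ R ∧ pr (pr x a) l ∈ Y)}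
  have hWm : W ∈ N.Sets := by
    refine comp_D0 (P := fun z => ∃ x l a, z = pr x (pr l a) ∧ (pr l l ∈ R ∧ pr (pr x a) l ∈ Y))
      (D0.ex (D0.ex (D0.ex (D0.and ?_ (D0.and ?_ ?_)))))
    · exact D0.eq (Tm.var 3) ((Tm.var 2).pr ((Tm.var 1).pr (Tm.var 0)))
    · exact D0.mem ((Tm.var 1).pr (Tm.var 1)) hRm
    · exact D0.mem (((Tm.var 2).pr (Tm.var 0)).pr (Tm.var 1)) hYm
  have hW1 : ∀ k, (fun _ : Unit => col W k) ∈ J := by
    intro k
    by_cases hk : ∃ l a, k = pr l a ∧ pr l l ∈ R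
    · obtain ⟨l, a, rfl, hl⟩ := hk
      refine ⟨l, a, hl, ?_⟩
      ext x
      constructor
      · intro h; exact ⟨x, l, a, rfl, hl, h⟩
      · rintro ⟨x', l', a', h1, _, h2⟩
        obtain ⟨e1, h3⟩ := pr_inj h1
        obtain ⟨e2, e3⟩ := pr_inj h3
        rw [e1, e2, e3]
        exact h2
    · have hemp : col W k = ∅ := by
        ext x
        constructor
        · rintro ⟨x', l', a', h1, h2, _⟩
          exact absurd ⟨l', a', (pr_inj h1).2, h2⟩ hk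
        · intro h; exact absurd h id
      rw [hemp]
      exact hJ.compUA (P := fun _ _ _ _ => False) UA.false (fun _ _ => 0) (fun _ _ => A)
        (fun _ => hJof _ _ (hfield 0 r hrT) (hHasA _ (hfield 0 r hrT)))
  have hW2 : ∀ S : Set N.M, (fun _ : Unit => S) ∈ J → Has N W S := by
    rintro S ⟨l, a, hl, ha⟩
    refine ⟨pr l a, fun x => ?_⟩
    have ha' : col (col Y l) a = S := ha
    rw [← ha']
    constructor
    · rintro ⟨x', l', a', h1, _, h2⟩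
      obtain ⟨e1, h3⟩ := pr_inj h1
      obtain ⟨e2, e3⟩ := pr_inj h3
      rw [e1, e2, e3]
      exact h2
    · intro h; exact ⟨x, l, a, rfl, hl, h⟩
  refine ⟨W, hWm, hW2 A (hJof _ _ (hfield 0 r hrT) (hHasA _ (hfield 0 r hrT))), ?_, ?_⟩
  · intro i hi a b p
    exact hW2 _ (hJ.op i _ (hW1 a) _ (hW1 b) (fun _ => p))
  · intro k
    obtain ⟨l, a, hl, ha⟩ := hW1 k
    obtain ⟨n, s₀, _, _, rfl, _, ⟨hs₀, _⟩, _⟩ := LR_form hl
    let Z : Set N.M := {z | ∃ x s, z = pr x s ∧ (s ∈ col A 1 ∧ pr x (pr (n + 1) s) ∈ Y)}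
    have hFJ : (fun _ : Unit => restrict N R (pr (n + 1 + 1) r) Y) ∈ J :=
      hJof _ _ (hfield _ r hrT) (hHasF _ (hfield _ r hrT))
    have hAJ : (fun _ : Unit => A) ∈ J := hJof _ _ (hfield 0 r hrT) (hHasA _ (hfield 0 r hrT))
    have hZJ : (fun _ : Unit => Z) ∈ J := by
      have hU : UA.{u} (fun N _ e E => ∃ x s, e 0 = pr x s ∧ (s ∈ col (E 1) 1 ∧
          pr x (pr (e 1) s) ∈ E 0)) := by
        refine UA.ex (P := fun N _ e E x => ∃ s, e 0 = pr x s ∧ (s ∈ col (E 1) 1 ∧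
          pr x (pr (e 1) s) ∈ E 0)) ?_
        refine UA.ex (P := fun N _ e E s => e 1 = pr (e 0) s ∧ (s ∈ col (E 1) 1 ∧
          pr (e 0) (pr (e 2) s) ∈ E 0)) ?_
        exact UA.and (UA.eq (UT.var 2) ((UT.var 1).pr (UT.var 0))) (UA.and
          (UA.mem (UT.var 0) ((US.var 1).colm UT.one))
          (UA.memV ((UT.var 1).pr ((UT.var 3).pr (UT.var 0))) 0))
      have := hJ.compUA hU (fun _ => cons (n + 1) (fun _ => 0))
        (fun j => match j with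
          | 0 => fun _ => restrict N R (pr (n + 1 + 1) r) Y
          | _ + 1 => fun _ => A) (fun j => by
            match j with
            | 0 => exact hFJ
            | j + 1 => exact hAJ)
      convert this using 1
      funext _
      ext z
      refine exists_congr fun x => exists_congr fun s => and_congr_right fun hz =>
        and_congr_right fun hs => ?_
      constructor
      · intro h
        exact ⟨x, pr (n + 1) s, rfl, hbelow _ _ _ _ hs hrT (lt_succ_self' _), h⟩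
      · rintro ⟨x', m', h1, _, h2⟩
        exact h2
    have hZcol : ∀ s, s ∈ col A 1 → col Z s = col Y (pr (n + 1) s) := by
      intro s hs
      ext x
      constructor
      · rintro ⟨x', s', h1, _, h2⟩
        obtain ⟨rfl, rfl⟩ := pr_inj h1
        exact h2
      · intro h; exact ⟨x, s, rfl, hs, h⟩
    obtain ⟨j, hj⟩ := has_iff.1 (hW2 Z hZJ)
    refine ⟨j, ?_⟩
    rw [hj]
    intro s hs
    rw [hZcol s hs]
    constructor
    · have h1 := hbelow n (n + 1) s₀ s hs₀ hs (lt_succ_self' _)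
      have h2 := hHasC _ _ a h1.1 h1.2
      rw [ha] at h2
      exact h2
    · intro i hi
      rw [hZcol _ hi]
      have h1 : pr (pr (n + 1) (pr s i + 1)) (pr (n + 1) s) ∈ R :=
        mem_LR.2 ⟨⟨hi, hs⟩, Or.inr ⟨rfl, Or.inr (KB.child s i)⟩⟩
      have h2 : pr (n + 1) (pr s i + 1) ≠ pr (n + 1) s := fun he =>
        (lt_pr_succ_left s i).ne' (pr_inj he).2
      exact ⟨hHasV _ _ h1 h2, fun o ho a b p => hHasO _ _ _ o a b p ho h1 h2 h1 h2⟩

end up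

end Pool.Agent.Helper60.RR
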