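import Mathlib
import Pool.Agent.Helper60.RR.Up
import Pool.Agent.Helper60.RR.Bridge

namespace Pool.Agent.Helper60.RR

open Pool.Agent.Helper617 Pool.Agent.Helper617.RM

universe u

set_option linter.unusedSectionVars false
set_option linter.unusedVariables false

/-! ### closing a formula -/

def NTerm.clean : NTerm → ℕ → NTerm
  | .var i, d => if i < d then .var i else .zero
  | .zero, _ => .zero
  | .one, _ => .one
  | .add s t, d => .add (s.clean d) (t.clean d)
  | .mul s t, d => .mul (s.clean d) (t.clean d)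

def Fml.clean : Fml → ℕ → Fml
  | .eq s t, d => .eq (s.clean d) (t.clean d)
  | .lt s t, d => .lt (s.clean d) (t.clean d)
  | .mem t i, d => .mem (t.clean d) (if i < 3 then i else 0)
  | .neg φ, d => .neg (φ.clean d)
  | .and φ ψ, d => .and (φ.clean d) (ψ.clean d)
  | .all φ, d => .all (φ.clean (d + 1))
  | .allSet φ, d => .allSet φ

theorem NTerm.clean_below (t : NTerm) (d : ℕ) : (t.clean d).Below d := by
  induction t with
  | var i =>
    unfold NTerm.clean
    split
    · assumption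
    · trivial
  | zero => trivial
  | one => trivial
  | add s t hs ht => exact ⟨hs, ht⟩
  | mul s t hs ht => exact ⟨hs, ht⟩

theorem NTerm.clean_val (N : L2Structure.{u}) (t : NTerm) (d : ℕ) (e : ℕ → N.M) :
    (t.clean d).val N e = t.val N (fun i => if i < d then e i else N.zero) := by
  induction t with
  | var i =>
    unfold NTerm.clean
    by_cases h : i < d
    · simp [h, NTerm.val]
    · simp [h, NTerm.val]
  | zero => rfl
  | one => rfl
  | add s t hs ht => simp only [NTerm.clean, NTerm.val, hs, ht]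
  | mul s t hs ht => simp only [NTerm.clean, NTerm.val, hs, ht]

theorem Fml.clean_below (φ : Fml) : φ.Arith → ∀ d, (φ.clean d).Below d 3 := by
  induction φ with
  | eq s t => intro _ d; exact ⟨s.clean_below d, t.clean_below d⟩
  | lt s t => intro _ d; exact ⟨s.clean_below d, t.clean_below d⟩
  | mem t i =>
    intro _ d
    refine ⟨t.clean_below d, ?_⟩
    show (if i < 3 then i else 0) < 3
    split
    · assumption
    · norm_num
  | neg φ ih => intro h d; exact ih h d
  | and φ ψ ih1 ih2 => intro h d; exact ⟨ih1 h.1 d, ih2 h.2 d⟩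
  | all φ ih => intro h d; exact ih h (d + 1)
  | allSet φ ih => intro h; exact absurd h id

theorem Fml.clean_arith (φ : Fml) : φ.Arith → ∀ d, (φ.clean d).Arith := by
  induction φ with
  | eq s t => intro _ d; trivial
  | lt s t => intro _ d; trivial
  | mem t i => intro _ d; trivial
  | neg φ ih => intro h d; exact ih h d
  | and φ ψ ih1 ih2 => intro h d; exact ⟨ih1 h.1 d, ih2 h.2 d⟩
  | all φ ih => intro h d; exact ih h (d + 1)
  | allSet φ ih => intro h; exact absurd h id

theorem Fml.clean_sat (N : L2Structure.{u}) (φ : Fml) : φ.Arith → ∀ (d : ℕ) (e : ℕ → N.M)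
    (E : ℕ → Set N.M), Sat N (φ.clean d) e E ↔
      Sat N φ (fun i => if i < d then e i else N.zero) (fun j => if j < 3 then E j else E 0) := by
  induction φ with
  | eq s t => intro _ d e E; simp only [Fml.clean, Sat, NTerm.clean_val]
  | lt s t => intro _ d e E; simp only [Fml.clean, Sat, NTerm.clean_val]
  | mem t i =>
    intro _ d e E
    simp only [Fml.clean, Sat, NTerm.clean_val]
    by_cases h : i < 3
    · simp [h]
    · simp [h]
  | neg φ ih => intro h d e E; exact not_congr (ih h d e E)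
  | and φ ψ ih1 ih2 => intro h d e E; exact and_congr (ih1 h.1 d e E) (ih2 h.2 d e E)
  | all φ ih =>
    intro h d e E
    refine forall_congr' fun a => (ih h (d + 1) (cons a e) E).trans ?_
    have : (fun i => if i < d + 1 then cons a e i else N.zero) =
        cons a (fun i => if i < d then e i else N.zero) := by
      funext i
      cases i with
      | zero => simp [cons]
      | succ i => simp [cons]
    rw [this]
  | allSet φ ih => intro h; exact absurd h id

/-! ### bound on the set variables -/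

def Fml.sbound : Fml → ℕ
  | .eq _ _ => 0
  | .lt _ _ => 0
  | .mem _ i => i + 1
  | .neg φ => φ.sbound
  | .and φ ψ => max φ.sbound ψ.sbound
  | .all φ => φ.sbound
  | .allSet φ => φ.sbound

theorem Fml.sbound_sat (N : L2Structure.{u}) (φ : Fml) : φ.Arith → ∀ (e : ℕ → N.M)
    (E E' : ℕ → Set N.M), (∀ j, j < φ.sbound → E j = E' j) → (Sat N φ e E ↔ Sat N φ e E') := by
  induction φ with
  | eq s t => intro _ e E E' h; rfl
  | lt s t => intro _ e E E' h; rfl
  | mem t i =>
    intro _ e E E' h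
    simp only [Sat]
    rw [h i (Nat.lt_succ_self i)]
  | neg φ ih => intro h e E E' hE; exact not_congr (ih h e E E' hE)
  | and φ ψ ih1 ih2 =>
    intro h e E E' hE
    exact and_congr (ih1 h.1 e E E' fun j hj => hE j (lt_of_lt_of_le hj (le_max_left _ _)))
      (ih2 h.2 e E E' fun j hj => hE j (lt_of_lt_of_le hj (le_max_right _ _)))
  | all φ ih => intro h e E E' hE; exact forall_congr' fun a => ih h _ E E' hE
  | allSet φ ih => intro h; exact absurd h id

/-! ### coded models -/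

section coded

variable {N : L2Structure.{u}} [IsModelRCA0 N]

theorem mem_coded {W S : Set N.M} : S ∈ (coded N W).Sets ↔ Has N W S := by
  rw [has_iff]
  constructor
  · rintro ⟨k, h⟩; exact ⟨k, h.symm⟩
  · rintro ⟨k, h⟩; exact ⟨k, h.symm⟩

theorem holds_iff {φ : Fml} (hφ : φ.Arith) (W : Set N.M) :
    Holds (coded N W) (.exSet (.allSet (.exSet φ))) ↔
      ∃ A, Has N W A ∧ ∀ Y, Has N W Y → ∃ Z, Has N W Z ∧
        Sat N φ (fun _ => N.zero) (cons Z (cons Y (cons A (fun _ => ∅)))) := by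
  have h1 : ∀ E, Sat (coded N W) φ (fun _ => N.zero) E ↔ Sat N φ (fun _ => N.zero) E := fun E =>
    sat_coded W φ hφ _ E
  have h2 : Holds (coded N W) (.exSet (.allSet (.exSet φ))) ↔
      ∃ A ∈ (coded N W).Sets, ∀ Y ∈ (coded N W).Sets, ∃ Z ∈ (coded N W).Sets,
        Sat (coded N W) φ (fun _ => N.zero) (cons Z (cons Y (cons A (fun _ => ∅)))) := by
    unfold Holds Fml.exSet
    simp only [Sat]
    push Not
    rfl
  exact h2.trans (exists_congr fun A => and_congr mem_coded (forall_congr' fun Y =>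
    imp_congr mem_coded (exists_congr fun Z => and_congr mem_coded (h1 _))))

theorem opClosed_of_ops {W : Set N.M} (hW : Ops N W W) :
    OpClosed {F : Unit → Set N.M | Has N W (F ())} := by
  refine ⟨fun o F hF G hG p => ?_, ⟨fun _ => col W 0, has_iff.2 ⟨0, rfl⟩⟩⟩
  by_cases ho : o < 14
  · obtain ⟨k, hk⟩ := has_iff.1 hF
    obtain ⟨l, hl⟩ := has_iff.1 hG
    have := hW o ho k l (p ())
    rw [hk, hl] at this
    exact this
  · show Has N W (Op N o _ _ _)
    rw [Op_ge (by omega)]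
    exact hF

theorem acao_coded (h : IsACA0 N) {W : Set N.M} (hWm : W ∈ N.Sets) (hW : Ops N W W) :
    IsACA0 (coded N W) where
  nonempty := ⟨_, mem_coded.2 (has_iff.2 ⟨0, rfl⟩)⟩
  succ_ne_zero := h.succ_ne_zero
  succ_inj := h.succ_inj
  add_zero := h.add_zero
  add_succ := h.add_succ
  mul_zero := h.mul_zero
  mul_succ := h.mul_succ
  not_lt_zero := h.not_lt_zero
  lt_succ := h.lt_succ
  induction := by
    intro X hX
    obtain ⟨k, hk⟩ := has_iff.1 (mem_coded.1 hX)
    exact h.induction X (hk ▸ col_mem hWm k)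
  comprehension := by
    intro φ hφ e E hE
    refine mem_coded.2 ?_
    have h1 := (opClosed_of_ops hW).comp hφ (fun _ => e) (fun j _ => E j)
      (fun j => mem_coded.1 (hE j))
    have h2 : {n | Sat (coded N W) φ (cons n e) E} = {x | Sat N φ (cons x e) E} := by
      ext x
      exact sat_coded W φ hφ _ E
    rw [h2]
    exact h1

theorem ops_of_coded {W : Set N.M} (h : IsACA0 (coded N W)) : Ops N W W := by
  intro i _ a b p
  obtain ⟨φ, h1, h2⟩ := (US.op i (US.var 0) (US.var 1) (UT.var 0) : US.{u} _)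
  have h3 := h.comprehension φ h1 (cons p (fun _ => N.zero))
    (cons (col W a) (cons (col W b) (fun _ => col W a))) (fun j => by
      match j with
      | 0 => exact mem_coded.2 (has_iff.2 ⟨a, rfl⟩)
      | 1 => exact mem_coded.2 (has_iff.2 ⟨b, rfl⟩)
      | j + 2 => exact mem_coded.2 (has_iff.2 ⟨a, rfl⟩))
  have h4 := mem_coded.1 h3
  have h5 : {n | Sat (coded N W) φ (cons n (cons p (fun _ => N.zero)))
      (cons (col W a) (cons (col W b) (fun _ => col W a)))} = Op N i (col W a) (col W b) p := by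
    ext x
    exact (sat_coded W φ h1 _ _).trans (h2 N _ _)
  rw [h5] at h4
  exact h4

end coded

/-- external finite disjunctions -/
theorem D0.bexNat {N : L2Structure.{u}} [IsModelRCA0 N] (k : ℕ) {P : ℕ → Ctx N → Prop}
    (hP : ∀ i, D0 (P i)) : D0 (fun v => ∃ i < k, P i v) := by
  induction k with
  | zero => exact D0.false.congr fun v => by simp
  | succ k ih =>
    refine (D0.or ih (hP k)).congr fun v => ?_
    constructor
    · rintro (⟨i, h1, h2⟩ | h)
      · exact ⟨i, Nat.lt_succ_of_lt h1, h2⟩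
      · exact ⟨k, Nat.lt_succ_self k, h⟩
    · rintro ⟨i, h1, h2⟩
      rcases Nat.lt_succ_iff_lt_or_eq.1 h1 with h | rfl
      · exact Or.inl ⟨i, h, h2⟩
      · exact Or.inr h2

/-- finitely many sets are the columns of one set -/
theorem exists_cols {N : L2Structure.{u}} [IsModelRCA0 N] [Sig1 N] (G : ℕ → Set N.M)
    (hG : ∀ j, G j ∈ N.Sets) (k : ℕ) : ∃ X ∈ N.Sets, (∀ j, j < k → ∃ a, col X a = G j) ∧
      ∃ a, col X a = ∅ := by
  let X : Set N.M := {z | ∃ j < k, ∃ x, z = pr x ((j : ℕ) : N.M) ∧ x ∈ G j}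
  refine ⟨X, ?_, fun j hj => ⟨((j : ℕ) : N.M), ?_⟩, ⟨((k : ℕ) : N.M), ?_⟩⟩
  · refine comp_D0 (P := fun z => ∃ j < k, ∃ x, z = pr x ((j : ℕ) : N.M) ∧ x ∈ G j) ?_
    refine D0.bexNat k (P := fun j v => ∃ x, v 0 = pr x ((j : ℕ) : N.M) ∧ x ∈ G j) fun j => ?_
    exact D0.ex (D0.and (D0.eq (Tm.var 1) ((Tm.var 0).pr (Tm.const _))) (D0.mem (Tm.var 0) (hG j)))
  · ext x
    constructor
    · rintro ⟨j', _, x', h1, h2⟩
      obtain ⟨h3, h4⟩ := pr_inj h1
      rw [nat_inj h4, h3]
      exact h2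
    · intro h
      exact ⟨j, hj, x, rfl, h⟩
  · ext x
    constructor
    · rintro ⟨j', hj', x', h1, h2⟩
      exact absurd (nat_inj (pr_inj h1).2) hj'.ne'
    · intro h; exact absurd h id

/-! ### the two directions -/

section main

variable {ψ δ : Rel.{u}} (hnf : IsNF ψ δ) {φ : Fml} (hφ : φ.Arith)
  (hsat : ∀ (N : L2Structure.{u}) [IsModelRCA0 N] (Z Y A : Set N.M),
    Sat N φ (fun _ => N.zero) (cons Z (cons Y (cons A (fun _ => ∅)))) ↔
      (Fix ψ N A ∧ Theta N (col A 1) Y Z))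

include hnf hφ hsat

theorem atr_of_rfn {N : L2Structure.{u}} (h : IsACA0 N)
    (hR : Rfn N (.exSet (.allSet (.exSet φ)))) : IsATR0 N := by
  have := h.rca0
  have := h.sig1
  refine { h with recursion := ?_ }
  intro θ hθ e E hE R hRm hRW
  -- code the parameters
  let m := θ.sbound
  let G : ℕ → Set N.M := fun j => if j < m then E j else R
  have hG : ∀ j, G j ∈ N.Sets := by
    intro j
    show (if j < m then E j else R) ∈ N.Sets
    split
    · exact hE j
    · exact hRm
  obtain ⟨X, hXm, hX1, hX2⟩ := exists_cols G hG (m + 1)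
  let E' : ℕ → Set N.M := fun j => if j < m then E j else ∅
  have hE' : ∀ j, ∃ k, col X k = E' j := by
    intro j
    by_cases hj : j < m
    · obtain ⟨a, ha⟩ := hX1 j (Nat.lt_succ_of_lt hj)
      refine ⟨a, ?_⟩
      rw [ha]
      show (if j < m then E j else R) = if j < m then E j else ∅
      simp [hj]
    · obtain ⟨a, ha⟩ := hX2
      refine ⟨a, ?_⟩
      rw [ha]
      show ∅ = if j < m then E j else ∅
      simp [hj]
  have hRX : ∃ k, col X k = R := by
    obtain ⟨a, ha⟩ := hX1 m (Nat.lt_succ_self m)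
    refine ⟨a, ?_⟩
    rw [ha]
    show (if m < m then E m else R) = R
    simp
  obtain ⟨W, hWm, hXW, hσ, hW⟩ := hR X hXm
  obtain ⟨A, hA, hAY⟩ := (holds_iff hφ W).1 hσ
  have hXW' := mem_coded.1 hXW
  have hAm : A ∈ N.Sets := by
    obtain ⟨k, hk⟩ := has_iff.1 hA
    rw [← hk]
    exact col_mem hWm k
  have hFix : Fix ψ N A := by
    obtain ⟨Z, _, hZ⟩ := hAY A hA
    exact ((hsat N Z A A).1 hZ).1
  have hPsi : Psi N A W := by
    refine ⟨hA, ops_of_coded hW, fun k => ?_⟩
    obtain ⟨Z, hZW, hZ⟩ := hAY (col W k) (has_iff.2 ⟨k, rfl⟩)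
    obtain ⟨j, hj⟩ := has_iff.1 hZW
    refine ⟨j, ?_⟩
    rw [hj]
    exact ((hsat N Z _ A).1 hZ).2
  obtain ⟨P, hPm, hPT, hPne, hPch⟩ := path_of_psi hnf hAm hWm hFix hPsi
  obtain ⟨Z, hZW, hZ⟩ := hAY X hXW'
  have hZm : Z ∈ N.Sets := by
    obtain ⟨k, hk⟩ := has_iff.1 hZW
    rw [← hk]
    exact col_mem hWm k
  have hth : Theta N (col A 1) X Z := ((hsat N Z X A).1 hZ).2
  obtain ⟨Y, hYm, hY⟩ := down hXm hZm hPm hPT hPne hPch hth hRW hRm hθ e E' hE' hRX
  refine ⟨Y, hYm, hY.trans ?_⟩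
  ext p
  refine exists_congr fun n => exists_congr fun j => and_congr_right fun _ =>
    and_congr_right fun _ => θ.sbound_sat N hθ _ _ _ fun i hi => ?_
  cases i with
  | zero => rfl
  | succ i =>
    have : i < m := Nat.lt_of_succ_lt hi
    show (if i < m then E i else ∅) = E i
    simp [this]

theorem rfn_of_atr {N : L2Structure.{u}} (h : IsATR0 N) :
    Rfn N (.exSet (.allSet (.exSet φ))) := by
  have := h.toIsACA0.rca0
  have := h.toIsACA0.sig1
  intro X hX
  obtain ⟨A, hAm, hA0, hFix⟩ := fix_exists hnf.ua hX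
  have hW : ∃ W ∈ N.Sets, Psi N A W := by
    have hrT : node 0 0 0 0 ∈ col A 1 := (hFix _).2 (Or.inl rfl)
    by_cases hwf : ∀ S ∈ N.Sets, (∀ s, s ∈ S → s ∈ col A 1) → (∃ s, s ∈ S) →
        ∃ s, s ∈ S ∧ ∀ t, t ∈ S → (t = s ∨ KB s t)
    · exact up h.recursion hAm hrT (fun s hs => root_anc hAm hFix hs) hwf
    · push Not at hwf
      obtain ⟨S, hSm, hST, hSne, hS⟩ := hwf
      obtain ⟨Q, hQm, hrQ, hQch, hQP, hQr, hQlin⟩ := leftmost hSm
        (fun s hs => root_anc hAm hFix (hST s hs)) hSne hS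
      refine psi_of_path hnf hAm hFix hQm hrQ (fun s hs => ?_) hQch hQlin
      obtain ⟨t, ht, hst⟩ := hQP s hs
      exact (coh_of_anc hAm hFix (hQr s hs) hst (hST t ht)).1
  obtain ⟨W, hWm, hWA, hWO, hWth⟩ := hW
  refine ⟨W, hWm, mem_coded.2 ?_, (holds_iff hφ W).2 ⟨A, hWA, fun Y hY => ?_⟩,
    acao_coded h.toIsACA0 hWm hWO⟩
  · have := (opClosed_of_ops hWO).compUA (P := fun N _ e E => pr (e 0) 0 ∈ E 0)
      (UA.memV ((UT.var 0).pr UT.zero) 0) (fun _ _ => 0) (fun _ _ => A) (fun _ => hWA)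
    rw [← hA0]
    exact this
  · obtain ⟨k, hk⟩ := has_iff.1 hY
    obtain ⟨j, hj⟩ := hWth k
    rw [hk] at hj
    exact ⟨col W j, has_iff.2 ⟨j, rfl⟩, (hsat N _ _ _).2 ⟨hFix, hj⟩⟩

end main

/-- There is a `Σ¹₃` sentence `σ` such that `Rfn(σ)` is equivalent to `ATR₀` over `ACA₀`. -/
theorem main : ∃ σ : Fml, σ.IsSentence ∧ σ.IsSigma13 ∧
    (∀ N : L2Structure.{u}, IsACA0 N → Rfn N σ → IsATR0 N) ∧
    (∀ N : L2Structure.{u}, IsATR0 N → Rfn N σ) := by
  obtain ⟨ψ, δ, hnf⟩ := exists_nf.{u}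
  obtain ⟨φ, h1, h2⟩ := (UA.and (UA.fix hnf.ua (US.var 2))
    (UA.theta ((US.var 2).colm UT.one) (US.var 1) (US.var 0)) : UA.{u} _)
  have hsat : ∀ (N : L2Structure.{u}) [IsModelRCA0 N] (Z Y A : Set N.M),
      Sat N (φ.clean 0) (fun _ => N.zero) (cons Z (cons Y (cons A (fun _ => ∅)))) ↔
        (Fix ψ N A ∧ Theta N (col A 1) Y Z) := by
    intro N _ Z Y A
    rw [φ.clean_sat N h1, h2]
    rfl
  refine ⟨.exSet (.allSet (.exSet (φ.clean 0))), φ.clean_below h1 0,
    ⟨φ.clean 0, φ.clean_arith h1 0, rfl⟩, fun N hN hR => ?_, fun N hN => ?_⟩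
  · exact atr_of_rfn hnf (φ.clean_arith h1 0) hsat hN hR
  · exact rfn_of_atr hnf (φ.clean_arith h1 0) hsat hN

end Pool.Agent.Helper60.RR
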